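import Pool.Agent.R657.UG.Defs

/-! # UG-A: characters of compact groups -/

set_option autoImplicit false

namespace Pool.Agent.R657.UG

open Topology Filter Set MeasureTheory

universe u v

namespace A

/-- a character as a complex valued continuous map -/
noncomputable def rc {N : Type u} [CommGroup N] [TopologicalSpace N] (r : N →ₜ* Circle) : C(N, ℂ) :=
  ⟨fun x => (r x : ℂ), continuous_induced_dom.comp r.continuous_toFun⟩

theorem rc_apply {N : Type u} [CommGroup N] [TopologicalSpace N] (r : N →ₜ* Circle) (x : N) :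
    rc r x = (r x : ℂ) := rfl

theorem rc_mul {N : Type u} [CommGroup N] [TopologicalSpace N] (r s : N →ₜ* Circle) :
    rc (r * s) = rc r * rc s := by
  ext x
  rw [ContinuousMap.mul_apply, rc_apply, rc_apply, rc_apply, ContinuousMonoidHom.mul_apply,
    Circle.coe_mul]

theorem inv_app {N : Type u} [CommGroup N] [TopologicalSpace N] (r : N →ₜ* Circle) (x : N) :
    (r⁻¹) x = (r x)⁻¹ := rfl

theorem one_app {N : Type u} [CommGroup N] [TopologicalSpace N] (x : N) :
    (1 : N →ₜ* Circle) x = 1 := rfl

/-- the star subalgebra spanned by a group of characters -/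
noncomputable def alg {N : Type u} [CommGroup N] [TopologicalSpace N]
    (R : Subgroup (N →ₜ* Circle)) : StarSubalgebra ℂ C(N, ℂ) where
  carrier := Submodule.span ℂ {f | ∃ r ∈ R, f = rc r}
  mul_mem' := by
    intro a b ha hb
    have ha' : a ∈ Submodule.span ℂ {f | ∃ r ∈ R, f = rc r} := ha
    have hb' : b ∈ Submodule.span ℂ {f | ∃ r ∈ R, f = rc r} := hb
    show a * b ∈ Submodule.span ℂ {f | ∃ r ∈ R, f = rc r}
    induction ha' using Submodule.span_induction with
    | mem a haa =>
      obtain ⟨r, hr, rfl⟩ := haa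
      induction hb' using Submodule.span_induction with
      | mem b hbb =>
        obtain ⟨s, hs, rfl⟩ := hbb
        exact Submodule.subset_span ⟨r * s, R.mul_mem hr hs, (rc_mul r s).symm⟩
      | zero => rw [mul_zero]; exact Submodule.zero_mem _
      | add x y hx hy ihx ihy =>
        rw [mul_add]; exact Submodule.add_mem _ (ihx hx) (ihy hy)
      | smul c x hx ih =>
        rw [mul_smul_comm]; exact Submodule.smul_mem _ _ (ih hx)
    | zero => rw [zero_mul]; exact Submodule.zero_mem _
    | add x y hx hy ihx ihy =>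
      rw [add_mul]; exact Submodule.add_mem _ (ihx hx) (ihy hy)
    | smul c x hx ih =>
      rw [smul_mul_assoc]; exact Submodule.smul_mem _ _ (ih hx)
  algebraMap_mem' := by
    intro c
    show algebraMap ℂ C(N, ℂ) c ∈ Submodule.span ℂ {f | ∃ r ∈ R, f = rc r}
    have : algebraMap ℂ C(N, ℂ) c = c • rc (1 : N →ₜ* Circle) := by
      ext x
      simp [rc_apply, one_app]
    rw [this]
    exact Submodule.smul_mem _ _ (Submodule.subset_span ⟨1, R.one_mem, rfl⟩)
  add_mem' := fun ha hb => Submodule.add_mem _ ha hb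
  star_mem' := by
    intro a ha
    have ha' : a ∈ Submodule.span ℂ {f | ∃ r ∈ R, f = rc r} := ha
    show star a ∈ Submodule.span ℂ {f | ∃ r ∈ R, f = rc r}
    induction ha' using Submodule.span_induction with
    | mem a haa =>
      obtain ⟨r, hr, rfl⟩ := haa
      refine Submodule.subset_span ⟨r⁻¹, R.inv_mem hr, ?_⟩
      ext x
      rw [ContinuousMap.star_apply, rc_apply, rc_apply, inv_app, Circle.coe_inv_eq_conj]
      rfl
    | zero => rw [star_zero]; exact Submodule.zero_mem _
    | add x y hx hy ihx ihy =>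
      rw [star_add]; exact Submodule.add_mem _ (ihx hx) (ihy hy)
    | smul c x hx ih =>
      rw [star_smul]; exact Submodule.smul_mem _ _ (ih hx)

theorem dense {N : Type u} [CommGroup N] [TopologicalSpace N] [CompactSpace N]
    (R : Subgroup (N →ₜ* Circle)) (hR : ∀ x : N, x ≠ 1 → ∃ r ∈ R, r x ≠ 1) (f : C(N, ℂ))
    (ε : ℝ) (hε : 0 < ε) :
    ∃ P ∈ Submodule.span ℂ {f | ∃ r ∈ R, f = rc r}, ‖P - f‖ < ε := by
  have hsep : (alg R).SeparatesPoints := by
    intro x y hxy
    have hxy' : x * y⁻¹ ≠ 1 := fun h => hxy (mul_inv_eq_one.1 h)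
    obtain ⟨r, hr, hr1⟩ := hR _ hxy'
    refine ⟨rc r, ⟨rc r, Submodule.subset_span ⟨r, hr, rfl⟩, rfl⟩, ?_⟩
    intro h
    apply hr1
    have h2 : r x = r y := by
      apply Circle.ext
      exact h
    rw [map_mul, map_inv, h2, mul_inv_cancel]
  have h1 := ContinuousMap.starSubalgebra_topologicalClosure_eq_top_of_separatesPoints (alg R) hsep
  have h2 : f ∈ (alg R).topologicalClosure := by rw [h1]; trivial
  have h3 : f ∈ closure ((alg R : StarSubalgebra ℂ C(N, ℂ)) : Set C(N, ℂ)) := h2
  obtain ⟨P, hP, hd⟩ := Metric.mem_closure_iff.1 h3 ε hε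
  refine ⟨P, hP, ?_⟩
  rw [dist_comm, dist_eq_norm] at hd
  exact hd

theorem int_char {K : Type u} [CommGroup K] [TopologicalSpace K] [IsTopologicalGroup K]
    [MeasurableSpace K] [BorelSpace K] (μ : Measure K) [μ.IsMulLeftInvariant] (r : K →ₜ* Circle)
    (a : K) (ha : r a ≠ 1) : ∫ x, (r x : ℂ) ∂μ = 0 := by
  have h := integral_mul_left_eq_self (μ := μ) (fun x => (r x : ℂ)) a
  simp only [map_mul, Circle.coe_mul] at h
  rw [integral_const_mul] at h
  have h2 : ((r a : ℂ) - 1) * ∫ x, (r x : ℂ) ∂μ = 0 := by rw [sub_mul, h, one_mul, sub_self]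
  rcases mul_eq_zero.1 h2 with h1 | h1
  · exfalso
    apply ha
    apply Circle.ext
    rw [Circle.coe_one]
    exact sub_eq_zero.1 h1
  · exact h1

theorem exists_haar (K : Type u) [CommGroup K] [TopologicalSpace K] [IsTopologicalGroup K]
    [CompactSpace K] [MeasurableSpace K] [BorelSpace K] :
    ∃ μ : Measure K, μ.IsMulLeftInvariant ∧ IsProbabilityMeasure μ := by
  refine ⟨Measure.haarMeasure ⊤, inferInstance, ⟨?_⟩⟩
  have := Measure.haarMeasure_self (K₀ := (⊤ : TopologicalSpace.PositiveCompacts K))
  simpa using this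

theorem integ {K : Type u} [TopologicalSpace K] [CompactSpace K] [MeasurableSpace K] [BorelSpace K]
    (μ : Measure K) [IsProbabilityMeasure μ] {f : K → ℂ} (hf : Continuous f) : Integrable f μ :=
  hf.integrable_of_hasCompactSupport (HasCompactSupport.of_compactSpace f)

end A

open A

theorem t_Sep : StmSep.{u} := by
  intro N _ _ _ _ _ R hR S hS t ht
  by_contra hcon
  push Not at hcon
  haveI : CompactSpace S := isCompact_iff_compactSpace.1 hS.isCompact
  letI : MeasurableSpace S := borel S
  haveI : BorelSpace S := ⟨rfl⟩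
  obtain ⟨μ, hμ1, hμ2⟩ := exists_haar S
  -- the Urysohn function
  have hcl2 : IsClosed ((fun x => t * x) '' (S : Set N)) :=
    (Homeomorph.mulLeft t).isClosedMap _ hS
  have hdisj : Disjoint (S : Set N) ((fun x => t * x) '' (S : Set N)) := by
    rw [Set.disjoint_left]
    rintro x hx ⟨y, hy, rfl⟩
    apply ht
    have := S.mul_mem hx (S.inv_mem hy)
    simpa using this
  obtain ⟨u, hu0, hu1, -⟩ := exists_continuous_zero_one_of_isClosed hS hcl2 hdisj
  let uc : C(N, ℂ) := ⟨fun x => ((u x : ℝ) : ℂ), by fun_prop⟩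
  obtain ⟨P, hP, hPu⟩ := A.dense R hR uc (1 / 4) (by norm_num)
  have hc1 : ∀ f : C(N, ℂ), Continuous (fun s : S => f (t * s)) := fun f => by fun_prop
  have hc2 : ∀ f : C(N, ℂ), Continuous (fun s : S => f s) := fun f => by fun_prop
  have hΛ : ∀ f ∈ Submodule.span ℂ {f | ∃ r ∈ R, f = rc r},
      ∫ s : S, f (t * s) ∂μ = ∫ s : S, f s ∂μ := by
    intro f hf
    induction hf using Submodule.span_induction with
    | mem f hf =>
      obtain ⟨r, hr, rfl⟩ := hf
      by_cases h : ∀ s ∈ S, r s = 1
      · have ht1 := hcon r hr h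
        apply integral_congr_ae
        filter_upwards with s
        rw [rc_apply, rc_apply, map_mul, ht1, one_mul]
      · push Not at h
        obtain ⟨a, haS, ha⟩ := h
        let rS : S →ₜ* Circle := ⟨r.toMonoidHom.comp S.subtype,
          r.continuous_toFun.comp continuous_subtype_val⟩
        have e1 := int_char μ rS ⟨a, haS⟩ ha
        have e2 : ∫ s : S, rc r s ∂μ = 0 := e1
        rw [e2]
        have e3 : (fun s : S => rc r (t * s)) = fun s : S => (r t : ℂ) * rc r s := by
          funext s
          rw [rc_apply, rc_apply, map_mul, Circle.coe_mul]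
        rw [e3, integral_const_mul, e2, mul_zero]
    | zero => simp
    | add x y _ _ hx hy =>
      simp only [ContinuousMap.add_apply]
      rw [integral_add (integ μ (hc1 x)) (integ μ (hc1 y)),
        integral_add (integ μ (hc2 x)) (integ μ (hc2 y)), hx, hy]
    | smul c x _ hx =>
      simp only [ContinuousMap.smul_apply, smul_eq_mul]
      rw [integral_const_mul, integral_const_mul, hx]
  have h0 := hΛ P hP
  have hbd : ∀ x : N, ‖P x - uc x‖ ≤ 1 / 4 := by
    intro x
    have := ContinuousMap.norm_coe_le_norm (P - uc) x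
    rw [ContinuousMap.sub_apply] at this
    exact this.trans hPu.le
  have h1 : ‖∫ s : S, P (t * s) ∂μ - 1‖ ≤ 1 / 4 := by
    have e1 : (∫ s : S, P (t * s) ∂μ) - 1 = ∫ s : S, (P (t * s) - uc (t * s)) ∂μ := by
      rw [integral_sub (integ μ (hc1 P)) (integ μ (hc1 uc))]
      congr 1
      have : (fun s : S => uc (t * s)) = fun _ => (1 : ℂ) := by
        funext s
        have : u (t * s) = 1 := hu1 ⟨s, s.2, rfl⟩
        simp [uc, this]
      rw [this]; simp
    rw [e1]
    refine (norm_integral_le_of_norm_le_const (C := 1 / 4)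
      (Filter.Eventually.of_forall fun s => hbd _)).trans ?_
    simp
  have h2 : ‖∫ s : S, P s ∂μ‖ ≤ 1 / 4 := by
    have e1 : (∫ s : S, P s ∂μ) = ∫ s : S, (P s - uc s) ∂μ := by
      apply integral_congr_ae
      filter_upwards with s
      have : u s = 0 := hu0 s.2
      simp [uc, this]
    rw [e1]
    refine (norm_integral_le_of_norm_le_const (C := 1 / 4)
      (Filter.Eventually.of_forall fun s => hbd _)).trans ?_
    simp
  rw [h0] at h1
  have h3 : ‖(1 : ℂ)‖ ≤ 1 / 4 + 1 / 4 := by
    calc ‖(1 : ℂ)‖ = ‖(∫ s : S, P s ∂μ) - ((∫ s : S, P s ∂μ) - 1)‖ := by congr 1; ring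
      _ ≤ ‖∫ s : S, P s ∂μ‖ + ‖(∫ s : S, P s ∂μ) - 1‖ := norm_sub_le _ _
      _ ≤ _ := add_le_add h2 h1
  norm_num at h3

theorem t_All : StmAll.{u} := by
  intro N _ _ _ _ _ R hR
  rw [eq_top_iff]
  intro χ _
  by_contra hχ
  letI : MeasurableSpace N := borel N
  haveI : BorelSpace N := ⟨rfl⟩
  obtain ⟨μ, hμ1, hμ2⟩ := exists_haar N
  obtain ⟨P, hP, hPu⟩ := A.dense R hR (rc χ) (1 / 2) (by norm_num)
  have hc : ∀ f : C(N, ℂ), Continuous (fun x : N => f x * rc (χ⁻¹) x) := fun f => by fun_prop
  have hΛ : ∀ f ∈ Submodule.span ℂ {f | ∃ r ∈ R, f = rc r},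
      ∫ x : N, f x * rc (χ⁻¹) x ∂μ = 0 := by
    intro f hf
    induction hf using Submodule.span_induction with
    | mem f hf =>
      obtain ⟨r, hr, rfl⟩ := hf
      have hne : r * χ⁻¹ ≠ 1 := by
        intro h
        have : r = χ := mul_inv_eq_one.1 h
        exact hχ (this ▸ hr)
      have hne2 : ∃ a, (r * χ⁻¹) a ≠ 1 := by
        by_contra hc
        push Not at hc
        exact hne (ContinuousMonoidHom.ext hc)
      obtain ⟨a, ha⟩ := hne2
      have e1 := int_char μ (r * χ⁻¹) a ha
      have e2 : (fun x : N => rc r x * rc (χ⁻¹) x) = fun x => (((r * χ⁻¹) x : Circle) : ℂ) := by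
        funext x
        rw [← rc_apply, rc_mul]; rfl
      rw [e2]; exact e1
    | zero => simp
    | add x y _ _ hx hy =>
      simp only [ContinuousMap.add_apply, add_mul]
      rw [integral_add (integ μ (hc x)) (integ μ (hc y)), hx, hy, add_zero]
    | smul c x _ hx =>
      simp only [ContinuousMap.smul_apply, smul_eq_mul, mul_assoc]
      rw [integral_const_mul, hx, mul_zero]
  have h0 := hΛ P hP
  have hone : ∀ x : N, rc χ x * rc (χ⁻¹) x = 1 := by
    intro x
    rw [← ContinuousMap.mul_apply, ← rc_mul, mul_inv_cancel, rc_apply, one_app, Circle.coe_one]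
  have hnorm : ∀ x : N, ‖rc (χ⁻¹) x‖ = 1 := fun x => by rw [rc_apply]; exact Circle.norm_coe _
  have h1 : ‖(∫ x : N, P x * rc (χ⁻¹) x ∂μ) - 1‖ ≤ 1 / 2 := by
    have e1 : (∫ x : N, P x * rc (χ⁻¹) x ∂μ) - 1 =
        ∫ x : N, (P x * rc (χ⁻¹) x - rc χ x * rc (χ⁻¹) x) ∂μ := by
      rw [integral_sub (integ μ (hc P)) (integ μ (hc (rc χ)))]
      congr 1
      simp [hone]
    rw [e1]
    refine (norm_integral_le_of_norm_le_const (C := 1 / 2)
      (Filter.Eventually.of_forall fun x => ?_)).trans ?_
    · rw [← sub_mul, norm_mul, hnorm, mul_one]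
      have := ContinuousMap.norm_coe_le_norm (P - rc χ) x
      rw [ContinuousMap.sub_apply] at this
      exact this.trans hPu.le
    · simp
  rw [h0, zero_sub, norm_neg, norm_one] at h1
  norm_num at h1

theorem t_CD : StmCD.{u} := by
  classical
  intro N _ _ _ _ _ R φ
  have key : ∀ F : Finset R, ∃ x : N, ∀ r ∈ F, φ r = (r : N →ₜ* Circle) x := by
    intro F
    -- the map to the finite power
    let ρ : N →* (F → Circle) :=
      { toFun := fun x i => (i.1 : N →ₜ* Circle) x
        map_one' := by funext i; simp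
        map_mul' := by intro x y; funext i; simp }
    have hρ : Continuous ρ := by
      apply continuous_pi
      intro i
      exact (i.1 : N →ₜ* Circle).continuous_toFun
    have hcl : IsClosed ((ρ.range : Subgroup (F → Circle)) : Set (F → Circle)) := by
      rw [MonoidHom.coe_range]
      exact (isCompact_range hρ).isClosed
    -- the monomial characters
    let mon : (F → ℤ) → ((F → Circle) →ₜ* Circle) := fun n =>
      { toFun := fun t => ∏ i, t i ^ n i
        map_one' := by simp
        map_mul' := by intro s t; simp [mul_zpow, Finset.prod_mul_distrib]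
        continuous_toFun := by
          apply continuous_finset_prod
          intro i _
          exact (continuous_apply i).zpow (n i) }
    have hmon : ∀ n t, mon n t = ∏ i, t i ^ n i := fun n t => rfl
    let R' : Subgroup ((F → Circle) →ₜ* Circle) :=
      { carrier := Set.range mon
        mul_mem' := by
          rintro _ _ ⟨a, rfl⟩ ⟨b, rfl⟩
          refine ⟨a + b, ?_⟩
          apply ContinuousMonoidHom.ext
          intro t
          rw [ContinuousMonoidHom.mul_apply, hmon, hmon, hmon, ← Finset.prod_mul_distrib]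
          exact Finset.prod_congr rfl fun i _ => by rw [Pi.add_apply, zpow_add]
        one_mem' := ⟨0, by
          apply ContinuousMonoidHom.ext
          intro t
          rw [hmon]; simp⟩
        inv_mem' := by
          rintro _ ⟨a, rfl⟩
          refine ⟨-a, ?_⟩
          apply ContinuousMonoidHom.ext
          intro t
          rw [A.inv_app, hmon, hmon, ← Finset.prod_inv_distrib]
          exact Finset.prod_congr rfl fun i _ => by rw [Pi.neg_apply, zpow_neg] }
    have hsep : ∀ t : F → Circle, t ≠ 1 → ∃ r ∈ R', r t ≠ 1 := by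
      intro t ht
      obtain ⟨i, hi⟩ := Function.ne_iff.1 ht
      refine ⟨mon (Pi.single i 1), ⟨_, rfl⟩, ?_⟩
      rw [hmon, Finset.prod_eq_single i]
      · simpa using hi
      · intro j _ hj
        rw [Pi.single_eq_of_ne hj, zpow_zero]
      · intro h; exact absurd (Finset.mem_univ i) h
    by_cases hmem : (fun i : F => φ i.1) ∈ ρ.range
    · obtain ⟨x, hx⟩ := hmem
      refine ⟨x, fun r hr => ?_⟩
      exact (congrFun hx ⟨r, hr⟩).symm
    · exfalso
      obtain ⟨r, ⟨n, rfl⟩, hr1, hr2⟩ := t_Sep (F → Circle) R' hsep ρ.range hcl _ hmem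
      apply hr2
      rw [hmon]
      have e1 : ∏ i : F, (i.1 : R) ^ n i = 1 := by
        apply Subtype.ext
        apply ContinuousMonoidHom.ext
        intro x
        have h1 := hr1 (ρ x) ⟨x, rfl⟩
        rw [hmon] at h1
        let ev : (N →ₜ* Circle) →* Circle :=
          { toFun := fun χ => χ x
            map_one' := rfl
            map_mul' := fun a b => rfl }
        have e2 : ((∏ i : F, (i.1 : R) ^ n i : R) : N →ₜ* Circle) =
            ∏ i : F, ((i.1 : R) : N →ₜ* Circle) ^ n i := by
          rw [← Subgroup.coe_subtype, map_prod]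
          exact Finset.prod_congr rfl fun i _ => by rw [map_zpow]
        rw [e2]
        show ev (∏ i : F, ((i.1 : R) : N →ₜ* Circle) ^ n i) = 1
        rw [map_prod]
        simp only [map_zpow]
        exact h1
      calc ∏ i : F, φ i.1 ^ n i = φ (∏ i : F, (i.1 : R) ^ n i) := by
            rw [map_prod]; exact Finset.prod_congr rfl fun i _ => by rw [map_zpow]
        _ = 1 := by rw [e1, map_one]
  have hne := isCompact_univ.inter_iInter_nonempty
    (fun r : R => {x : N | φ r = (r : N →ₜ* Circle) x})
    (fun r => isClosed_eq continuous_const (r : N →ₜ* Circle).continuous_toFun)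
    (fun F => by
      obtain ⟨x, hx⟩ := key F
      exact ⟨x, trivial, Set.mem_iInter₂.2 fun r hr => hx r hr⟩)
  obtain ⟨x, -, hx⟩ := hne
  exact ⟨x, fun r => Set.mem_iInter.1 hx r⟩

end Pool.Agent.R657.UG
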