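import Mathlib

/-! # Project UG (MP_c93b6d_al): reflexivity of uniform groups of families in an LCA group

Definitions and exact statements of the independent pieces.  Proofs: `NOTES.md` in this folder. -/

set_option autoImplicit false

namespace Pool.Agent.R657.UG

open Topology Filter Set

universe u v

/-- distance to `1` on the circle -/
noncomputable def nm (z : Circle) : ℝ := ‖(z : ℂ) - 1‖

/-- `G` is (Pontryagin) reflexive: the evaluation map `G → G^^` is an isomorphism of topological groups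
(the dual `G →ₜ* Circle` carries the compact-open topology). -/
def Reflexive (G : Type u) [CommGroup G] [TopologicalSpace G] : Prop :=
  ∃ e : G ≃ₜ* ((G →ₜ* Circle) →ₜ* Circle), ∀ (g : G) (χ : G →ₜ* Circle), e g χ = χ g

/-- every continuous character of the dual group is an evaluation -/
def SurjEv (G : Type u) [CommGroup G] [TopologicalSpace G] : Prop :=
  ∀ ξ : (G →ₜ* Circle) →ₜ* Circle, ∃ g : G, ∀ χ : G →ₜ* Circle, ξ χ = χ g

/-- `j : ℤ ^ m → A` is a discrete cocompact lattice (`C` a compact set of representatives) -/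
def IsLat {A : Type u} [CommGroup A] [TopologicalSpace A] (m : ℕ)
    (j : Multiplicative (Fin m → ℤ) →* A) (C : Set A) : Prop :=
  IsCompact C ∧
  (∀ K : Set A, IsCompact K → {z : Fin m → ℤ | j (Multiplicative.ofAdd z) ∈ K}.Finite) ∧
  ∀ x : A, ∃ z : Fin m → ℤ, ∃ c ∈ C, j (Multiplicative.ofAdd z) * c = x

/-! ## UG-A: compact groups -/

/-- UG-A1: in a compact group with a point separating group `R` of characters, the characters in `R`
separate points from closed subgroups. -/
def StmSep : Prop := ∀ (N : Type u) [CommGroup N] [TopologicalSpace N] [IsTopologicalGroup N]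
  [CompactSpace N] [T2Space N] (R : Subgroup (N →ₜ* Circle)),
  (∀ x : N, x ≠ 1 → ∃ r ∈ R, r x ≠ 1) →
  ∀ S : Subgroup N, IsClosed (S : Set N) → ∀ t : N, t ∉ S →
    ∃ r ∈ R, (∀ s ∈ S, r s = 1) ∧ r t ≠ 1

/-- UG-A2: a point separating group of characters of a compact group contains all characters. -/
def StmAll : Prop := ∀ (N : Type u) [CommGroup N] [TopologicalSpace N] [IsTopologicalGroup N]
  [CompactSpace N] [T2Space N] (R : Subgroup (N →ₜ* Circle)),
  (∀ x : N, x ≠ 1 → ∃ r ∈ R, r x ≠ 1) → R = ⊤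

/-- UG-A3: every (abstract) homomorphism `R → 𝕋`, `R` a group of continuous characters of a compact
group, is an evaluation. (No separation assumption.) -/
def StmCD : Prop := ∀ (N : Type u) [CommGroup N] [TopologicalSpace N] [IsTopologicalGroup N]
  [CompactSpace N] [T2Space N] (R : Subgroup (N →ₜ* Circle)) (φ : R →* Circle),
  ∃ x : N, ∀ r : R, φ r = (r : N →ₜ* Circle) x

/-! ## UG-B: lattices -/

/-- UG-B: every LCA group has an open subgroup with a discrete cocompact lattice `ℤ ^ m`. -/
def StmLat : Prop := ∀ (X : Type u) [CommGroup X] [TopologicalSpace X] [IsTopologicalGroup X]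
  [LocallyCompactSpace X] [T2Space X],
  ∃ Y : Subgroup X, IsOpen (Y : Set X) ∧
    ∃ (m : ℕ) (j : Multiplicative (Fin m → ℤ) →* Y) (C : Set Y), IsLat m j C

/-! ## UG-C: averaging -/

/-- UG-C: a lattice `ℤ ^ m → A` extends to a continuous proper homomorphism `A → ℝ ^ m`. -/
def StmAvg : Prop := ∀ (A : Type u) [CommGroup A] [TopologicalSpace A] [IsTopologicalGroup A]
  [LocallyCompactSpace A] [T2Space A] (m : ℕ) (j : Multiplicative (Fin m → ℤ) →* A) (C : Set A),
  IsLat m j C →
  ∃ π : A → (Fin m → ℝ), Continuous π ∧ (∀ x y : A, π (x * y) = π x + π y) ∧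
    (∀ (z : Fin m → ℤ) (i : Fin m), π (j (Multiplicative.ofAdd z)) i = (z i : ℝ)) ∧
    ∀ r : ℝ, IsCompact {x : A | ∀ i, |π x i| ≤ r}

/-! ## UG-D: duality for groups with a lattice -/

/-- UG-D: LCA groups with a lattice are reflexive (uses UG-A2, UG-A3, UG-C and `lca_chars`). -/
def StmDualLat : Prop := ∀ (A : Type u) [CommGroup A] [TopologicalSpace A] [IsTopologicalGroup A]
  [LocallyCompactSpace A] [T2Space A] (m : ℕ) (j : Multiplicative (Fin m → ℤ) →* A) (C : Set A),
  IsLat m j C → Reflexive A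

/-! ## UG-E: open subgroups -/

/-- UG-E1: if an open subgroup is reflexive then every character of the dual is an evaluation. -/
def StmOpenSurj : Prop := ∀ (G : Type u) [CommGroup G] [TopologicalSpace G] [IsTopologicalGroup G]
  [T2Space G] (G₀ : Subgroup G), IsOpen (G₀ : Set G) → SurjEv G₀ → SurjEv G

/-- UG-E2: a group with a reflexive open subgroup is reflexive (uses UG-E1). -/
def StmOpen : Prop := ∀ (G : Type u) [CommGroup G] [TopologicalSpace G] [IsTopologicalGroup G]
  [T2Space G] (G₀ : Subgroup G), IsOpen (G₀ : Set G) → Reflexive G₀ → Reflexive G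

/-! ## UG-F: lifting null sequences -/

/-- UG-F: lifting lemma (uses UG-A3, `lca_chars` and divisibility). -/
def StmLift : Prop := ∀ (X : Type u) [CommGroup X] [TopologicalSpace X] [IsTopologicalGroup X]
  [LocallyCompactSpace X] [T2Space X] (I : Type v) (F : Filter I) (V : ℕ → Set X)
  (f : ℕ → I → X),
  (∀ n, IsCompact (V n)) → (∀ n, (1 : X) ∈ V n) → (∀ n, ∀ x ∈ V n, x⁻¹ ∈ V n) →
  (∀ n, ∀ x ∈ V (n + 1), ∀ y ∈ V (n + 1), x * y ∈ V n) →
  (∀ n i, f n i ∈ V n) → (∀ n, Tendsto (f n) F (𝓝 1)) →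
  ∃ y : ℕ → I → X, (∀ n i k, y n i ∈ V k) ∧ (∀ n, Tendsto (y n) F (𝓝 1)) ∧
    ∀ W ∈ 𝓝 (1 : X), ∀ᶠ n in atTop, ∀ i, f n i * (y n i)⁻¹ ∈ W

end Pool.Agent.R657.UG
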