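import Pool.Agent.R746.LCAChars
import Pool.Agent.R657.UG.Defs

/-! # UG-B: discrete cocompact lattices in compactly generated LCA groups (helper806) -/

set_option autoImplicit false
set_option linter.unusedSectionVars false

namespace Pool.Agent.R657.UG

open Topology Set Filter Pointwise
open Pool.Agent.R746.LCA

universe u

section

variable {A : Type u} [CommGroup A]

/-- the homomorphism with given values on the basis -/
noncomputable def homZ {m : ℕ} (a : Fin m → A) : Multiplicative (Fin m → ℤ) →* A where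
  toFun z := ∏ i, a i ^ (Multiplicative.toAdd z i)
  map_one' := by simp
  map_mul' z w := by
    simp only [toAdd_mul, Pi.add_apply, zpow_add, Finset.prod_mul_distrib]

theorem homZ_apply {m : ℕ} (a : Fin m → A) (z : Fin m → ℤ) :
    homZ a (Multiplicative.ofAdd z) = ∏ i, a i ^ z i := rfl

theorem hom_eq {B : Type u} [CommGroup B] {m : ℕ} (j : Multiplicative (Fin m → ℤ) →* B)
    (z : Fin m → ℤ) :
    j (Multiplicative.ofAdd z) = ∏ i, j (Multiplicative.ofAdd (Pi.single i 1)) ^ z i := by
  have h1 : Multiplicative.ofAdd z = ∏ i, (Multiplicative.ofAdd (Pi.single i (1 : ℤ))) ^ z i := by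
    apply Multiplicative.toAdd.injective
    rw [toAdd_prod, toAdd_ofAdd]
    funext k
    rw [Finset.sum_apply]
    simp only [toAdd_zpow, toAdd_ofAdd, Pi.smul_apply, smul_eq_mul]
    rw [Finset.sum_eq_single k]
    · simp
    · intro b _ hb
      rw [Pi.single_eq_of_ne (Ne.symm hb), mul_zero]
    · simp
  rw [h1, map_prod]
  refine Finset.prod_congr rfl fun i _ => ?_
  rw [map_zpow]

end

theorem lat_zero {A : Type u} [CommGroup A] [TopologicalSpace A] [IsTopologicalGroup A]
    [LocallyCompactSpace A] [T2Space A] (F : Finset A) (U : Set A) (hU : IsCompact U)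
    (hFU : ∀ x : A, ∃ f ∈ Subgroup.closure (F : Set A), ∃ u ∈ U, f * u = x)
    (hF : ∀ f ∈ F, Cp f) : ∃ (m : ℕ) (j : Multiplicative (Fin m → ℤ) →* A) (C : Set A),
      IsLat m j C := by
  obtain ⟨C, hC, hFC⟩ := exists_compact_closure F hF
  have hcomp : IsCompact (Set.univ : Set A) := by
    have h1 : (Set.univ : Set A) ⊆ C * U := by
      intro x _
      obtain ⟨f, hf, u, hu, rfl⟩ := hFU x
      exact Set.mul_mem_mul (hFC hf) hu
    rw [← Set.eq_univ_of_univ_subset h1]
    exact hC.mul hU
  refine ⟨0, 1, Set.univ, hcomp, fun K _ => Set.toFinite _, fun x => ⟨0, x, Set.mem_univ _, ?_⟩⟩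
  simp

/-- lifting of compact sets -/
theorem lift_compact {A B : Type u} [TopologicalSpace A] [TopologicalSpace B]
    [LocallyCompactSpace A] (π : A → B) (hπ : IsOpenMap π) (hs : Function.Surjective π)
    (C' : Set B) (hC' : IsCompact C') : ∃ C : Set A, IsCompact C ∧ C' ⊆ π '' C := by
  classical
  choose s hs using hs
  have hK : ∀ a : A, ∃ K : Set A, IsCompact K ∧ K ∈ 𝓝 a := fun a => exists_compact_mem_nhds a
  choose K hKc hKn using hK
  obtain ⟨t, -, ht⟩ := hC'.elim_nhds_subcover (fun y => π '' K (s y)) (fun y _ => by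
    have := hπ.image_mem_nhds (hKn (s y))
    rwa [hs y] at this)
  refine ⟨⋃ y ∈ t, K (s y), t.isCompact_biUnion fun y _ => hKc _, fun y hy => ?_⟩
  have := ht hy
  simp only [Set.mem_iUnion] at this
  obtain ⟨z, hz, a, ha, hay⟩ := this
  exact ⟨a, Set.mem_biUnion hz ha, hay⟩

theorem lat_step (k : ℕ) : ∀ (A : Type u) [CommGroup A] [TopologicalSpace A] [IsTopologicalGroup A]
    [LocallyCompactSpace A] [T2Space A] (F : Finset A) (N : Finset A) (U : Set A), IsCompact U →
    (∀ x : A, ∃ f ∈ Subgroup.closure (F : Set A), ∃ u ∈ U, f * u = x) →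
    (∀ f ∈ F, f ∉ N → Cp f) → N.card ≤ k →
    ∃ (m : ℕ) (j : Multiplicative (Fin m → ℤ) →* A) (C : Set A), IsLat m j C := by
  classical
  induction k with
  | zero =>
    intro A _ _ _ _ _ F N U hU hFU hF hN
    have hN0 : N = ∅ := Finset.card_eq_zero.1 (Nat.le_zero.1 hN)
    exact lat_zero F U hU hFU (fun f hf => hF f hf (by rw [hN0]; exact Finset.notMem_empty f))
  | succ k ih =>
    intro A _ _ _ _ _ F N U hU hFU hF hN
    by_cases hall : ∀ f ∈ F, Cp f
    · exact lat_zero F U hU hFU hall
    push Not at hall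
    obtain ⟨x, hxF, hx⟩ := hall
    have hxN : x ∈ N := by
      by_contra h
      exact hx (hF x hxF h)
    have hfin : ∀ K : Set A, IsCompact K → {k : ℤ | x ^ k ∈ K}.Finite := by
      intro K hK
      by_contra h
      exact hx (cp_of_infinite hK h)
    have hfin2 : ∀ K : Set A, IsCompact K →
        ((Subgroup.zpowers x : Set A) ∩ K).Finite := by
      intro K hK
      refine ((hfin K hK).image fun k : ℤ => x ^ k).subset ?_
      rintro y ⟨hy, hyK⟩
      obtain ⟨j, rfl⟩ := Subgroup.mem_zpowers_iff.1 hy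
      exact ⟨j, hyK, rfl⟩
    set D := Subgroup.zpowers x with hD
    have hDc : IsClosed (D : Set A) := closed_of_finite D hfin2
    let π : A →* A ⧸ D := QuotientGroup.mk' D
    have hπ : Continuous π := QuotientGroup.continuous_mk
    have hπo : IsOpenMap π := QuotientGroup.isOpenMap_coe
    have hπs : Function.Surjective π := QuotientGroup.mk'_surjective D
    have hcpπ : ∀ f : A, Cp f → Cp (π f) := by
      intro f hf
      have h1 : IsCompact (π '' closure (Subgroup.zpowers f : Set A)) := hf.image hπ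
      refine h1.of_isClosed_subset isClosed_closure ?_
      apply closure_minimal _ h1.isClosed
      intro y hy
      obtain ⟨j, rfl⟩ := Subgroup.mem_zpowers_iff.1 hy
      exact ⟨f ^ j, subset_closure (Subgroup.zpow_mem_zpowers f j), map_zpow π f j⟩
    have hπx : π x = 1 := (QuotientGroup.eq_one_iff x).2 (Subgroup.mem_zpowers _)
    have hcpx : Cp (π x) := by
      show IsCompact (closure _)
      rw [hπx, Subgroup.zpowers_one_eq_bot, Subgroup.coe_bot, isClosed_singleton.closure_eq]
      exact isCompact_singleton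
    obtain ⟨m, j', C', hC', hj', hcov'⟩ := ih (A ⧸ D) (F.image π) ((N.erase x).image π) (π '' U)
      (hU.image hπ) (by
      intro y
      obtain ⟨y, rfl⟩ := hπs y
      obtain ⟨f, hf, v, hv, rfl⟩ := hFU y
      refine ⟨π f, ?_, π v, ⟨v, hv, rfl⟩, (map_mul π f v).symm⟩
      rw [Finset.coe_image, ← MonoidHom.map_closure]
      exact ⟨f, hf, rfl⟩) (by
      intro y hy hyN
      obtain ⟨f, hf, rfl⟩ := Finset.mem_image.1 hy
      by_cases hfx : f = x
      · rw [hfx]
        exact hcpx
      · apply hcpπ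
        apply hF f hf
        intro hfN
        exact hyN (Finset.mem_image_of_mem π (Finset.mem_erase.2 ⟨hfx, hfN⟩))) (by
      refine Finset.card_image_le.trans ?_
      rw [Finset.card_erase_of_mem hxN]
      omega)
    obtain ⟨C, hC, hCC'⟩ := lift_compact π hπo hπs C' hC'
    choose a ha using fun i : Fin m => hπs (j' (Multiplicative.ofAdd (Pi.single i 1)))
    have hprod : ∀ w : Fin m → ℤ, π (∏ i, a i ^ w i) = j' (Multiplicative.ofAdd w) := by
      intro w
      rw [hom_eq j' w, map_prod]
      refine Finset.prod_congr rfl fun i _ => ?_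
      rw [map_zpow, ha i]
    let b : Fin (m + 1) → A := Fin.snoc (α := fun _ => A) a x
    have hj : ∀ z : Fin (m + 1) → ℤ, homZ b (Multiplicative.ofAdd z) =
        (∏ i : Fin m, a i ^ z (Fin.castSucc i)) * x ^ z (Fin.last m) := by
      intro z
      rw [homZ_apply, Fin.prod_univ_castSucc]
      simp only [b, Fin.snoc_castSucc, Fin.snoc_last]
    refine ⟨m + 1, homZ b, C, hC, fun K hK => ?_, fun y => ?_⟩
    · have h1 : {w : Fin m → ℤ | j' (Multiplicative.ofAdd w) ∈ π '' K}.Finite :=
        hj' (π '' K) (hK.image hπ)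
      have h2 : ∀ w : Fin m → ℤ, {k : ℤ | (∏ i, a i ^ w i) * x ^ k ∈ K}.Finite := by
        intro w
        have h3 : IsCompact ((fun y => (∏ i, a i ^ w i)⁻¹ * y) '' K) :=
          hK.image (continuous_const.mul continuous_id)
        refine (hfin _ h3).subset fun k hk => ?_
        exact ⟨_, hk, by simp⟩
      refine (h1.biUnion (t := fun w => (fun k : ℤ => (Fin.snoc (α := fun _ => ℤ) w k : Fin (m + 1) → ℤ)) ''
        {k : ℤ | (∏ i, a i ^ w i) * x ^ k ∈ K}) fun w _ => (h2 w).image _).subset fun z hz => ?_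
      have hz' : (∏ i : Fin m, a i ^ z (Fin.castSucc i)) * x ^ z (Fin.last m) ∈ K := by
        rw [← hj]
        exact hz
      refine Set.mem_biUnion (x := fun i : Fin m => z (Fin.castSucc i)) ?_ ⟨z (Fin.last m), hz', ?_⟩
      · change j' (Multiplicative.ofAdd fun i : Fin m => z (Fin.castSucc i)) ∈ π '' K
        refine ⟨_, hz', ?_⟩
        rw [map_mul, map_zpow, hπx, one_zpow, mul_one, ← hprod]
      · exact Fin.snoc_init_self z
    · obtain ⟨w, c', hc', hwc⟩ := hcov' (π y)
      obtain ⟨c, hc, rfl⟩ := hCC' hc'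
      rw [← hprod w, ← map_mul] at hwc
      have h1 : ((∏ i, a i ^ w i) * c)⁻¹ * y ∈ D := by
        have h2 := QuotientGroup.eq.1 hwc
        exact h2
      obtain ⟨k, hk⟩ := Subgroup.mem_zpowers_iff.1 h1
      refine ⟨Fin.snoc (α := fun _ => ℤ) w k, c, hc, ?_⟩
      rw [hj]
      simp only [Fin.snoc_castSucc, Fin.snoc_last]
      rw [hk, mul_right_comm, mul_inv_cancel_left]

theorem t_Lat : StmLat.{u} := by
  intro X _ _ _ _ _
  classical
  obtain ⟨U0, hU0, hU0n⟩ := exists_compact_mem_nhds (1 : X)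
  set V := U0 ∪ U0⁻¹ with hV
  have hVc : IsCompact V := hU0.union hU0.inv
  have hVn : V ∈ 𝓝 (1 : X) := Filter.mem_of_superset hU0n Set.subset_union_left
  have hVinv : ∀ v ∈ V, v⁻¹ ∈ V := by
    rintro v (hv | hv)
    · exact Or.inr (by simpa using hv)
    · exact Or.inl hv
  have h1V : (1 : X) ∈ V := mem_of_mem_nhds hVn
  set A0 := Subgroup.closure V with hA0
  have hVA : V ⊆ A0 := Subgroup.subset_closure
  have hopen : IsOpen (A0 : Set X) :=
    Subgroup.isOpen_of_mem_nhds A0 (Filter.mem_of_superset hVn hVA)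
  -- the finite set
  obtain ⟨F, hFV, hF⟩ := (hVc.mul hVc).elim_nhds_subcover (fun f => (fun y => f⁻¹ * y) ⁻¹' V)
    (by
      intro f _
      have hc : ContinuousAt (fun y : X => f⁻¹ * y) f := by fun_prop
      apply hc
      simpa using hVn)
  have hFV' : (F : Set X) ⊆ A0 := by
    intro f hf
    obtain ⟨v, hv, w, hw, rfl⟩ := hFV f hf
    exact A0.mul_mem (hVA hv) (hVA hw)
  have hgen : ∀ y ∈ A0, ∃ f ∈ Subgroup.closure (F : Set X), ∃ v ∈ V, f * v = y := by
    intro y hy
    rw [hA0] at hy
    induction hy using Subgroup.closure_induction with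
    | mem v hv => exact ⟨1, one_mem _, v, hv, one_mul v⟩
    | one => exact ⟨1, one_mem _, 1, h1V, one_mul 1⟩
    | mul y z _ _ hy hz =>
      obtain ⟨f, hf, v, hv, rfl⟩ := hy
      obtain ⟨g, hg, w, hw, rfl⟩ := hz
      have h1 := hF (Set.mul_mem_mul hv hw)
      simp only [Set.mem_iUnion] at h1
      obtain ⟨e, heF, he⟩ := h1
      refine ⟨f * g * e, mul_mem (mul_mem hf hg) (Subgroup.subset_closure heF), e⁻¹ * (v * w), he,
        ?_⟩
      rw [mul_assoc, mul_inv_cancel_left, mul_mul_mul_comm]
    | inv y _ hy =>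
      obtain ⟨f, hf, v, hv, rfl⟩ := hy
      exact ⟨f⁻¹, inv_mem hf, v⁻¹, hVinv v hv, by rw [mul_inv]⟩
  have hlc : LocallyCompactSpace A0 := hopen.locallyCompactSpace
  let F0 : Finset A0 := F.preimage Subtype.val Subtype.val_injective.injOn
  have hF0 : Subtype.val '' (F0 : Set A0) = (F : Set X) := by
    rw [Finset.coe_preimage, Set.image_preimage_eq_inter_range, Subtype.range_coe]
    exact Set.inter_eq_left.2 hFV'
  let V0 : Set A0 := Subtype.val ⁻¹' V
  have hV0 : IsCompact V0 := by
    rw [Topology.IsEmbedding.subtypeVal.isCompact_iff, Set.image_preimage_eq_inter_range,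
      Subtype.range_coe]
    have : V ∩ (A0 : Set X) = V := Set.inter_eq_left.2 hVA
    rw [this]
    exact hVc
  refine ⟨A0, hopen, lat_step F0.card A0 F0 F0 V0 hV0 (by
    intro y
    obtain ⟨f, hf, v, hv, hfv⟩ := hgen y y.2
    have h1 : f ∈ (Subgroup.closure (F0 : Set A0)).map A0.subtype := by
      rw [MonoidHom.map_closure]
      have : (A0.subtype : A0 → X) '' (F0 : Set A0) = (F : Set X) := hF0
      rw [this]
      exact hf
    obtain ⟨f0, hf0, hf0f⟩ := h1
    refine ⟨f0, hf0, ⟨v, hVA hv⟩, hv, ?_⟩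
    apply Subtype.ext
    show (f0 : X) * v = y
    rw [← hfv]
    congr 1) (fun f hf hfn => absurd hf hfn) le_rfl⟩

end Pool.Agent.R657.UG
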