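import Mathlib
import Pool.Agent.R657.UG.Defs

/-! # Project UG: basic lemmas on characters and the compact-open topology -/

set_option autoImplicit false

namespace Pool.Agent.R657.UG

open Topology Filter Set

universe u v

lemma nm_nonneg (z : Circle) : 0 ≤ nm z := norm_nonneg _

@[simp] lemma nm_one : nm 1 = 0 := by simp [nm]

lemma nm_eq_zero {z : Circle} : nm z = 0 ↔ z = 1 := by
  rw [nm, norm_eq_zero, sub_eq_zero]
  constructor
  · intro h; exact Circle.ext (by simpa using h)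
  · rintro rfl; simp

lemma nm_mul_le (z w : Circle) : nm (z * w) ≤ nm z + nm w := by
  have h : ((z * w : Circle) : ℂ) - 1 = (z : ℂ) * ((w : ℂ) - 1) + ((z : ℂ) - 1) := by
    rw [Circle.coe_mul]; ring
  rw [nm, h]
  refine (norm_add_le _ _).trans ?_
  rw [norm_mul, Circle.norm_coe, one_mul, nm, nm, add_comm]

@[simp] lemma nm_inv (z : Circle) : nm z⁻¹ = nm z := by
  have h : ((z⁻¹ : Circle) : ℂ) - 1 = -((z⁻¹ : Circle) : ℂ) * ((z : ℂ) - 1) := by
    rw [neg_mul, mul_sub, ← Circle.coe_mul, inv_mul_cancel, Circle.coe_one]; ring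
  rw [nm, h, norm_mul, norm_neg, Circle.norm_coe, one_mul, nm]

lemma nm_div_le (z w : Circle) : nm (z / w) ≤ nm z + nm w := by
  rw [div_eq_mul_inv]
  exact (nm_mul_le _ _).trans (by rw [nm_inv])

lemma nm_sub_le (z w : Circle) : nm z - nm w ≤ nm (z / w) := by
  have := nm_mul_le (z / w) w
  rw [div_mul_cancel] at this
  linarith

lemma nm_pow_le (z : Circle) (k : ℕ) : nm (z ^ k) ≤ k * nm z := by
  induction k with
  | zero => simp
  | succ k ih =>
    rw [pow_succ]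
    refine (nm_mul_le _ _).trans ?_
    push_cast
    linarith

lemma nm_zpow_le (z : Circle) (k : ℤ) : nm (z ^ k) ≤ |(k : ℝ)| * nm z := by
  obtain ⟨n, rfl | rfl⟩ := k.eq_nat_or_neg
  · rw [zpow_natCast]
    refine (nm_pow_le z n).trans (le_of_eq ?_)
    rw [Int.cast_natCast, abs_of_nonneg (Nat.cast_nonneg n)]
  · rw [zpow_neg, nm_inv, zpow_natCast]
    refine (nm_pow_le z n).trans (le_of_eq ?_)
    rw [Int.cast_neg, abs_neg, Int.cast_natCast, abs_of_nonneg (Nat.cast_nonneg n)]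

lemma continuous_nm : Continuous nm := by
  unfold nm; fun_prop

lemma nm_le_two (z : Circle) : nm z ≤ 2 := by
  refine (norm_sub_le _ _).trans ?_
  rw [Circle.norm_coe, norm_one]; norm_num

lemma circle_dist (z w : Circle) : dist z w = ‖(z : ℂ) - (w : ℂ)‖ := by
  show dist (z : ℂ) (w : ℂ) = _
  exact dist_eq_norm _ _

lemma dist_one_eq (z : Circle) : dist z 1 = nm z := by
  rw [circle_dist, nm, Circle.coe_one]

/-- the sets `nm z < ε` form a basis at `1` -/
lemma hasBasis_nm : (𝓝 (1 : Circle)).HasBasis (fun ε : ℝ => 0 < ε) (fun ε => {z | nm z < ε}) := by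
  have h := Metric.nhds_basis_ball (x := (1 : Circle))
  refine h.to_hasBasis (fun ε hε => ⟨ε, hε, fun z hz => ?_⟩) (fun ε hε => ⟨ε, hε, fun z hz => ?_⟩)
  · rw [Metric.mem_ball, dist_one_eq]
    exact hz
  · rw [Metric.mem_ball, dist_one_eq] at hz
    exact hz

lemma nm_lt_mem_nhds {ε : ℝ} (hε : 0 < ε) : {z | nm z < ε} ∈ 𝓝 (1 : Circle) :=
  hasBasis_nm.mem_of_mem hε

lemma nm_sq {z : Circle} (h : nm z ≤ 1) : (3/2 : ℝ) * nm z ≤ nm (z ^ 2) := by
  have e : ((z ^ 2 : Circle) : ℂ) - 1 = ((z : ℂ) - 1) * ((z : ℂ) + 1) := by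
    rw [Circle.coe_pow]; ring
  have h1 : ‖(z : ℂ) + 1‖ ^ 2 + ‖(z : ℂ) - 1‖ ^ 2 = 4 := by
    have := parallelogram_law_with_norm ℝ (z : ℂ) 1
    rw [Circle.norm_coe, norm_one] at this
    nlinarith
  have h2 : (3/2 : ℝ) ≤ ‖(z : ℂ) + 1‖ := by
    have h3 : ‖(z : ℂ) - 1‖ ≤ 1 := h
    nlinarith [norm_nonneg ((z : ℂ) + 1), norm_nonneg ((z : ℂ) - 1)]
  rw [nm, nm, e, norm_mul, mul_comm]
  exact mul_le_mul_of_nonneg_left h2 (norm_nonneg _)

lemma nm_pow_two_pow {z : Circle} (n : ℕ) (h : ∀ k ≤ 2 ^ n, nm (z ^ k) ≤ 1) :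
    (3/2 : ℝ) ^ n * nm z ≤ 1 := by
  have key : ∀ m ≤ n, (3/2 : ℝ) ^ m * nm z ≤ nm (z ^ (2 ^ m)) := by
    intro m
    induction m with
    | zero => intro _; simp
    | succ m ih =>
      intro hm
      have h1 := ih (by omega)
      have h2 := nm_sq (h (2 ^ m) (Nat.pow_le_pow_right (by norm_num) (by omega)))
      rw [← pow_mul, ← pow_succ] at h2
      rw [pow_succ]
      linarith
  exact (key n le_rfl).trans (h _ le_rfl)

/-- no small subgroups, quantitative form -/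
lemma exists_small {ε : ℝ} (hε : 0 < ε) :
    ∃ n : ℕ, ∀ z : Circle, (∀ k ≤ n, nm (z ^ k) ≤ 1) → nm z < ε := by
  obtain ⟨n, hn⟩ := pow_unbounded_of_one_lt (1 / ε) (by norm_num : (1:ℝ) < 3/2)
  refine ⟨2 ^ n, fun z hz => ?_⟩
  have h := nm_pow_two_pow n hz
  have h1 : 0 < (3/2 : ℝ) ^ n := by positivity
  rw [div_lt_iff₀ hε] at hn
  by_contra hcon
  push Not at hcon
  nlinarith

/-- no small subgroups -/
lemma eq_one_of_small {z : Circle} (h : ∀ k : ℕ, nm (z ^ k) ≤ 1) : z = 1 := by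
  rw [← nm_eq_zero]
  by_contra hne
  have hpos : 0 < nm z := lt_of_le_of_ne (nm_nonneg z) (Ne.symm hne)
  obtain ⟨n, hn⟩ := exists_small hpos
  exact lt_irrefl _ (hn z fun k _ => h k)

/-- in a topological group every neighbourhood of `1` contains the first `n` powers of the elements of a
smaller one -/
lemma exists_nhds_pow {S : Type*} [Group S] [TopologicalSpace S] [IsTopologicalGroup S]
    {U : Set S} (hU : U ∈ 𝓝 (1 : S)) (n : ℕ) :
    ∃ V ∈ 𝓝 (1 : S), ∀ x ∈ V, ∀ k ≤ n, x ^ k ∈ U := by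
  refine ⟨⋂ k ∈ Finset.range (n + 1), (fun x : S => x ^ k) ⁻¹' U, ?_, ?_⟩
  · rw [Filter.biInter_finset_mem]
    intro k _
    have hc : ContinuousAt (fun x : S => x ^ k) 1 := (continuous_pow k).continuousAt
    apply hc
    simpa using hU
  · intro x hx k hk
    simp only [mem_iInter, Finset.mem_range] at hx
    exact hx k (by omega)

/-- a homomorphism to the circle which is small near `1` is continuous -/
theorem continuous_of_small {S : Type*} [Group S] [TopologicalSpace S] [IsTopologicalGroup S]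
    (φ : S →* Circle) {U : Set S} (hU : U ∈ 𝓝 (1 : S)) (h : ∀ u ∈ U, nm (φ u) ≤ 1) :
    Continuous φ := by
  apply continuous_of_continuousAt_one φ
  rw [ContinuousAt, map_one, hasBasis_nm.tendsto_right_iff]
  intro ε hε
  obtain ⟨n, hn⟩ := exists_small hε
  obtain ⟨V, hV, hVU⟩ := exists_nhds_pow hU n
  filter_upwards [hV] with x hx
  apply hn
  intro k hk
  rw [← map_pow]
  exact h _ (hVU x hx k hk)

section dual

variable {G : Type u} [CommGroup G] [TopologicalSpace G]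

lemma dist_eq_nm (z w : Circle) : dist z w = nm (z / w) := by
  have h : ((z / w : Circle) : ℂ) - 1 = (z - w : ℂ) * ((w⁻¹ : Circle) : ℂ) := by
    rw [sub_mul, ← Circle.coe_mul, ← Circle.coe_mul, mul_inv_cancel, div_eq_mul_inv, Circle.coe_one]
  rw [nm, h, norm_mul, Circle.norm_coe, mul_one, circle_dist]

/-- neighbourhoods of `1` in the dual group -/
theorem mem_nhds_dual {s : Set (G →ₜ* Circle)} :
    s ∈ 𝓝 (1 : G →ₜ* Circle) ↔ ∃ C : Set G, IsCompact C ∧ ∃ ε : ℝ, 0 < ε ∧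
      {χ : G →ₜ* Circle | ∀ c ∈ C, nm (χ c) ≤ ε} ⊆ s := by
  have hi := ContinuousMonoidHom.isInducing_toContinuousMap G Circle
  have hb : (𝓝 ((1 : G →ₜ* Circle).toContinuousMap)).HasBasis
      (fun p : Set G × ℝ => IsCompact p.1 ∧ 0 < p.2) _ :=
    nhds_basis_uniformity (Metric.uniformity_basis_dist.compactConvergenceUniformity)
  rw [hi.nhds_eq_comap, (hb.comap _).mem_iff]
  constructor
  · rintro ⟨⟨C, ε⟩, ⟨hC, hε⟩, h⟩
    refine ⟨C, hC, ε / 2, half_pos hε, fun χ hχ => h ?_⟩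
    intro c hc
    show dist (χ c) ((1 : G →ₜ* Circle) c) < ε
    rw [dist_eq_nm]
    have e : χ c / (1 : G →ₜ* Circle) c = χ c := by
      show χ c / 1 = χ c
      rw [div_one]
    rw [e]
    have := hχ c hc
    have hε' : 0 < ε := hε
    linarith
  · rintro ⟨C, hC, ε, hε, h⟩
    refine ⟨⟨C, ε⟩, ⟨hC, hε⟩, fun χ hχ => h ?_⟩
    intro c hc
    have h1 : dist (χ c) ((1 : G →ₜ* Circle) c) < ε := hχ c hc
    rw [dist_eq_nm] at h1
    have e : χ c / (1 : G →ₜ* Circle) c = χ c := by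
      show χ c / 1 = χ c
      rw [div_one]
    rw [e] at h1
    exact h1.le

lemma dual_nhds_mem (C : Set G) (hC : IsCompact C) {ε : ℝ} (hε : 0 < ε) :
    {χ : G →ₜ* Circle | ∀ c ∈ C, nm (χ c) ≤ ε} ∈ 𝓝 (1 : G →ₜ* Circle) :=
  mem_nhds_dual.2 ⟨C, hC, ε, hε, subset_rfl⟩

/-- continuity of homomorphisms on the dual group -/
theorem exists_of_continuous (ξ : (G →ₜ* Circle) →ₜ* Circle) {ε : ℝ} (hε : 0 < ε) :
    ∃ C : Set G, IsCompact C ∧ ∃ δ : ℝ, 0 < δ ∧
      ∀ χ : G →ₜ* Circle, (∀ c ∈ C, nm (χ c) ≤ δ) → nm (ξ χ) < ε := by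
  have h : {χ : G →ₜ* Circle | nm (ξ χ) < ε} ∈ 𝓝 (1 : G →ₜ* Circle) := by
    have hc : ContinuousAt (fun χ : G →ₜ* Circle => ξ χ) 1 := ξ.continuous_toFun.continuousAt
    have := hc.preimage_mem_nhds (t := {z | nm z < ε}) (by
      rw [map_one]
      exact nm_lt_mem_nhds hε)
    exact this
  obtain ⟨C, hC, δ, hδ, h2⟩ := mem_nhds_dual.1 h
  exact ⟨C, hC, δ, hδ, fun χ hχ => h2 hχ⟩

/-- the polar of a neighbourhood of `1` is compact in the dual group -/
theorem isCompact_polar [IsTopologicalGroup G] {U : Set G} (hU : U ∈ 𝓝 (1 : G)) :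
    IsCompact {χ : G →ₜ* Circle | ∀ u ∈ U, nm (χ u) ≤ 1} := by
  let S1 : Set (G →* Circle) := {f | ∀ u ∈ U, nm (f u) ≤ 1}
  let S2 : Set (G →ₜ* Circle) := {f | ∀ u ∈ U, nm (f u) ≤ 1}
  let S3 : Set C(G, Circle) := (↑) '' S2
  let S4 : Set (G → Circle) := (↑) '' S3
  have h0 : EquicontinuousAt (fun f : S1 => ((f : G →* Circle) : G → Circle)) 1 := by
    rw [hasBasis_nm.uniformity_of_nhds_one.equicontinuousAt_iff_right]
    intro ε hε
    obtain ⟨n, hn⟩ := exists_small hε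
    obtain ⟨V, hV, hVU⟩ := exists_nhds_pow hU n
    filter_upwards [hV] with x hx
    rintro ⟨f, hf⟩
    show nm (f x / f 1) < ε
    rw [map_one, div_one]
    apply hn
    intro k hk
    rw [← map_pow]
    exact hf _ (hVU x hx k hk)
  have h : Equicontinuous (fun f : S1 => ((f : G →* Circle) : G → Circle)) :=
    equicontinuous_of_equicontinuousAt_one _ h0
  have hS4 : S4 = (fun f : G →* Circle => (f : G → Circle)) '' S1 := by
    ext g
    constructor
    · rintro ⟨-, ⟨f, hf, rfl⟩, rfl⟩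
      exact ⟨f, hf, rfl⟩
    · rintro ⟨f, hf, rfl⟩
      exact ⟨⟨f, h.continuous ⟨f, hf⟩⟩, ⟨⟨f, h.continuous ⟨f, hf⟩⟩, hf, rfl⟩, rfl⟩
  have h3 : Equicontinuous ((↑) : S3 → G → Circle) := by
    rw [equicontinuous_iff_range, ← Set.image_eq_range] at h ⊢
    have : S4 = (fun f : C(G, Circle) => (f : G → Circle)) '' S3 := rfl
    rw [← this, hS4]
    exact h
  have hS4c : IsClosed S4 := by
    have : S4 = {g : G → Circle | ∀ u ∈ U, nm (g u) ≤ 1} ∩
        Set.range (fun f : G →* Circle => (f : G → Circle)) := by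
      rw [hS4]
      ext g
      constructor
      · rintro ⟨f, hf, rfl⟩
        exact ⟨hf, f, rfl⟩
      · rintro ⟨hg, f, rfl⟩
        exact ⟨f, hg, rfl⟩
    rw [this]
    refine IsClosed.inter ?_ (MonoidHom.isClosed_range_coe G Circle)
    have e : {g : G → Circle | ∀ u ∈ U, nm (g u) ≤ 1} = ⋂ u ∈ U, {g : G → Circle | nm (g u) ≤ 1} := by
      ext g; simp
    rw [e]
    exact isClosed_biInter fun u _ =>
      isClosed_le (continuous_nm.comp (continuous_apply u)) continuous_const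
  exact (ContinuousMonoidHom.isInducing_toContinuousMap G Circle).isCompact_iff.mpr
    (ArzelaAscoli.isCompact_of_equicontinuous S3 hS4c.isCompact h3)

/-- evaluation at `g` -/
noncomputable def evC (g : G) : (G →ₜ* Circle) →ₜ* Circle where
  toFun χ := χ g
  map_one' := rfl
  map_mul' _ _ := rfl
  continuous_toFun := continuous_eval_const g

@[simp] lemma evC_apply (g : G) (χ : G →ₜ* Circle) : evC g χ = χ g := rfl

/-- the evaluation homomorphism -/
noncomputable def evHom (G : Type u) [CommGroup G] [TopologicalSpace G] : G →* ((G →ₜ* Circle) →ₜ* Circle) where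
  toFun g := evC g
  map_one' := by ext χ; simp
  map_mul' x y := by ext χ; simp

@[simp] lemma evHom_apply (g : G) (χ : G →ₜ* Circle) : evHom G g χ = χ g := rfl

/-- a compact set of characters is equicontinuous along null sequences -/
theorem seq_equi {Q : Set (G →ₜ* Circle)} (hQ : IsCompact Q) {f : ℕ → G}
    (hf : Tendsto f atTop (𝓝 1)) {ε : ℝ} (hε : 0 < ε) :
    ∀ᶠ n in atTop, ∀ χ ∈ Q, nm (χ (f n)) ≤ ε := by
  have hC : IsCompact (insert 1 (range f)) := hf.isCompact_insert_range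
  set C : Set G := insert 1 (range f) with hCdef
  have : CompactSpace C := isCompact_iff_compactSpace.1 hC
  -- restriction to C
  let R : (G →ₜ* Circle) → C(C, Circle) := fun χ => χ.toContinuousMap.restrict C
  have hR : Continuous R :=
    (ContinuousMap.continuous_restrict C).comp
      (ContinuousMonoidHom.isInducing_toContinuousMap G Circle).continuous
  have hE : Continuous fun p : (G →ₜ* Circle) × C => (R p.1) p.2 := by
    have : Continuous fun p : C(C, Circle) × C => p.1 p.2 := ContinuousEval.continuous_eval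
    exact this.comp ((hR.comp continuous_fst).prodMk continuous_snd)
  let one' : C := ⟨1, mem_insert _ _⟩
  have hO : IsOpen {p : (G →ₜ* Circle) × C | nm ((R p.1) p.2) < ε} :=
    isOpen_lt (continuous_nm.comp hE) continuous_const
  have hsub : Q ×ˢ {one'} ⊆ {p : (G →ₜ* Circle) × C | nm ((R p.1) p.2) < ε} := by
    rintro ⟨χ, c⟩ ⟨_, hc⟩
    rw [mem_singleton_iff] at hc
    simp only at hc
    subst hc
    show nm (χ 1) < ε
    rw [map_one, nm_one]
    exact hε
  obtain ⟨A, B, hA, hB, hQA, h1B, hAB⟩ := generalized_tube_lemma hQ isCompact_singleton hO hsub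
  have h1B' : one' ∈ B := h1B rfl
  obtain ⟨B', hB'o, hB'⟩ := isOpen_induced_iff.1 hB
  have h2 : ∀ᶠ n in atTop, f n ∈ B' := by
    apply hf
    apply hB'o.mem_nhds
    have : one' ∈ Subtype.val ⁻¹' B' := by rw [hB']; exact h1B'
    exact this
  filter_upwards [h2] with n hn χ hχ
  have h3 : (⟨f n, mem_insert_of_mem _ (mem_range_self n)⟩ : C) ∈ B := by
    rw [← hB']
    exact hn
  have h4 := hAB (mk_mem_prod (hQA hχ) h3)
  exact le_of_lt h4

/-- on a locally compact group a compact set of characters is equicontinuous -/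
theorem lc_equi [LocallyCompactSpace G] {Q : Set (G →ₜ* Circle)} (hQ : IsCompact Q) {ε : ℝ}
    (hε : 0 < ε) : {x : G | ∀ χ ∈ Q, nm (χ x) ≤ ε} ∈ 𝓝 (1 : G) := by
  have hE : Continuous fun p : (G →ₜ* Circle) × G => p.1 p.2 := ContinuousEval.continuous_eval
  have hO : IsOpen {p : (G →ₜ* Circle) × G | nm (p.1 p.2) < ε} :=
    isOpen_lt (continuous_nm.comp hE) continuous_const
  have hsub : Q ×ˢ {(1 : G)} ⊆ {p : (G →ₜ* Circle) × G | nm (p.1 p.2) < ε} := by
    rintro ⟨χ, c⟩ ⟨_, hc⟩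
    rw [mem_singleton_iff] at hc
    simp only at hc
    subst hc
    show nm (χ 1) < ε
    rw [map_one, nm_one]
    exact hε
  obtain ⟨A, B, hA, hB, hQA, h1B, hAB⟩ := generalized_tube_lemma hQ isCompact_singleton hO hsub
  filter_upwards [hB.mem_nhds (h1B rfl)] with x hx χ hχ
  exact le_of_lt (hAB (mk_mem_prod (hQA hχ) hx))

/-- assembling reflexivity -/
theorem reflexive_of [IsTopologicalGroup G] (hinj : ∀ g : G, (∀ χ : G →ₜ* Circle, χ g = 1) → g = 1)
    (hsurj : SurjEv G)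
    (hcont : ∀ Q : Set (G →ₜ* Circle), IsCompact Q → ∀ ε : ℝ, 0 < ε →
      {x : G | ∀ χ ∈ Q, nm (χ x) ≤ ε} ∈ 𝓝 (1 : G))
    (hopen : ∀ U ∈ 𝓝 (1 : G), ∃ Q : Set (G →ₜ* Circle), IsCompact Q ∧ ∃ ε : ℝ, 0 < ε ∧
      {x : G | ∀ χ ∈ Q, nm (χ x) ≤ ε} ⊆ U) : Reflexive G := by
  have hc : Continuous (evHom G) := by
    apply continuous_of_continuousAt_one (evHom G)
    rw [ContinuousAt, map_one]
    intro s hs
    obtain ⟨Q, hQ, ε, hε, h⟩ := mem_nhds_dual.1 hs
    exact Filter.mem_of_superset (hcont Q hQ ε hε) fun x hx => h hx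
  have hb : Function.Bijective (evHom G) := by
    refine ⟨?_, ?_⟩
    · rw [injective_iff_map_eq_one]
      intro g hg
      apply hinj
      intro χ
      rw [← evHom_apply, hg]
      rfl
    · intro ξ
      obtain ⟨g, hg⟩ := hsurj ξ
      refine ⟨g, ?_⟩
      ext χ
      rw [evHom_apply, hg]
  let e : G ≃* ((G →ₜ* Circle) →ₜ* Circle) := MulEquiv.ofBijective (evHom G) hb
  have hc2 : Continuous e.symm := by
    apply continuous_of_continuousAt_one e.symm
    rw [ContinuousAt, map_one]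
    intro U hU
    obtain ⟨Q, hQ, ε, hε, h⟩ := hopen U hU
    rw [Filter.mem_map]
    refine Filter.mem_of_superset (dual_nhds_mem Q hQ hε) fun ξ hξ => ?_
    show e.symm ξ ∈ U
    apply h
    intro χ hχ
    have : χ (e.symm ξ) = ξ χ := by
      have h1 : e (e.symm ξ) = ξ := e.apply_symm_apply ξ
      conv_rhs => rw [← h1]
      rfl
    rw [this]
    exact hξ χ hχ
  exact ⟨{ e with continuous_toFun := hc, continuous_invFun := hc2 }, fun g χ => rfl⟩

theorem Reflexive.surjEv (h : Reflexive G) : SurjEv G := by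
  obtain ⟨e, he⟩ := h
  intro ξ
  refine ⟨e.symm ξ, fun χ => ?_⟩
  rw [← he, e.apply_symm_apply]

theorem Reflexive.inj (h : Reflexive G) (g : G) (hg : ∀ χ : G →ₜ* Circle, χ g = 1) : g = 1 := by
  obtain ⟨e, he⟩ := h
  apply e.injective
  rw [map_one]
  ext χ
  rw [he, hg]
  rfl

theorem Reflexive.cont (h : Reflexive G) (Q : Set (G →ₜ* Circle)) (hQ : IsCompact Q) {ε : ℝ}
    (hε : 0 < ε) : {x : G | ∀ χ ∈ Q, nm (χ x) ≤ ε} ∈ 𝓝 (1 : G) := by
  obtain ⟨e, he⟩ := h
  have h1 : {ξ : (G →ₜ* Circle) →ₜ* Circle | ∀ χ ∈ Q, nm (ξ χ) ≤ ε} ∈ 𝓝 (e 1) := by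
    rw [map_one]
    exact dual_nhds_mem Q hQ hε
  have h2 := e.continuous_toFun.continuousAt.preimage_mem_nhds (x := (1 : G)) h1
  refine Filter.mem_of_superset h2 fun x hx χ hχ => ?_
  rw [← he]
  exact hx χ hχ

theorem Reflexive.openB (h : Reflexive G) {U : Set G} (hU : U ∈ 𝓝 (1 : G)) :
    ∃ Q : Set (G →ₜ* Circle), IsCompact Q ∧ ∃ ε : ℝ, 0 < ε ∧
      {x : G | ∀ χ ∈ Q, nm (χ x) ≤ ε} ⊆ U := by
  obtain ⟨e, he⟩ := h
  have h1 : e.symm ⁻¹' U ∈ 𝓝 (1 : (G →ₜ* Circle) →ₜ* Circle) := by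
    apply e.continuous_invFun.continuousAt.preimage_mem_nhds
    show U ∈ 𝓝 (e.symm 1)
    rw [map_one]
    exact hU
  obtain ⟨Q, hQ, ε, hε, h2⟩ := mem_nhds_dual.1 h1
  refine ⟨Q, hQ, ε, hε, fun x hx => ?_⟩
  have h3 : e x ∈ e.symm ⁻¹' U := by
    apply h2
    intro χ hχ
    rw [he]
    exact hx χ hχ
  have h4 : e.symm (e x) ∈ U := h3
  rwa [e.symm_apply_apply] at h4

end dual

end Pool.Agent.R657.UG
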