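import Pool.Agent.R657.UG.A

/-! # UG-C: averaging over the compact quotient -/

set_option autoImplicit false

namespace Pool.Agent.R657.UG

open Topology Filter Set MeasureTheory
open scoped Pointwise

universe u v

namespace CC

/-- mean value on a compact group -/
theorem mean (B : Type u) [CommGroup B] [TopologicalSpace B] [IsTopologicalGroup B]
    [CompactSpace B] : ∃ M : C(B, ℝ) → ℝ, Continuous M ∧ (∀ f g, M (f + g) = M f + M g) ∧
      (∀ c : ℝ, M (ContinuousMap.const B c) = c) ∧
      ∀ (f : C(B, ℝ)) (b : B), M (f.comp (ContinuousMap.mulLeft b)) = M f := by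
  letI : MeasurableSpace B := borel B
  haveI : BorelSpace B := ⟨rfl⟩
  obtain ⟨μ, hμ1, hμ2⟩ := A.exists_haar B
  have hint : ∀ f : C(B, ℝ), Integrable f μ := fun f =>
    f.continuous.integrable_of_hasCompactSupport (HasCompactSupport.of_compactSpace f)
  refine ⟨fun f => ∫ x, f x ∂μ, ?_, ?_, ?_, ?_⟩
  · have hL : LipschitzWith 1 (fun f : C(B, ℝ) => ∫ x, f x ∂μ) := by
      apply LipschitzWith.of_dist_le_mul
      intro f g
      rw [Real.dist_eq, ← integral_sub (hint f) (hint g), NNReal.coe_one, one_mul, dist_eq_norm,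
        ← Real.norm_eq_abs]
      refine (norm_integral_le_of_norm_le_const (C := ‖f - g‖)
        (Filter.Eventually.of_forall fun x => ?_)).trans ?_
      · exact ContinuousMap.norm_coe_le_norm (f - g) x
      · simp
    exact hL.continuous
  · intro f g
    simp only [ContinuousMap.add_apply]
    exact integral_add (hint f) (hint g)
  · intro c
    simp
  · intro f b
    exact integral_mul_left_eq_self (μ := μ) (fun x => f x) b

end CC

theorem t_Avg : StmAvg.{u} := by
  classical
  intro A _ _ _ _ _ m j C hlat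
  obtain ⟨hC, hfin, hrep⟩ := hlat
  obtain ⟨β, hβ1, -, hβc, hβ01⟩ :=
    exists_continuous_one_zero_of_isCompact hC isClosed_empty (Set.disjoint_empty C)
  let J : (Fin m → ℤ) → A := fun z => j (Multiplicative.ofAdd z)
  have hJadd : ∀ z w, J (z + w) = J z * J w := fun z w => by
    show j (Multiplicative.ofAdd (z + w)) = _
    rw [ofAdd_add, map_mul]
  have hlf : ∀ x : A, ∃ t ∈ 𝓝 x, {z | ∃ y ∈ t, β (y * (J z)⁻¹) ≠ 0}.Finite := by
    intro x
    obtain ⟨K, hK, hxK⟩ := exists_compact_mem_nhds x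
    refine ⟨K, hxK, (hfin (K * (tsupport β)⁻¹) (hK.mul hβc.isCompact.inv)).subset ?_⟩
    rintro z ⟨y, hy, hz⟩
    refine Set.mem_mul.2 ⟨y, hy, (y * (J z)⁻¹)⁻¹, ?_, ?_⟩
    · exact Set.inv_mem_inv.2 (subset_tsupport _ hz)
    · rw [mul_inv_rev, inv_inv, mul_comm (J z), mul_inv_cancel_left]
  let W : ((Fin m → ℤ) → ℝ) → A → ℝ := fun c x => ∑ᶠ z, β (x * (J z)⁻¹) * c z
  have hsup : ∀ (c : (Fin m → ℤ) → ℝ) (x : A),
      Function.HasFiniteSupport (fun z => β (x * (J z)⁻¹) * c z) := by
    intro c x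
    obtain ⟨t, ht, hf⟩ := hlf x
    refine hf.subset ?_
    intro z hz
    exact ⟨x, mem_of_mem_nhds ht, left_ne_zero_of_mul hz⟩
  have hWc : ∀ c, Continuous (W c) := by
    intro c
    apply continuous_finsum
    · intro z
      exact (β.continuous.comp (continuous_mul_const _)).mul_const _
    · intro x
      obtain ⟨t, ht, hf⟩ := hlf x
      refine ⟨t, ht, hf.subset ?_⟩
      rintro z ⟨y, hy1, hy2⟩
      exact ⟨y, hy2, left_ne_zero_of_mul hy1⟩
  have hshift : ∀ c x w, W c (x * J w) = W (fun z => c (z + w)) x := by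
    intro c x w
    show ∑ᶠ z, β (x * J w * (J z)⁻¹) * c z = ∑ᶠ z, β (x * (J z)⁻¹) * c (z + w)
    rw [← finsum_comp_equiv (Equiv.addRight w)]
    apply finsum_congr
    intro z
    rw [Equiv.coe_addRight, hJadd, mul_inv_rev, mul_assoc, ← mul_assoc (J w), mul_inv_cancel,
      one_mul]
  have hWadd : ∀ c d x, W (fun z => c z + d z) x = W c x + W d x := by
    intro c d x
    show ∑ᶠ z, β (x * (J z)⁻¹) * (c z + d z) = _
    rw [← finsum_add_distrib (hsup c x) (hsup d x)]
    apply finsum_congr
    intro z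
    ring
  have hWsmul : ∀ (c : (Fin m → ℤ) → ℝ) (a : ℝ) x, W (fun z => c z * a) x = W c x * a := by
    intro c a x
    show ∑ᶠ z, β (x * (J z)⁻¹) * (c z * a) = (∑ᶠ z, β (x * (J z)⁻¹) * c z) * a
    rw [finsum_mul' _ _ (hsup c x)]
    apply finsum_congr
    intro z
    ring
  have hspos : ∀ x, 0 < W (fun _ => 1) x := by
    intro x
    obtain ⟨z, c, hc, hx⟩ := hrep x
    have h1 : β (x * (J z)⁻¹) * 1 ≤ W (fun _ => 1) x := by
      apply single_le_finsum z (hsup _ x)
      intro w
      have := (hβ01 (x * (J w)⁻¹)).1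
      simpa using this
    have h2 : x * (J z)⁻¹ = c := by
      rw [← hx]
      show J z * c * (J z)⁻¹ = c
      rw [mul_comm (J z), mul_inv_cancel_right]
    rw [h2, hβ1 hc] at h1
    have : (0 : ℝ) < 1 := one_pos
    simp only [Pi.one_apply] at h1
    linarith
  -- the functions `f i`
  let f : Fin m → A → ℝ := fun i x => W (fun z => (z i : ℝ)) x / W (fun _ => 1) x
  have hfc : ∀ i, Continuous (f i) := fun i => (hWc _).div (hWc _) (fun x => (hspos x).ne')
  have hfs : ∀ i x w, f i (x * J w) = f i x + w i := by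
    intro i x w
    show W (fun z => (z i : ℝ)) (x * J w) / W (fun _ => 1) (x * J w) = _
    rw [hshift, hshift]
    have e1 : W (fun z => ((z + w) i : ℝ)) x = W (fun z => (z i : ℝ)) x + W (fun _ => 1) x * w i := by
      rw [← hWsmul, ← hWadd]
      congr 1
      funext z
      simp
    rw [e1, add_div, mul_comm (W (fun _ => 1) x), mul_div_cancel_right₀ _ (hspos x).ne']
  -- the quotient
  let Γ : Subgroup A := j.range
  have hΓ : ∀ g ∈ Γ, ∃ w, g = J w := by
    rintro g ⟨z, rfl⟩
    exact ⟨Multiplicative.toAdd z, rfl⟩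
  haveI : CompactSpace (A ⧸ Γ) := by
    rw [← isCompact_univ_iff]
    have : (Set.univ : Set (A ⧸ Γ)) = (QuotientGroup.mk : A → A ⧸ Γ) '' C := by
      apply Set.Subset.antisymm _ (Set.subset_univ _)
      intro b _
      obtain ⟨x, rfl⟩ := QuotientGroup.mk_surjective b
      obtain ⟨z, c, hc, hx⟩ := hrep x
      refine ⟨c, hc, ?_⟩
      rw [QuotientGroup.eq]
      refine ⟨Multiplicative.ofAdd z, ?_⟩
      rw [← hx, mul_comm _ c, inv_mul_cancel_left]
    rw [this]
    exact hC.image QuotientGroup.continuous_mk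
  obtain ⟨M, hMc, hMadd, hMconst, hMinv⟩ := CC.mean (A ⧸ Γ)
  -- the difference functions
  let D : Fin m → A × (A ⧸ Γ) → ℝ := fun i p =>
    Quotient.liftOn' p.2 (fun t => f i (t * p.1) - f i t) (by
      intro s t hst
      rw [QuotientGroup.leftRel_apply] at hst
      obtain ⟨w, hw⟩ := hΓ _ hst
      have ht : t = s * J w := by rw [← hw, mul_inv_cancel_left]
      show f i (s * p.1) - f i s = f i (t * p.1) - f i t
      have e : s * J w * p.1 = s * p.1 * J w := by
        rw [mul_assoc, mul_comm (J w), ← mul_assoc]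
      rw [ht, e, hfs, hfs]
      ring)
  have hD : ∀ i a t, D i (a, (QuotientGroup.mk t : A ⧸ Γ)) = f i (t * a) - f i t :=
    fun i a t => rfl
  have hDc : ∀ i, Continuous (D i) := by
    intro i
    rw [← ((IsOpenQuotientMap.id (X := A)).prodMap
      (QuotientGroup.isOpenQuotientMap_mk (N := Γ))).continuous_comp_iff]
    show Continuous (fun p : A × A => f i (p.2 * p.1) - f i p.2)
    exact ((hfc i).comp (by fun_prop)).sub ((hfc i).comp continuous_snd)
  let g : Fin m → C(A, C(A ⧸ Γ, ℝ)) := fun i => ContinuousMap.curry ⟨D i, hDc i⟩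
  have hg : ∀ i a b, g i a b = D i (a, b) := fun i a b => rfl
  let π : A → Fin m → ℝ := fun a i => M (g i a)
  have hπc : Continuous π := by
    apply continuous_pi
    intro i
    exact hMc.comp (g i).continuous
  have hπadd : ∀ x y, π (x * y) = π x + π y := by
    intro x y
    funext i
    show M (g i (x * y)) = M (g i x) + M (g i y)
    have e : g i (x * y) = (g i x).comp (ContinuousMap.mulLeft (QuotientGroup.mk y : A ⧸ Γ))
        + g i y := by
      ext b
      obtain ⟨t, rfl⟩ := QuotientGroup.mk_surjective b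
      have e0 : (ContinuousMap.mulLeft (QuotientGroup.mk y : A ⧸ Γ)) (QuotientGroup.mk t) =
        (QuotientGroup.mk (y * t) : A ⧸ Γ) := rfl
      rw [ContinuousMap.add_apply, ContinuousMap.comp_apply, hg, hg, hg, e0, hD, hD, hD]
      have e1 : y * t * x = t * (x * y) := by
        rw [mul_comm y t, mul_assoc, mul_comm y x]
      rw [e1, mul_comm y t]
      ring
    rw [e, hMadd, hMinv]
  have hπj : ∀ z i, π (J z) i = (z i : ℝ) := by
    intro z i
    show M (g i (J z)) = _
    have e : g i (J z) = ContinuousMap.const _ (z i : ℝ) := by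
      ext b
      obtain ⟨t, rfl⟩ := QuotientGroup.mk_surjective b
      rw [hg, hD, hfs, ContinuousMap.const_apply]
      ring
    rw [e, hMconst]
  refine ⟨π, hπc, hπadd, hπj, ?_⟩
  intro r
  -- properness
  obtain ⟨R, hR⟩ : ∃ R : ℝ, ∀ c ∈ C, ∀ i, |π c i| ≤ R := by
    obtain ⟨R, hR⟩ := (hC.image hπc).isBounded.exists_norm_le
    refine ⟨R, fun c hc i => ?_⟩
    have h1 := hR _ ⟨c, hc, rfl⟩
    have h2 := norm_le_pi_norm (π c) i
    rw [Real.norm_eq_abs] at h2
    exact h2.trans h1
  have hfinz : {z : Fin m → ℤ | ∀ i, |(z i : ℝ)| ≤ r + R}.Finite := by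
    refine (Set.finite_Icc (fun _ => -⌈r + R⌉ : Fin m → ℤ) (fun _ => ⌈r + R⌉)).subset ?_
    intro z hz
    constructor
    · intro i
      have h1 := (abs_le.1 (hz i)).1
      have h2 := Int.le_ceil (r + R)
      have h3 : (-(⌈r + R⌉ : ℝ)) ≤ z i := by linarith
      exact_mod_cast h3
    · intro i
      have h1 := (abs_le.1 (hz i)).2
      have h2 := Int.le_ceil (r + R)
      have h3 : (z i : ℝ) ≤ ⌈r + R⌉ := by linarith
      exact_mod_cast h3
  have hcomp : IsCompact (⋃ z ∈ {z : Fin m → ℤ | ∀ i, |(z i : ℝ)| ≤ r + R}, (fun x => J z * x) '' C) :=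
    hfinz.isCompact_biUnion fun z _ => hC.image (continuous_const_mul _)
  refine hcomp.of_isClosed_subset ?_ ?_
  · have : {x : A | ∀ i, |π x i| ≤ r} = ⋂ i, {x : A | |π x i| ≤ r} := by
      ext x; simp
    rw [this]
    apply isClosed_iInter
    intro i
    exact isClosed_le (((continuous_apply i).comp hπc).abs) continuous_const
  · intro x hx
    obtain ⟨z, c, hc, hxc⟩ := hrep x
    refine Set.mem_iUnion₂.2 ⟨z, ?_, c, hc, hxc⟩
    intro i
    have h1 : π x i = z i + π c i := by
      rw [← hxc]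
      show π (J z * c) i = _
      rw [hπadd, Pi.add_apply, hπj]
    have h2 := hx i
    have h3 := hR c hc i
    have h4 : (z i : ℝ) = π x i - π c i := by linarith
    rw [h4]
    calc |π x i - π c i| ≤ |π x i| + |π c i| := abs_sub _ _
      _ ≤ r + R := add_le_add h2 h3

end Pool.Agent.R657.UG
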