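import Pool.Agent.R657.UG.Defs
import Pool.Agent.R746.LCAChars

/-! # UG-D: LCA groups with a lattice are reflexive -/

set_option autoImplicit false

namespace Pool.Agent.R657.UG.D

open Topology Filter Set Pool.Agent.R657.UG

universe u v

/-! ### elementary facts (local to this file) -/

lemma nm_nonneg (z : Circle) : 0 ≤ nm z := norm_nonneg _

lemma nm_eq_zero {z : Circle} : nm z = 0 ↔ z = 1 := by
  unfold nm
  rw [norm_eq_zero, sub_eq_zero]
  constructor
  · intro h; exact Subtype.ext h
  · intro h; rw [h]; rfl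

lemma continuous_nm : Continuous nm := by
  unfold nm
  fun_prop

lemma d_nm_pow {z : Circle} (h : ∀ n : ℕ, nm (z ^ n) ≤ 1) : z = 1 := by
  have h2 : ∀ w : Circle, nm w ≤ 1 → 3/2 * nm w ≤ nm (w ^ 2) := by
    intro w hw
    have e1 : nm (w ^ 2) = nm w * ‖(w : ℂ) + 1‖ := by
      unfold nm
      rw [← norm_mul]
      congr 1
      rw [Circle.coe_pow]
      ring
    have e2 : ‖(w : ℂ) + 1‖ ^ 2 + ‖(w : ℂ) - 1‖ ^ 2 = 4 := by
      have := parallelogram_law_with_norm ℝ (w : ℂ) 1
      rw [this, Circle.norm_coe]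
      norm_num
    have hw' : ‖(w : ℂ) - 1‖ ≤ 1 := hw
    have e3 : 3/2 ≤ ‖(w : ℂ) + 1‖ := by
      nlinarith [norm_nonneg ((w : ℂ) + 1), norm_nonneg ((w : ℂ) - 1)]
    rw [e1]
    nlinarith [nm_nonneg w]
  have h3 : ∀ k : ℕ, (3/2 : ℝ)^k * nm z ≤ nm (z ^ (2^k)) := by
    intro k
    induction k with
    | zero => simp
    | succ k ih =>
      have := h2 (z ^ (2^k)) (h _)
      rw [← pow_mul, ← pow_succ] at this
      calc (3/2 : ℝ)^(k+1) * nm z = 3/2 * ((3/2)^k * nm z) := by ring
        _ ≤ 3/2 * nm (z^(2^k)) := by gcongr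
        _ ≤ _ := this
  by_contra hne
  have hpos : 0 < nm z := lt_of_le_of_ne (nm_nonneg z) (fun h0 => hne (nm_eq_zero.1 h0.symm))
  obtain ⟨k, hk⟩ := pow_unbounded_of_one_lt (1 / nm z) (by norm_num : (1:ℝ) < 3/2)
  have h4 := h3 k
  have h5 := h (2^k)
  rw [div_lt_iff₀ hpos] at hk
  linarith

lemma cont_single {m : ℕ} (i : Fin m) : Continuous (fun t : ℝ => (Pi.single i t : Fin m → ℝ)) := by
  refine continuous_pi fun k => ?_
  by_cases h : k = i
  · subst h; simp only [Pi.single_eq_same]; exact continuous_id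
  · simp only [Pi.single_eq_of_ne h]; exact continuous_const

/-- evaluation of characters, as a homomorphism -/
noncomputable def evalHom {G : Type u} [CommGroup G] [TopologicalSpace G] (x : G) : (G →ₜ* Circle) →* Circle where
  toFun χ := χ x
  map_one' := rfl
  map_mul' _ _ := rfl

/-- continuous homomorphisms `ℝ → 𝕋` trivial at `1` -/
lemma real_char (hA : StmAll.{0}) (f : ℝ → Circle) (hf : Continuous f)
    (hadd : ∀ x y, f (x + y) = f x * f y) (h1 : f 1 = 1) :
    ∃ n : ℤ, ∀ t, f t = Circle.exp (2 * Real.pi * (n * t)) := by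
  have h0 : f 0 = 1 := by
    have := hadd 0 0
    rw [add_zero] at this
    exact (mul_eq_left.1 this.symm)
  let F : ℝ →+ Additive Circle := ⟨⟨fun t => Additive.ofMul (f t), by simp [h0]⟩, by
    intro x y; simp [hadd]⟩
  have hint : ∀ m : ℤ, f m = 1 := by
    intro m
    have e : F ((m : ℤ) • (1:ℝ)) = m • F 1 := map_zsmul F m 1
    have e1 : F 1 = 0 := by show Additive.ofMul (f 1) = 0; rw [h1]; rfl
    rw [e1, smul_zero] at e
    have e2 : Additive.ofMul (f (m • (1:ℝ))) = 0 := e
    have e3 : f (m • (1:ℝ)) = 1 := e2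
    rwa [zsmul_eq_mul, mul_one] at e3
  have hpi : (2 * Real.pi) ≠ 0 := by positivity
  let g : Circle → Circle := fun z => f ((z : ℂ).arg / (2 * Real.pi))
  have hg : ∀ θ : ℝ, g (Circle.exp θ) = f (θ / (2 * Real.pi)) := by
    intro θ
    have e : Circle.exp ((Circle.exp θ : ℂ).arg) = Circle.exp θ := Circle.exp_arg _
    obtain ⟨k, hk⟩ := Circle.exp_eq_exp.1 e
    show f ((Circle.exp θ : ℂ).arg / (2 * Real.pi)) = _
    rw [hk, add_div, mul_div_assoc, div_self hpi, mul_one, hadd, hint, mul_one]
  have hgc : Continuous g := by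
    have hq : IsQuotientMap Circle.exp :=
      (isLocalHomeomorph_circleExp.isOpenMap).isQuotientMap Circle.exp.continuous
        Circle.exp_surjective
    rw [hq.continuous_iff]
    have : g ∘ Circle.exp = fun θ => f (θ / (2 * Real.pi)) := funext hg
    rw [this]
    fun_prop
  have hgmul : ∀ z w, g (z * w) = g z * g w := by
    intro z w
    obtain ⟨a, rfl⟩ := Circle.exp_surjective z
    obtain ⟨b, rfl⟩ := Circle.exp_surjective w
    rw [← Circle.exp_add, hg, hg, hg, add_div, hadd]
  have hg1 : g 1 = 1 := by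
    have := hg 0
    rwa [Circle.exp_zero, zero_div, h0] at this
  let G : Circle →ₜ* Circle := ⟨⟨⟨g, hg1⟩, hgmul⟩, hgc⟩
  have hR := hA Circle (Subgroup.zpowers (ContinuousMonoidHom.id Circle)) (by
    intro x hx
    exact ⟨ContinuousMonoidHom.id Circle, Subgroup.mem_zpowers _, hx⟩)
  have hG : G ∈ Subgroup.zpowers (ContinuousMonoidHom.id Circle) := by rw [hR]; trivial
  obtain ⟨n, hn⟩ := Subgroup.mem_zpowers_iff.1 hG
  refine ⟨n, fun t => ?_⟩
  have e1 : f t = g (Circle.exp (2 * Real.pi * t)) := by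
    rw [hg, mul_div_cancel_left₀ _ hpi]
  have e2 : g (Circle.exp (2 * Real.pi * t)) = (Circle.exp (2 * Real.pi * t)) ^ n := by
    have e3 : evalHom (Circle.exp (2 * Real.pi * t)) ((ContinuousMonoidHom.id Circle) ^ n) =
        (Circle.exp (2 * Real.pi * t)) ^ n := by
      rw [map_zpow]; rfl
    rw [hn] at e3
    exact e3
  rw [e1, e2]
  have e4 : Circle.exp (n • (2 * Real.pi * t)) = (Circle.exp (2 * Real.pi * t)) ^ n := by
    have := map_zsmul Circle.expHom n (2 * Real.pi * t)
    exact this
  rw [← e4, zsmul_eq_mul]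
  congr 1
  ring

section lattice

variable {A : Type u} [CommGroup A] [TopologicalSpace A] [IsTopologicalGroup A]

/-- the character `x ↦ exp (2π <s, π x>)` -/
noncomputable def eC {m : ℕ} (p : A → (Fin m → ℝ)) (hp : Continuous p)
    (hadd : ∀ x y, p (x * y) = p x + p y) (s : Fin m → ℝ) : A →ₜ* Circle where
  toFun x := Circle.exp (2 * Real.pi * ∑ i, s i * p x i)
  map_one' := by
    have h1 : p 1 = 0 := by
      have := hadd 1 1
      rw [mul_one] at this
      simpa using this
    simp [h1]
  map_mul' x y := by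
    rw [hadd, ← Circle.exp_add]
    congr 1
    simp [mul_add, Finset.sum_add_distrib]
  continuous_toFun := by
    refine Circle.exp.continuous.comp ?_
    fun_prop

lemma eC_apply {m : ℕ} (p : A → (Fin m → ℝ)) (hp : Continuous p)
    (hadd : ∀ x y, p (x * y) = p x + p y) (s : Fin m → ℝ) (x : A) :
    eC p hp hadd s x = Circle.exp (2 * Real.pi * ∑ i, s i * p x i) := rfl

lemma eC_add {m : ℕ} (p : A → (Fin m → ℝ)) (hp : Continuous p)
    (hadd : ∀ x y, p (x * y) = p x + p y) (s s' : Fin m → ℝ) :
    eC p hp hadd (s + s') = eC p hp hadd s * eC p hp hadd s' := by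
  apply ContinuousMonoidHom.ext
  intro x
  rw [ContinuousMonoidHom.mul_apply, eC_apply, eC_apply, eC_apply, ← Circle.exp_add]
  congr 1
  simp [add_mul, Finset.sum_add_distrib, mul_add]

lemma eC_continuous {m : ℕ} (p : A → (Fin m → ℝ)) (hp : Continuous p)
    (hadd : ∀ x y, p (x * y) = p x + p y) : Continuous (eC p hp hadd) := by
  refine ContinuousMonoidHom.continuous_of_continuous_uncurry _ ?_
  show Continuous (fun q : (Fin m → ℝ) × A => Circle.exp (2 * Real.pi * ∑ i, q.1 i * p q.2 i))
  refine Circle.exp.continuous.comp ?_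
  fun_prop

lemma closed_range_of_lat [LocallyCompactSpace A] [T2Space A] {m : ℕ}
    {j : Multiplicative (Fin m → ℤ) →* A} {C : Set A} (h : IsLat m j C) :
    IsClosed (j.range : Set A) := by
  apply isClosed_of_closure_subset
  intro x hx
  obtain ⟨K, hK, hxK⟩ := exists_compact_mem_nhds x
  have hfin : ((j.range : Set A) ∩ K).Finite := by
    refine ((h.2.1 K hK).image (fun z => j (Multiplicative.ofAdd z))).subset ?_
    rintro _ ⟨⟨z, rfl⟩, hzK⟩
    exact ⟨Multiplicative.toAdd z, hzK, rfl⟩
  have hcl : x ∈ closure ((j.range : Set A) ∩ K) := by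
    rw [mem_closure_iff_nhds] at hx ⊢
    intro t ht
    obtain ⟨y, hy1, hy2⟩ := hx (t ∩ K) (inter_mem ht hxK)
    exact ⟨y, hy1.1, hy2, hy1.2⟩
  rw [hfin.isClosed.closure_eq] at hcl
  exact hcl.1

lemma descend (Γ : Subgroup A) (χ : A →ₜ* Circle) (h : ∀ x ∈ Γ, χ x = 1) :
    ∃ r : (A ⧸ Γ) →ₜ* Circle, ∀ x : A, r (QuotientGroup.mk x) = χ x := by
  refine ⟨⟨QuotientGroup.lift Γ χ.toMonoidHom h, ?_⟩, fun x => rfl⟩
  exact Continuous.quotient_lift χ.continuous_toFun _

end lattice

lemma surj_lat (hA : StmAll.{0}) (hCD : StmCD.{u}) (A : Type u) [CommGroup A] [TopologicalSpace A]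
    [IsTopologicalGroup A] [LocallyCompactSpace A] [T2Space A] (m : ℕ)
    (j : Multiplicative (Fin m → ℤ) →* A) (C : Set A) (hL : IsLat m j C)
    (p : A → (Fin m → ℝ)) (hp : Continuous p) (hadd : ∀ x y, p (x * y) = p x + p y)
    (hpj : ∀ (z : Fin m → ℤ) (i : Fin m), p (j (Multiplicative.ofAdd z)) i = (z i : ℝ))
    (ξ : (A →ₜ* Circle) →ₜ* Circle) : ∃ a : A, ∀ χ : A →ₜ* Circle, ξ χ = χ a := by
  classical
  have hcl := closed_range_of_lat hL
  set Γ : Subgroup A := j.range with hΓ
  haveI : IsClosed (Γ : Set A) := hcl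
  haveI : T2Space (A ⧸ Γ) := inferInstance
  haveI : CompactSpace (A ⧸ Γ) := by
    refine ⟨?_⟩
    have : (univ : Set (A ⧸ Γ)) = (QuotientGroup.mk : A → A ⧸ Γ) '' C := by
      ext b
      constructor
      · intro _
        obtain ⟨x, rfl⟩ := QuotientGroup.mk_surjective b
        obtain ⟨z, c, hc, hx⟩ := hL.2.2 x
        refine ⟨c, hc, ?_⟩
        rw [QuotientGroup.eq]
        refine ⟨Multiplicative.ofAdd z, ?_⟩
        rw [← hx, mul_comm (j _) c, inv_mul_cancel_left]
      · intro _; trivial
    rw [this]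
    exact hL.1.image QuotientGroup.continuous_mk
  let mkC : A →ₜ* (A ⧸ Γ) := ⟨QuotientGroup.mk' Γ, QuotientGroup.continuous_mk⟩
  let φ : (⊤ : Subgroup ((A ⧸ Γ) →ₜ* Circle)) →* Circle :=
    { toFun := fun r => ξ ((r : (A ⧸ Γ) →ₜ* Circle).comp mkC)
      map_one' := by
        have : ((1 : (A ⧸ Γ) →ₜ* Circle)).comp mkC = 1 := rfl
        show ξ ((1 : (A ⧸ Γ) →ₜ* Circle).comp mkC) = 1
        rw [this, map_one]
      map_mul' := by
        intro r r'
        show ξ (((r : (A ⧸ Γ) →ₜ* Circle) * (r' : (A ⧸ Γ) →ₜ* Circle)).comp mkC) = _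
        rw [← map_mul]
        rfl }
  obtain ⟨b, hb⟩ := hCD (A ⧸ Γ) ⊤ φ
  obtain ⟨a, rfl⟩ := QuotientGroup.mk_surjective b
  have hb' : ∀ r : (A ⧸ Γ) →ₜ* Circle, ξ (r.comp mkC) = r (QuotientGroup.mk a) := fun r =>
    hb ⟨r, trivial⟩
  -- characters trivial on `Γ`
  have hΓ1 : ∀ χ : A →ₜ* Circle, (∀ x ∈ Γ, χ x = 1) → ξ χ = χ a := by
    intro χ hχ
    obtain ⟨r, hr⟩ := descend Γ χ hχ
    have e : χ = r.comp mkC := by
      apply ContinuousMonoidHom.ext
      intro x
      exact (hr x).symm
    rw [← hr a, ← hb' r, ← e]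
  let E := eC p hp hadd
  have hE : Continuous E := eC_continuous p hp hadd
  have hEadd : ∀ s s', E (s + s') = E s * E s' := eC_add p hp hadd
  have hEj : ∀ (s : Fin m → ℝ) (z : Fin m → ℤ), E s (j (Multiplicative.ofAdd z)) =
      Circle.exp (2 * Real.pi * ∑ i, s i * z i) := by
    intro s z
    show Circle.exp (2 * Real.pi * ∑ i, s i * p (j (Multiplicative.ofAdd z)) i) = _
    simp only [hpj]
  have hEint : ∀ s : Fin m → ℝ, (∃ w : Fin m → ℤ, ∀ i, s i = w i) → ∀ x ∈ Γ, E s x = 1 := by
    rintro s ⟨w, hw⟩ _ ⟨z, rfl⟩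
    have := hEj s (Multiplicative.toAdd z)
    rw [ofAdd_toAdd] at this
    rw [this]
    have e : ∑ i, s i * ((Multiplicative.toAdd z) i : ℝ) =
        ((∑ i, w i * (Multiplicative.toAdd z) i : ℤ) : ℝ) := by
      push_cast
      exact Finset.sum_congr rfl fun i _ => by rw [hw i]
    rw [e, Circle.exp_two_pi_mul_int]
  -- the one-parameter characters
  have hφ : ∀ i : Fin m, ∃ n : ℤ, ∀ t : ℝ, ξ (E (Pi.single i t)) * (E (Pi.single i t) a)⁻¹ =
      Circle.exp (2 * Real.pi * (n * t)) := by
    intro i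
    have hsg : Continuous (fun t : ℝ => (Pi.single i t : Fin m → ℝ)) := cont_single i
    have hcont : Continuous (fun t : ℝ => E (Pi.single i t)) := hE.comp hsg
    refine real_char hA (fun t => ξ (E (Pi.single i t)) * (E (Pi.single i t) a)⁻¹) ?_ ?_ ?_
    · refine (ξ.continuous_toFun.comp hcont).mul (Continuous.inv ?_)
      exact (ContinuousEvalConst.continuous_eval_const a).comp hcont
    · intro x y
      rw [Pi.single_add, hEadd, map_mul, ContinuousMonoidHom.mul_apply, mul_inv]
      exact mul_mul_mul_comm _ _ _ _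
    · have h := hΓ1 (E (Pi.single i 1)) (hEint _ ⟨Pi.single i 1, fun k => by
        by_cases hk : k = i
        · subst hk; simp
        · simp [hk]⟩)
      show ξ (E (Pi.single i 1)) * (E (Pi.single i 1) a)⁻¹ = 1
      rw [h, mul_inv_cancel]
  choose n hn using hφ
  refine ⟨a * j (Multiplicative.ofAdd n), fun χ => ?_⟩
  -- `ξ` on the `E s`
  have hEs : ∀ s : Fin m → ℝ, ξ (E s) = E s (a * j (Multiplicative.ofAdd n)) := by
    have hone : ∀ (i : Fin m) (t : ℝ), ξ (E (Pi.single i t)) =
        E (Pi.single i t) (a * j (Multiplicative.ofAdd n)) := by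
      intro i t
      rw [map_mul, hEj]
      have e : ∑ k, (Pi.single i t : Fin m → ℝ) k * (n k : ℝ) = n i * t := by
        rw [Finset.sum_eq_single i]
        · rw [Pi.single_eq_same, mul_comm]
        · intro k _ hk
          rw [Pi.single_eq_of_ne hk, zero_mul]
        · intro h; exact absurd (Finset.mem_univ i) h
      rw [e, ← hn i t, mul_comm (ξ _), mul_inv_cancel_left]
    let H1 : Multiplicative (Fin m → ℝ) →* Circle :=
      { toFun := fun s => ξ (E (Multiplicative.toAdd s)) *
          (E (Multiplicative.toAdd s) (a * j (Multiplicative.ofAdd n)))⁻¹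
        map_one' := by
          have h0 : E (0 : Fin m → ℝ) = 1 := by
            have := hEadd 0 0
            rw [add_zero] at this
            exact mul_eq_left.1 this.symm
          show ξ (E 0) * (E 0 (a * j (Multiplicative.ofAdd n)))⁻¹ = 1
          rw [h0, map_one]; simp
        map_mul' := by
          intro s s'
          show ξ (E (Multiplicative.toAdd s + Multiplicative.toAdd s')) *
            (E (Multiplicative.toAdd s + Multiplicative.toAdd s')
              (a * j (Multiplicative.ofAdd n)))⁻¹ = _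
          rw [hEadd, map_mul, ContinuousMonoidHom.mul_apply, mul_inv]
          exact mul_mul_mul_comm _ _ _ _ }
    intro s
    have hs : s = ∑ i, Pi.single i (s i) := (Finset.univ_sum_single s).symm
    have h2 : H1 (Multiplicative.ofAdd s) = 1 := by
      rw [hs, ofAdd_sum, map_prod]
      refine Finset.prod_eq_one fun i _ => ?_
      show ξ (E (Pi.single i (s i))) *
        (E (Pi.single i (s i)) (a * j (Multiplicative.ofAdd n)))⁻¹ = 1
      rw [hone i (s i), mul_inv_cancel]
    exact mul_inv_eq_one.1 h2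
  -- lifts of the values of `χ` on the basis
  have hlift : ∀ i : Fin m, ∃ t : ℝ, Circle.exp (2 * Real.pi * t) =
      χ (j (Multiplicative.ofAdd (Pi.single i 1))) := by
    intro i
    obtain ⟨θ, hθ⟩ := Circle.exp_surjective (χ (j (Multiplicative.ofAdd (Pi.single i 1))))
    refine ⟨θ / (2 * Real.pi), ?_⟩
    rw [mul_div_cancel₀ _ (by positivity), hθ]
  choose s hs using hlift
  have htriv : ∀ x ∈ Γ, (χ * (E s)⁻¹) x = 1 := by
    let G : (Fin m → ℤ) →+ Additive Circle :=
      { toFun := fun z => Additive.ofMul ((χ * (E s)⁻¹) (j (Multiplicative.ofAdd z)))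
        map_zero' := by
          show Additive.ofMul ((χ * (E s)⁻¹) (j 1)) = 0
          rw [map_one j, map_one]; rfl
        map_add' := by
          intro z w
          show Additive.ofMul ((χ * (E s)⁻¹) (j (Multiplicative.ofAdd z * Multiplicative.ofAdd w))) = _
          rw [map_mul j, map_mul]; rfl }
    have key : ∀ i : Fin m, G (Pi.single i 1) = 0 := by
      intro i
      have h1 : χ (j (Multiplicative.ofAdd (Pi.single i 1))) *
          (E s (j (Multiplicative.ofAdd (Pi.single i 1))))⁻¹ = 1 := by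
        rw [hEj, ← hs i]
        have e : ∑ k, s k * ((Pi.single i 1 : Fin m → ℤ) k : ℝ) = s i := by
          rw [Finset.sum_eq_single i]
          · rw [Pi.single_eq_same]; simp
          · intro k _ hk
            rw [Pi.single_eq_of_ne hk]; simp
          · intro h; exact absurd (Finset.mem_univ i) h
        rw [e, mul_inv_cancel]
      exact h1
    rintro _ ⟨z, rfl⟩
    have hz : G (Multiplicative.toAdd z) = 0 := by
      rw [← Finset.univ_sum_single (Multiplicative.toAdd z), map_sum]
      refine Finset.sum_eq_zero fun i _ => ?_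
      have e : (Pi.single i ((Multiplicative.toAdd z) i) : Fin m → ℤ) =
          ((Multiplicative.toAdd z) i) • (Pi.single i 1 : Fin m → ℤ) := by
        rw [← Pi.single_smul, smul_eq_mul, mul_one]
      rw [e, map_zsmul, key, smul_zero]
    exact hz
  have h3 := hΓ1 (χ * (E s)⁻¹) htriv
  have h4 : (χ * (E s)⁻¹) (j (Multiplicative.ofAdd n)) = 1 := htriv _ ⟨_, rfl⟩
  have h5 : ξ (χ * (E s)⁻¹) = (χ * (E s)⁻¹) (a * j (Multiplicative.ofAdd n)) := by
    rw [map_mul (χ * (E s)⁻¹), h4, mul_one, h3]
  have h6 : ξ χ = ξ (χ * (E s)⁻¹) * ξ (E s) := by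
    rw [← map_mul, inv_mul_cancel_right]
  rw [h6, h5, hEs]
  show χ (a * j (Multiplicative.ofAdd n)) * (E s (a * j (Multiplicative.ofAdd n)))⁻¹ *
    E s (a * j (Multiplicative.ofAdd n)) = _
  rw [inv_mul_cancel_right]

theorem t_DualLat (hA : StmAll.{0}) (hCD : StmCD.{u}) (hC : StmAvg.{u}) : StmDualLat.{u} := by
  classical
  intro A _ _ _ _ _ m j C hL
  obtain ⟨p, hp, hadd, hpj, hprop⟩ := hC A m j C hL
  have hsurj := surj_lat hA hCD A m j C hL p hp hadd hpj
  -- the evaluation map
  let ev : A →* ((A →ₜ* Circle) →ₜ* Circle) :=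
    { toFun := fun x => ⟨evalHom x, ContinuousEvalConst.continuous_eval_const x⟩
      map_one' := by
        apply ContinuousMonoidHom.ext; intro χ
        exact map_one χ
      map_mul' := by
        intro x y
        apply ContinuousMonoidHom.ext; intro χ
        exact map_mul χ x y }
  have hev : ∀ (x : A) (χ : A →ₜ* Circle), ev x χ = χ x := fun _ _ => rfl
  have hevc : Continuous ev := by
    refine ContinuousMonoidHom.continuous_of_continuous_uncurry _ ?_
    show Continuous (fun q : A × (A →ₜ* Circle) => q.2 q.1)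
    exact continuous_eval.comp continuous_swap
  have hinj : Function.Injective ev := by
    rw [injective_iff_map_eq_one]
    intro x hx
    by_contra hne
    obtain ⟨χ, hχ, hχx⟩ := Pool.Agent.R746.LCA.lca_chars x hne
    apply hχx
    have := DFunLike.congr_fun hx (⟨χ, hχ⟩ : A →ₜ* Circle)
    exact this
  have hsur : Function.Surjective ev := by
    intro ξ
    obtain ⟨a, ha⟩ := hsurj ξ
    exact ⟨a, ContinuousMonoidHom.ext fun χ => (ha χ).symm⟩
  let E : A ≃* ((A →ₜ* Circle) →ₜ* Circle) := MulEquiv.ofBijective ev ⟨hinj, hsur⟩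
  have hEx : ∀ x, E x = ev x := fun _ => rfl
  -- openness
  have hopen : Continuous E.symm := by
    refine continuous_of_continuousAt_one E.symm ?_
    rw [ContinuousAt, map_one]
    intro W hW
    rw [Filter.mem_map]
    -- compact box
    obtain ⟨W0, hW0W, hW0o, h1W0⟩ := mem_nhds_iff.1 hW
    set K1 : Set A := {x : A | ∀ i, |p x i| ≤ 1} with hK1
    have hK1c : IsCompact K1 := hprop 1
    have hLc : IsCompact (K1 \ W0) := hK1c.diff hW0o
    -- characters
    have hd : ∀ x ∈ K1 \ W0, ∃ d : A →ₜ* Circle, 1 < nm (d x) := by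
      intro x hx
      have hx1 : x ≠ 1 := fun h => hx.2 (h ▸ h1W0)
      obtain ⟨χ, hχ, hχx⟩ := Pool.Agent.R746.LCA.lca_chars x hx1
      have : ∃ n : ℕ, 1 < nm (χ x ^ n) := by
        by_contra hcon
        push Not at hcon
        exact hχx (d_nm_pow hcon)
      obtain ⟨n, hn⟩ := this
      exact ⟨(⟨χ, hχ⟩ : A →ₜ* Circle) ^ n, by rw [ContinuousMonoidHom.pow_apply]; exact hn⟩
    choose! d hd using hd
    obtain ⟨t, htL, ht⟩ := hLc.elim_nhds_subcover (fun x => {y | 1 < nm (d x y)}) (by
      intro x hx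
      exact (isOpen_lt continuous_const (continuous_nm.comp (d x).continuous_toFun)).mem_nhds
        (hd x hx))
    -- the compact set of characters
    let Ec := eC p hp hadd
    have hEc : Continuous Ec := eC_continuous p hp hadd
    let Q1 : Set (A →ₜ* Circle) := ⋃ i : Fin m, (fun σ : ℝ => Ec (Pi.single i σ)) '' Icc 0 (1/4)
    let Q : Set (A →ₜ* Circle) := d '' (t : Set A) ∪ Q1
    have hQ : IsCompact Q := by
      refine IsCompact.union (t.finite_toSet.image d).isCompact ?_
      refine isCompact_iUnion fun i => ?_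
      have hsg : Continuous (fun σ : ℝ => (Pi.single i σ : Fin m → ℝ)) := cont_single i
      exact isCompact_Icc.image (hEc.comp hsg)
    have hO : IsOpen {f : (A →ₜ* Circle) →ₜ* Circle |
        MapsTo f Q {z : Circle | nm z < 1}} := by
      have h1 := ContinuousMap.isOpen_setOfPred_mapsTo (X := (A →ₜ* Circle)) (Y := Circle) hQ
        (isOpen_lt continuous_nm (continuous_const (y := (1:ℝ))))
      exact h1.preimage (ContinuousMonoidHom.isInducing_toContinuousMap _ _).continuous
    have hO1 : (1 : (A →ₜ* Circle) →ₜ* Circle) ∈ {f : (A →ₜ* Circle) →ₜ* Circle |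
        MapsTo f Q {z : Circle | nm z < 1}} := by
      intro χ _
      show nm (1 : Circle) < 1
      rw [nm_eq_zero.2 rfl]
      norm_num
    refine mem_of_superset (hO.mem_nhds hO1) ?_
    intro ξ hξ
    obtain ⟨x, rfl⟩ := E.surjective ξ
    show E.symm (E x) ∈ W
    rw [MulEquiv.symm_apply_apply]
    apply hW0W
    by_contra hxW
    have hxQ : ∀ χ ∈ Q, nm (χ x) < 1 := fun χ hχ => hξ hχ
    have hxK : x ∈ K1 := by
      intro i
      by_contra hcon
      push Not at hcon
      have hpos : 0 < |p x i| := by linarith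
      set σ : ℝ := 1 / (4 * |p x i|) with hσ
      have hσ0 : 0 ≤ σ := by positivity
      have hσ1 : σ ≤ 1/4 := by
        rw [hσ]
        apply one_div_le_one_div_of_le (by norm_num)
        linarith
      have hmem : Ec (Pi.single i σ) ∈ Q := by
        right
        exact mem_iUnion.2 ⟨i, σ, ⟨hσ0, hσ1⟩, rfl⟩
      have h2 := hxQ _ hmem
      have h3 : Ec (Pi.single i σ) x = Circle.exp (2 * Real.pi * (σ * p x i)) := by
        show Circle.exp (2 * Real.pi * ∑ k, (Pi.single i σ : Fin m → ℝ) k * p x k) = _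
        rw [Finset.sum_eq_single i]
        · rw [Pi.single_eq_same]
        · intro k _ hk
          rw [Pi.single_eq_of_ne hk, zero_mul]
        · intro h; exact absurd (Finset.mem_univ i) h
      rw [h3] at h2
      have hsq : (nm (Circle.exp (2 * Real.pi * (σ * p x i)))) ^ 2 = 2 := by
        have hcos : Real.cos (2 * Real.pi * (σ * p x i)) = 0 := by
          rcases abs_cases (p x i) with ⟨ha, _⟩ | ⟨ha, _⟩
          · have : 2 * Real.pi * (σ * p x i) = Real.pi / 2 := by
              have hne : p x i ≠ 0 := by intro h; rw [h] at hpos; simp at hpos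
              rw [hσ, ha]; field_simp; ring
            rw [this, Real.cos_pi_div_two]
          · have : 2 * Real.pi * (σ * p x i) = -(Real.pi / 2) := by
              have hne : p x i ≠ 0 := by intro h; rw [h] at hpos; simp at hpos
              rw [hσ, ha]; field_simp; ring
            rw [this, Real.cos_neg, Real.cos_pi_div_two]
        unfold nm
        rw [Circle.coe_exp, Complex.sq_norm, Complex.normSq_apply]
        have hre : (Complex.exp ((2 * Real.pi * (σ * p x i) : ℝ) * Complex.I)).re =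
            Real.cos (2 * Real.pi * (σ * p x i)) := Complex.exp_ofReal_mul_I_re _
        have him : (Complex.exp ((2 * Real.pi * (σ * p x i) : ℝ) * Complex.I)).im =
            Real.sin (2 * Real.pi * (σ * p x i)) := Complex.exp_ofReal_mul_I_im _
        rw [Complex.sub_re, Complex.sub_im, hre, him, hcos]
        have := Real.sin_sq_add_cos_sq (2 * Real.pi * (σ * p x i))
        rw [hcos] at this
        simp only [Complex.one_re, Complex.one_im]
        nlinarith
      nlinarith [nm_nonneg (Circle.exp (2 * Real.pi * (σ * p x i)))]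
    have hxL : x ∈ K1 \ W0 := ⟨hxK, hxW⟩
    obtain ⟨y, hy, hxy⟩ := mem_iUnion₂.1 (ht hxL)
    have h4 : nm (d y x) < 1 := hxQ (d y) (Or.inl ⟨y, hy, rfl⟩)
    have h5 : 1 < nm (d y x) := hxy
    linarith
  exact ⟨⟨E, hevc, hopen⟩, fun g χ => rfl⟩

end Pool.Agent.R657.UG.D

namespace Pool.Agent.R657.UG

universe u

theorem t_DualLat (hA : StmAll.{0}) (hCD : StmCD.{u}) (hC : StmAvg.{u}) : StmDualLat.{u} :=
  D.t_DualLat hA hCD hC

end Pool.Agent.R657.UG
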