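import Pool.Agent.R657.UG.Defs

/-! UG-E1: surjectivity of the evaluation map passes from open subgroups. -/

set_option autoImplicit false

namespace Pool.Agent.R657.UG.E1

open Topology Filter Set

universe u

theorem nm_mul_le (z w : Circle) : nm (z * w) ≤ nm z + nm w := by
  unfold nm
  have h : ((z * w : Circle) : ℂ) - 1 = (z : ℂ) * ((w : ℂ) - 1) + ((z : ℂ) - 1) := by
    rw [Circle.coe_mul]; ring
  rw [h]
  refine (norm_add_le _ _).trans ?_
  rw [norm_mul, Circle.norm_coe, one_mul, add_comm]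

theorem nm_one : nm 1 = 0 := by simp [nm]

theorem nm_nonneg (z : Circle) : 0 ≤ nm z := norm_nonneg _

theorem nm_eq_zero {z : Circle} (h : nm z = 0) : z = 1 := by
  unfold nm at h
  rw [norm_eq_zero, sub_eq_zero] at h
  exact Circle.ext h

theorem dist_one (z : Circle) : dist z 1 = nm z := by
  change dist (z : ℂ) ((1 : Circle) : ℂ) = ‖(z : ℂ) - 1‖
  rw [dist_eq_norm, Circle.coe_one]

theorem continuous_nm : Continuous nm := by
  unfold nm
  fun_prop

theorem nm_sq {z : Circle} (h : nm z ≤ 1) : nm z ≤ 2 / 3 * nm (z ^ 2) := by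
  unfold nm at *
  have h1 : ((z ^ 2 : Circle) : ℂ) - 1 = ((z : ℂ) - 1) * ((z : ℂ) + 1) := by
    rw [Circle.coe_pow]; ring
  rw [h1, norm_mul]
  have h2 : (3 / 2 : ℝ) ≤ ‖(z : ℂ) + 1‖ := by
    have h3 : ‖(z : ℂ) - 1‖ ^ 2 ≤ 1 := by
      have := norm_nonneg ((z : ℂ) - 1)
      nlinarith
    have h4 : ‖(z : ℂ)‖ ^ 2 = 1 := by rw [Circle.norm_coe]; norm_num
    rw [← Complex.normSq_eq_norm_sq, Complex.normSq_apply] at h3 h4
    simp only [Complex.sub_re, Complex.one_re, Complex.sub_im, Complex.one_im, sub_zero] at h3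
    have h5 : (1 : ℝ) / 2 ≤ (z : ℂ).re := by nlinarith
    calc (3 / 2 : ℝ) ≤ ((z : ℂ) + 1).re := by
          rw [Complex.add_re, Complex.one_re]; linarith
      _ ≤ ‖(z : ℂ) + 1‖ := Complex.re_le_norm _
  have h6 := norm_nonneg ((z : ℂ) - 1)
  nlinarith

theorem nm_small (n : ℕ) : ∀ z : Circle, (∀ k ≤ n, nm (z ^ (2 ^ k)) ≤ 1) →
    nm z ≤ (2 / 3 : ℝ) ^ n := by
  induction n with
  | zero =>
    intro z h
    simpa using h 0 le_rfl
  | succ n ih =>
    intro z h
    have h1 : nm z ≤ 1 := by simpa using h 0 (Nat.zero_le _)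
    have h2 := ih (z ^ 2) (fun k hk => by
      rw [← pow_mul, ← pow_succ']
      exact h (k + 1) (by omega))
    calc nm z ≤ 2 / 3 * nm (z ^ 2) := nm_sq h1
      _ ≤ 2 / 3 * (2 / 3 : ℝ) ^ n := by gcongr
      _ = (2 / 3 : ℝ) ^ (n + 1) := by ring

theorem continuous_of_small {S : Type*} [Group S] [TopologicalSpace S] [IsTopologicalGroup S]
    (φ : S →* Circle) (U : Set S) (hU : U ∈ 𝓝 (1 : S)) (h : ∀ x ∈ U, nm (φ x) ≤ 1) :
    Continuous φ := by
  apply continuous_of_continuousAt_one φ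
  rw [ContinuousAt, map_one, Metric.tendsto_nhds]
  intro ε hε
  obtain ⟨n, hn⟩ := exists_pow_lt_of_lt_one hε (by norm_num : (2 / 3 : ℝ) < 1)
  have h1 : ∀ᶠ v in 𝓝 (1 : S), ∀ k ∈ Finset.range (n + 1), v ^ (2 ^ k) ∈ U := by
    rw [Filter.eventually_all_finset]
    intro k _
    have hc : Continuous fun v : S => v ^ (2 ^ k) := continuous_pow _
    exact hc.continuousAt.eventually (by simpa using hU)
  filter_upwards [h1] with v hv
  have h2 := nm_small n (φ v) (fun k hk => by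
    rw [← map_pow]
    exact h _ (hv k (Finset.mem_range.2 (by omega))))
  have h3 : dist (φ v) 1 = nm (φ v) := dist_one (φ v)
  rw [h3]
  exact h2.trans_lt hn

theorem small_mem_nhds {G : Type*} [CommGroup G] [TopologicalSpace G] (C : Set G)
    (hC : IsCompact C) (ε : ℝ) (hε : 0 < ε) :
    {χ : G →ₜ* Circle | ∀ c ∈ C, nm (χ c) < ε} ∈ 𝓝 (1 : G →ₜ* Circle) := by
  have h1 : IsOpen {f : C(G, Circle) | MapsTo f C {z | nm z < ε}} :=
    ContinuousMap.isOpen_setOfPred_mapsTo hC (isOpen_lt continuous_nm continuous_const)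
  have h2 : IsOpen {χ : G →ₜ* Circle | ∀ c ∈ C, nm (χ c) < ε} := isOpen_induced h1
  refine h2.mem_nhds ?_
  intro c _
  show nm ((1 : G →ₜ* Circle) c) < ε
  simpa [nm_one] using hε

theorem exists_small {G : Type*} [CommGroup G] [TopologicalSpace G]
    (s : Set (G →ₜ* Circle)) (hs : s ∈ 𝓝 (1 : G →ₜ* Circle)) :
    ∃ C : Set G, IsCompact C ∧ ∃ ε : ℝ, 0 < ε ∧
      ∀ χ : G →ₜ* Circle, (∀ c ∈ C, nm (χ c) < ε) → χ ∈ s := by
  rw [(ContinuousMonoidHom.isInducing_toContinuousMap G Circle).nhds_eq_comap,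
    Filter.mem_comap] at hs
  obtain ⟨t, ht, hts⟩ := hs
  rw [UniformSpace.mem_nhds_iff] at ht
  obtain ⟨V, hV, hVt⟩ := ht
  obtain ⟨⟨C, W⟩, ⟨hC, hW⟩, hCW⟩ :=
    (ContinuousMap.hasBasis_compactConvergenceUniformity.mem_iff).1 hV
  obtain ⟨ε, hε, hεW⟩ := Metric.mem_uniformity_dist.1 hW
  refine ⟨C, hC, ε, hε, fun χ hχ => hts (hVt ?_)⟩
  apply hCW
  intro x hx
  apply hεW
  have h3 : dist (1 : Circle) (χ x) = nm (χ x) := by
    rw [dist_comm, dist_one]
  show dist ((1 : G →ₜ* Circle) x) (χ x) < ε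
  have h4 : (1 : G →ₜ* Circle) x = 1 := rfl
  rw [h4, h3]
  exact hχ x hx

/-- the circle is divisible -/
@[reducible] noncomputable def circleDiv : DivisibleBy (Additive Circle) ℤ :=
  divisibleByOfSMulRightSurj (Additive Circle) ℤ (by
    intro n hn z
    have ht := Circle.exp_arg (Additive.toMul z)
    refine ⟨Additive.ofMul (Circle.exp (Complex.arg (Additive.toMul z : Circle) / n)), ?_⟩
    show Additive.ofMul ((Circle.exp (Complex.arg (Additive.toMul z : Circle) / n)) ^ n) = z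
    rw [← Circle.exp_zsmul, zsmul_eq_mul, mul_div_cancel₀ _ (Int.cast_ne_zero.2 hn), ht]
    rfl)

/-- extension of characters -/
theorem extend_char {A : Type u} [CommGroup A] (N : Subgroup A) (χ : N →* Circle) :
    ∃ ψ : A →* Circle, ∀ x : N, ψ x = χ x := by
  let ψ0 : Additive N →+ Additive Circle := MonoidHom.toAdditive χ
  let ι : Additive N →+ Additive A := MonoidHom.toAdditive N.subtype
  let _ := circleDiv
  obtain ⟨g, hg⟩ := (Module.Baer.of_divisible (Additive Circle)).extension_property_addMonoidHom ι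
    (fun x y hxy => by
      have : (Additive.toMul x).1 = (Additive.toMul y).1 := hxy
      exact Additive.toMul.injective (Subtype.ext this)) ψ0
  refine ⟨AddMonoidHom.toMultiplicative g, fun x => ?_⟩
  exact DFunLike.congr_fun hg (Additive.ofMul x)

theorem factor {A : Type*} {B : Type u} [CommGroup A] [CommGroup B] (f : A →* B)
    (φ : A →* Circle) (h : ∀ a, f a = 1 → φ a = 1) :
    ∃ ψ : B →* Circle, ∀ a, ψ (f a) = φ a := by
  have key : ∀ a a', f a = f a' → φ a = φ a' := by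
    intro a a' haa
    have := h (a * a'⁻¹) (by rw [map_mul, map_inv, haa, mul_inv_cancel])
    rwa [map_mul, map_inv, mul_inv_eq_one] at this
  have hs : ∀ b : f.range, ∃ a, f a = b := fun b => b.2
  choose s hs using hs
  let χ : f.range →* Circle := MonoidHom.mk' (fun b => φ (s b)) (by
    intro b c
    rw [← map_mul]
    apply key
    rw [map_mul, hs, hs, hs]
    rfl)
  obtain ⟨ψ, hψ⟩ := extend_char f.range χ
  refine ⟨ψ, fun a => ?_⟩
  have h1 := hψ ⟨f a, a, rfl⟩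
  have h2 : χ ⟨f a, a, rfl⟩ = φ (s ⟨f a, a, rfl⟩) := rfl
  rw [h2] at h1
  rw [← key (s ⟨f a, a, rfl⟩) a (hs _)]
  exact h1

section

variable {G : Type u} [CommGroup G] [TopologicalSpace G] [IsTopologicalGroup G]

/-- evaluation at a point as a continuous character of the dual -/
noncomputable def ev (g : G) : (G →ₜ* Circle) →ₜ* Circle where
  toFun χ := χ g
  map_one' := rfl
  map_mul' _ _ := rfl
  continuous_toFun := continuous_eval_const g

/-- an abstract character which is continuous on an open subgroup is continuous -/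
theorem continuous_of_open (G₀ : Subgroup G) (hG₀ : IsOpen (G₀ : Set G)) (ψ : G →* Circle)
    (h : Continuous fun x : G₀ => ψ x) : Continuous ψ := by
  apply continuous_of_continuousAt_one ψ
  have h1 : ContinuousOn ψ (G₀ : Set G) := by
    rw [continuousOn_iff_continuous_domRestrict]
    exact h
  exact h1.continuousAt (hG₀.mem_nhds G₀.one_mem)

theorem extend_open (G₀ : Subgroup G) (hG₀ : IsOpen (G₀ : Set G)) (χ₀ : G₀ →ₜ* Circle) :
    ∃ χ : G →ₜ* Circle, ∀ x : G₀, χ x = χ₀ x := by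
  obtain ⟨ψ, hψ⟩ := extend_char G₀ (χ₀ : G₀ →* Circle)
  refine ⟨⟨ψ, continuous_of_open G₀ hG₀ ψ ?_⟩, hψ⟩
  have : (fun x : G₀ => ψ x) = χ₀ := funext hψ
  rw [this]
  exact χ₀.continuous_toFun

/-- monomials -/
noncomputable def mon {t : Type*} [Fintype t] {H : Type*} [CommGroup H] (h : t → H) :
    Multiplicative (t → ℤ) →* H :=
  MonoidHom.mk' (fun n => ∏ c, h c ^ (Multiplicative.toAdd n c)) (by
    intro a b
    rw [← Finset.prod_mul_distrib]
    refine Finset.prod_congr rfl fun c _ => ?_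
    rw [toAdd_mul, Pi.add_apply, zpow_add])

theorem mon_apply {t : Type*} [Fintype t] {H : Type*} [CommGroup H] (h : t → H)
    (n : Multiplicative (t → ℤ)) : mon h n = ∏ c, h c ^ (Multiplicative.toAdd n c) := rfl

theorem mon_single {t : Type*} [Fintype t] [DecidableEq t] {H : Type*} [CommGroup H] (h : t → H)
    (c : t) : mon h (Multiplicative.ofAdd (Pi.single c 1)) = h c := by
  rw [mon_apply, Finset.prod_eq_single c]
  · simp
  · intro b _ hb
    simp [Pi.single_eq_of_ne hb]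
  · intro h'
    exact absurd (Finset.mem_univ c) h'

theorem map_mon {t : Type*} [Fintype t] {H K : Type*} [CommGroup H] [CommGroup K] (h : t → H)
    (f : H →* K) (n : Multiplicative (t → ℤ)) : f (mon h n) = mon (fun c => f (h c)) n := by
  rw [mon_apply, mon_apply, map_prod]
  exact Finset.prod_congr rfl fun c _ => map_zpow _ _ _

theorem key (G₀ : Subgroup G) (hG₀ : IsOpen (G₀ : Set G)) (C : Set G) (hC : IsCompact C)
    (δ : ℝ) (hδ : 0 < δ) : ∃ C₀ : Set G₀, IsCompact C₀ ∧ ∃ ε : ℝ, 0 < ε ∧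
      ∀ χ₀ : G₀ →ₜ* Circle, (∀ c ∈ C₀, nm (χ₀ c) < ε) →
        ∃ χ : G →ₜ* Circle, (∀ x : G₀, χ x = χ₀ x) ∧ ∀ c ∈ C, nm (χ c) < δ := by
  classical
  obtain ⟨t, htC, hCt⟩ := hC.elim_nhds_subcover (fun x => {y : G | x⁻¹ * y ∈ G₀}) (by
    intro x _
    have h1 : IsOpen {y : G | x⁻¹ * y ∈ G₀} :=
      hG₀.preimage (continuous_const.mul continuous_id)
    exact h1.mem_nhds (by simp [G₀.one_mem]))
  let c : t → G := fun x => x
  let Z : Multiplicative (t → ℤ) × ℕ → Set (t → Circle) := fun i =>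
    {θ | mon c i.1 ∈ G₀ → nm (mon θ i.1) ≤ 1 / ((i.2 : ℝ) + 1)}
  let s : Set (t → Circle) := {θ | ∀ ψ : G →ₜ* Circle, (∀ x ∈ G₀, ψ x = 1) →
    ∃ x : t, δ / 2 ≤ nm (θ x * (ψ (c x))⁻¹)}
  have hZ : ∀ i, IsClosed (Z i) := by
    intro i
    by_cases hi : mon c i.1 ∈ G₀
    · have h1 : Z i = {θ | nm (mon θ i.1) ≤ 1 / ((i.2 : ℝ) + 1)} := by
        ext θ
        exact ⟨fun h => h hi, fun h _ => h⟩
      rw [h1]
      refine isClosed_le (continuous_nm.comp ?_) continuous_const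
      simp only [mon_apply]
      exact continuous_finsetProd _ fun x _ => (continuous_apply x).zpow _
    · have h1 : Z i = univ := by
        ext θ
        exact ⟨fun _ => mem_univ _, fun _ h => absurd h hi⟩
      rw [h1]
      exact isClosed_univ
  have hs : IsCompact s := by
    apply IsClosed.isCompact
    simp only [s, Set.ofPred_forall]
    refine isClosed_iInter fun ψ => isClosed_iInter fun _ => ?_
    simp only [Set.ofPred_exists]
    refine isClosed_iUnion_of_finite fun x => ?_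
    exact isClosed_le continuous_const (continuous_nm.comp
      ((continuous_apply x).mul continuous_const))
  have hempty : s ∩ ⋂ i, Z i = ∅ := by
    rw [Set.eq_empty_iff_forall_notMem]
    rintro θ ⟨hθs, hθZ⟩
    rw [Set.mem_iInter] at hθZ
    have h1 : ∀ n, mon c n ∈ G₀ → mon θ n = 1 := by
      intro n hn
      apply nm_eq_zero
      apply le_antisymm _ (nm_nonneg _)
      have h2 : ∀ k : ℕ, nm (mon θ n) ≤ 1 / ((k : ℝ) + 1) := fun k => hθZ (n, k) hn
      exact ge_of_tendsto' tendsto_one_div_add_atTop_nhds_zero_nat h2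
    obtain ⟨ψ', hψ'⟩ := factor ((QuotientGroup.mk' G₀).comp (mon c)) (mon θ) (by
      intro n hn
      apply h1
      rwa [MonoidHom.comp_apply, QuotientGroup.mk'_apply, QuotientGroup.eq_one_iff] at hn)
    have htriv : ∀ x ∈ G₀, (ψ'.comp (QuotientGroup.mk' G₀)) x = 1 := by
      intro x hx
      rw [MonoidHom.comp_apply, QuotientGroup.mk'_apply, (QuotientGroup.eq_one_iff x).2 hx, map_one]
    obtain ⟨x, hx⟩ := hθs ⟨ψ'.comp (QuotientGroup.mk' G₀), continuous_of_open G₀ hG₀ _ (by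
      have : (fun x : G₀ => (ψ'.comp (QuotientGroup.mk' G₀)) x) = fun _ => 1 :=
        funext fun x => htriv x x.2
      rw [this]
      exact continuous_const)⟩ htriv
    have h3 : (ψ'.comp (QuotientGroup.mk' G₀)) (c x) = θ x := by
      have := hψ' (Multiplicative.ofAdd (Pi.single x 1))
      rw [MonoidHom.comp_apply, mon_single, mon_single] at this
      exact this
    have h4 : δ / 2 ≤ nm (θ x * ((ψ'.comp (QuotientGroup.mk' G₀)) (c x))⁻¹) := hx
    rw [h3, mul_inv_cancel, nm_one] at h4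
    linarith
  obtain ⟨u, hu⟩ := hs.elim_finite_subfamily_closed Z hZ hempty
  let K : ℕ := u.sup Prod.snd
  have hclosed : IsClosed (G₀ : Set G) := Subgroup.isClosed_of_isOpen G₀ hG₀
  let ε : ℝ := min (δ / 2) (1 / ((K : ℝ) + 1))
  refine ⟨(⋃ x ∈ t, {g : G₀ | (x : G) * g ∈ C}) ∪
    (Subtype.val ⁻¹' ((fun i : Multiplicative (t → ℤ) × ℕ => mon c i.1) '' (u : Set _))), ?_,
    ε, lt_min (by linarith) (by positivity), ?_⟩
  · refine IsCompact.union ?_ ?_
    · refine t.isCompact_biUnion fun x _ => ?_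
      have he : IsClosedEmbedding fun g : G₀ => x * (g : G) :=
        (Homeomorph.mulLeft x).isClosedEmbedding.comp hclosed.isClosedEmbedding_subtypeVal
      exact he.isCompact_preimage hC
    · exact ((u.finite_toSet.image _).preimage Subtype.val_injective.injOn).isCompact
  · intro χ₀ hχ₀
    obtain ⟨χ, hχ⟩ := extend_open G₀ hG₀ χ₀
    have h1 : (fun x : t => χ (c x)) ∉ s := by
      intro hs'
      have h2 : (fun x : t => χ (c x)) ∈ s ∩ ⋂ i ∈ u, Z i := by
        refine ⟨hs', ?_⟩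
        rw [Set.mem_iInter₂]
        intro i hi hmon
        have h3 : mon (fun x : t => χ (c x)) i.1 = χ (mon c i.1) :=
          (map_mon c (χ : G →* Circle) i.1).symm
        rw [h3, hχ ⟨mon c i.1, hmon⟩]
        have h4 := hχ₀ ⟨mon c i.1, hmon⟩ (Or.inr ⟨i, hi, rfl⟩)
        refine h4.le.trans ((min_le_right _ _).trans ?_)
        have h5 : i.2 ≤ K := Finset.le_sup (f := Prod.snd) hi
        have h6 : (i.2 : ℝ) ≤ K := by exact_mod_cast h5
        apply one_div_le_one_div_of_le (by positivity)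
        linarith
      rw [hu] at h2
      exact h2
    simp only [s, Set.mem_ofPred_eq, not_forall, not_exists, not_le] at h1
    obtain ⟨ψ, hψ, hψs⟩ := h1
    refine ⟨χ * ψ⁻¹, ?_, ?_⟩
    · intro x
      have : (χ * ψ⁻¹) x = χ x * (ψ x)⁻¹ := rfl
      rw [this, hψ x x.2, inv_one, mul_one, hχ]
    · intro y hy
      obtain ⟨x, hx, hxy⟩ := Set.mem_iUnion₂.1 (hCt hy)
      have hxy' : x⁻¹ * y ∈ G₀ := hxy
      have e1 : (χ * ψ⁻¹) y = (χ x * (ψ x)⁻¹) * χ₀ ⟨x⁻¹ * y, hxy'⟩ := by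
        have e2 : (χ * ψ⁻¹) y = χ y * (ψ y)⁻¹ := rfl
        have e3 : ψ (x⁻¹ * y) = 1 := hψ _ hxy'
        have e4 : χ (x⁻¹ * y) = χ₀ ⟨x⁻¹ * y, hxy'⟩ := hχ ⟨x⁻¹ * y, hxy'⟩
        rw [map_mul, map_inv] at e3 e4
        rw [e2, ← e4]
        have e5 : ψ y = ψ x := by
          rw [inv_mul_eq_one] at e3
          exact e3.symm
        rw [e5, mul_mul_mul_comm, mul_inv_cancel, one_mul, mul_comm]
      rw [e1]
      refine (nm_mul_le _ _).trans_lt ?_
      have h7 : nm (χ x * (ψ x)⁻¹) < δ / 2 := hψs ⟨x, hx⟩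
      have h8 : nm (χ₀ ⟨x⁻¹ * y, hxy'⟩) < ε := by
        apply hχ₀
        left
        refine Set.mem_iUnion₂.2 ⟨x, hx, ?_⟩
        show x * (x⁻¹ * y) ∈ C
        rwa [mul_inv_cancel_left]
      have h9 : ε ≤ δ / 2 := min_le_left _ _
      linarith

end

end Pool.Agent.R657.UG.E1

namespace Pool.Agent.R657.UG

open Topology Filter Set

universe u

open Pool.Agent.R657.UG.E1 in
theorem t_OpenSurj (hA : StmAll.{u}) : StmOpenSurj.{u} := by
  intro G _ _ _ _ G₀ hG₀ hsurj ξ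
  -- (i) characters trivial on the open subgroup
  obtain ⟨g₁, hg₁⟩ : ∃ g₁ : G, ∀ χ : G →ₜ* Circle, (∀ x ∈ G₀, χ x = 1) → ξ χ = χ g₁ := by
    have : DiscreteTopology (G ⧸ G₀) := QuotientGroup.discreteTopology hG₀
    let π : G →ₜ* (G ⧸ G₀) := ⟨QuotientGroup.mk' G₀, continuous_quot_mk⟩
    let η : ((G ⧸ G₀) →ₜ* Circle) →ₜ* Circle := ξ.comp (π.compLeft Circle)
    let R : (G ⧸ G₀) →* (((G ⧸ G₀) →ₜ* Circle) →ₜ* Circle) := MonoidHom.mk' ev (by
      intro a b
      ext χ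
      exact congrArg _ (map_mul χ a b))
    have hR := hA ((G ⧸ G₀) →ₜ* Circle) R.range (by
      intro x hx
      obtain ⟨q, hq⟩ := DFunLike.ne_iff.1 hx
      exact ⟨ev q, ⟨q, rfl⟩, hq⟩)
    have hη : η ∈ R.range := by rw [hR]; exact Subgroup.mem_top _
    obtain ⟨q, hq⟩ := hη
    obtain ⟨g₁, rfl⟩ := QuotientGroup.mk_surjective q
    refine ⟨g₁, fun χ hχ => ?_⟩
    let χ' : (G ⧸ G₀) →ₜ* Circle := ⟨QuotientGroup.lift G₀ (χ : G →* Circle) hχ,
      continuous_of_discreteTopology⟩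
    have h1 : π.compLeft Circle χ' = χ := by
      ext x
      rfl
    have h2 : η χ' = ev (g₁ : G ⧸ G₀) χ' := by
      rw [← hq]; rfl
    have h3 : η χ' = ξ χ := by
      show ξ (π.compLeft Circle χ') = ξ χ
      rw [h1]
    rw [← h3, h2]
    rfl
  -- (ii)
  let ξ₁ : (G →ₜ* Circle) →ₜ* Circle := ξ * (ev g₁)⁻¹
  have hξ₁ : ∀ χ : G →ₜ* Circle, ξ₁ χ = ξ χ * (χ g₁)⁻¹ := fun χ => rfl
  have hvan : ∀ χ : G →ₜ* Circle, (∀ x ∈ G₀, χ x = 1) → ξ₁ χ = 1 := by
    intro χ hχ
    rw [hξ₁, hg₁ χ hχ, mul_inv_cancel]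
  have hagree : ∀ χ χ' : G →ₜ* Circle, (∀ x : G₀, χ x = χ' x) → ξ₁ χ = ξ₁ χ' := by
    intro χ χ' h
    have h1 := hvan (χ * χ'⁻¹) (by
      intro x hx
      show χ x * (χ' x)⁻¹ = 1
      rw [h ⟨x, hx⟩, mul_inv_cancel])
    rwa [map_mul, map_inv, mul_inv_eq_one] at h1
  choose E hE using fun χ₀ : G₀ →ₜ* Circle => extend_open G₀ hG₀ χ₀
  let φ : (G₀ →ₜ* Circle) →* Circle := MonoidHom.mk' (fun χ₀ => ξ₁ (E χ₀)) (by
    intro a b
    rw [← map_mul]
    apply hagree
    intro x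
    show E (a * b) x = E a x * E b x
    rw [hE, hE, hE]
    rfl)
  have hφ : ∀ χ₀ (χ : G →ₜ* Circle), (∀ x : G₀, χ x = χ₀ x) → φ χ₀ = ξ₁ χ := by
    intro χ₀ χ h
    apply hagree
    intro x
    rw [hE, h]
  have hcont : Continuous φ := by
    obtain ⟨C, hC, δ, hδ, hCδ⟩ := exists_small {χ : G →ₜ* Circle | nm (ξ₁ χ) < 1} (by
      have h1 : IsOpen {χ : G →ₜ* Circle | nm (ξ₁ χ) < 1} :=
        isOpen_lt (continuous_nm.comp ξ₁.continuous_toFun) continuous_const
      refine h1.mem_nhds ?_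
      show nm (ξ₁ 1) < 1
      rw [map_one, nm_one]
      exact one_pos)
    obtain ⟨C₀, hC₀, ε, hε, hkey⟩ := key G₀ hG₀ C hC δ hδ
    refine continuous_of_small φ _ (small_mem_nhds C₀ hC₀ ε hε) ?_
    intro χ₀ hχ₀
    obtain ⟨χ, hχ, hχC⟩ := hkey χ₀ hχ₀
    rw [hφ χ₀ χ hχ]
    exact (hCδ χ hχC).le
  obtain ⟨g₀, hg₀⟩ := hsurj ⟨φ, hcont⟩
  refine ⟨g₀ * g₁, fun χ => ?_⟩
  let χ₀ : G₀ →ₜ* Circle := ⟨(χ : G →* Circle).comp G₀.subtype,
    χ.continuous_toFun.comp continuous_subtype_val⟩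
  have h1 : φ χ₀ = χ g₀ := hg₀ χ₀
  have h2 : φ χ₀ = ξ₁ χ := hφ χ₀ χ (fun x => rfl)
  rw [map_mul, ← h1, h2, hξ₁, inv_mul_cancel_right]

end Pool.Agent.R657.UG
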