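import Pool.Agent.R657.UG.Basic
import Pool.Agent.R657.UG.E1
import Pool.Agent.R746.LCAChars

/-! UG-E2: a group with a reflexive open subgroup is reflexive. -/

set_option autoImplicit false

namespace Pool.Agent.R657.UG

open Topology Filter Set

universe u

/-- characters separate points from open subgroups -/
theorem sep_open {G : Type u} [CommGroup G] [TopologicalSpace G] [IsTopologicalGroup G]
    (G₀ : Subgroup G) (hG₀ : IsOpen (G₀ : Set G)) (x : G) (hx : x ∉ G₀) :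
    ∃ χ : G →ₜ* Circle, (∀ y ∈ G₀, χ y = 1) ∧ χ x ≠ 1 := by
  have : DiscreteTopology (G ⧸ G₀) := QuotientGroup.discreteTopology hG₀
  obtain ⟨ψ, hψ, hψx⟩ := Pool.Agent.R746.LCA.lca_chars (x : G ⧸ G₀) (by
    intro h
    exact hx ((QuotientGroup.eq_one_iff x).1 h))
  refine ⟨⟨ψ.comp (QuotientGroup.mk' G₀), hψ.comp continuous_quot_mk⟩, ?_, hψx⟩
  intro y hy
  show ψ (y : G ⧸ G₀) = 1
  rw [(QuotientGroup.eq_one_iff y).2 hy, map_one]

theorem t_Open (h : StmOpenSurj.{u}) : StmOpen.{u} := by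
  intro G _ _ _ _ G₀ hG₀ hr
  -- restriction
  let ι : G₀ →ₜ* G := ⟨G₀.subtype, continuous_subtype_val⟩
  let res : (G →ₜ* Circle) →ₜ* (G₀ →ₜ* Circle) := ι.compLeft Circle
  have hres : ∀ (χ : G →ₜ* Circle) (x : G₀), res χ x = χ x := fun _ _ => rfl
  have himg : ∀ V : Set G₀, V ∈ 𝓝 (1 : G₀) → Subtype.val '' V ∈ 𝓝 (1 : G) := by
    intro V hV
    exact hG₀.isOpenEmbedding_subtypeVal.isOpenMap.image_mem_nhds hV
  apply reflexive_of
  · intro g hg
    have hgG : g ∈ G₀ := by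
      by_contra hgn
      obtain ⟨χ, _, hχ⟩ := sep_open G₀ hG₀ g hgn
      exact hχ (hg χ)
    have h1 := hr.inj ⟨g, hgG⟩ (by
      intro χ₀
      obtain ⟨χ, hχ⟩ := E1.extend_open G₀ hG₀ χ₀
      rw [← hχ]
      exact hg χ)
    exact congrArg Subtype.val h1
  · exact h G G₀ hG₀ hr.surjEv
  · intro Q hQ ε hε
    have h1 := hr.cont (res '' Q) (hQ.image res.continuous_toFun) hε
    refine Filter.mem_of_superset (himg _ h1) ?_
    rintro _ ⟨x, hx, rfl⟩ χ hχ
    exact hx (res χ) ⟨χ, hχ, rfl⟩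
  · intro U hU
    have hU₀ : Subtype.val ⁻¹' U ∈ 𝓝 (1 : G₀) :=
      continuous_subtype_val.continuousAt.preimage_mem_nhds hU
    obtain ⟨Q₀, hQ₀, ε, hε, hQU⟩ := hr.openB hU₀
    have hV := himg _ (hr.cont Q₀ hQ₀ one_pos)
    refine ⟨_, isCompact_polar hV, min ε 1, lt_min hε one_pos, ?_⟩
    intro x hx
    have hxG : x ∈ G₀ := by
      by_contra hxn
      obtain ⟨χ, hχ0, hχx⟩ := sep_open G₀ hG₀ x hxn
      apply hχx
      apply eq_one_of_small
      intro k
      have h1 : nm ((χ ^ k) x) ≤ min ε 1 := by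
        apply hx
        rintro _ ⟨u, _, rfl⟩
        have : (χ ^ k) (u : G) = (χ u) ^ k := map_pow (evC (u : G)) χ k
        rw [this, hχ0 u u.2, one_pow, nm_one]
        exact zero_le_one
      have h2 : (χ ^ k) x = (χ x) ^ k := map_pow (evC x) χ k
      rw [← h2]
      exact h1.trans (min_le_right _ _)
    have h2 : (⟨x, hxG⟩ : G₀) ∈ {x : G₀ | ∀ χ ∈ Q₀, nm (χ x) ≤ ε} := by
      intro χ₀ hχ₀
      obtain ⟨χ, hχ⟩ := E1.extend_open G₀ hG₀ χ₀
      rw [← hχ]
      have h1 : nm (χ x) ≤ min ε 1 := by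
        apply hx
        rintro _ ⟨u, hu, rfl⟩
        rw [hχ]
        exact hu χ₀ hχ₀
      exact h1.trans (min_le_left _ _)
    exact hQU h2

end Pool.Agent.R657.UG
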