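import Mathlib
import Pool.Agent.R657.UG.Defs
import Pool.Agent.R746.LCAChars

/-! # UG-F: lifting null sequences (helper371 for helper657) -/

set_option autoImplicit false

namespace Pool.Agent.R657.UG

open Topology Filter Set

universe u v

namespace LiftF

/-- extension of homomorphisms to divisible groups -/
theorem extend_div {A : Type u} [CommGroup A] (S : Subgroup A) {B : Type v} [CommGroup B]
    (hB : ∀ n : ℕ, n ≠ 0 → ∀ b : B, ∃ c : B, c ^ n = b) (χ : S →* B) :
    ∃ ψ : A →* B, ∀ x : S, ψ x = χ x := by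
  let ψ0 : Additive S →+ Additive B := MonoidHom.toAdditive χ
  let ι : Additive S →+ Additive A := MonoidHom.toAdditive S.subtype
  let _ : DivisibleBy (Additive B) ℤ := divisibleByOfSMulRightSurj (Additive B) ℤ (by
    intro n hn b
    obtain ⟨c, hc⟩ := hB n.natAbs (Int.natAbs_ne_zero.2 hn) (Additive.toMul b)
    rcases le_total 0 n with h | h
    · refine ⟨Additive.ofMul c, ?_⟩
      have h2 : (n.natAbs : ℤ) = n := Int.natAbs_of_nonneg h
      change n • Additive.ofMul c = b
      rw [← h2, natCast_zsmul]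
      exact congrArg Additive.ofMul hc
    · refine ⟨- Additive.ofMul c, ?_⟩
      have h2 : (n.natAbs : ℤ) = -n := Int.ofNat_natAbs_of_nonpos h
      change n • (- Additive.ofMul c) = b
      rw [smul_neg, ← neg_smul, ← h2, natCast_zsmul]
      exact congrArg Additive.ofMul hc)
  obtain ⟨g, hg⟩ := (Module.Baer.of_divisible (Additive B)).extension_property_addMonoidHom ι
    (fun x y hxy => by
      have : (Additive.toMul x).1 = (Additive.toMul y).1 := hxy
      exact Additive.toMul.injective (Subtype.ext this)) ψ0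
  refine ⟨AddMonoidHom.toMultiplicative g, fun x => ?_⟩
  exact DFunLike.congr_fun hg (Additive.ofMul x)

/-- roots in the circle -/
noncomputable def rt (n : ℕ) (z : Circle) : Circle := Circle.exp (Complex.arg z / n)

theorem rt_pow {n : ℕ} (hn : n ≠ 0) (z : Circle) : rt n z ^ n = z := by
  unfold rt
  rw [← Circle.exp_nsmul, nsmul_eq_mul, mul_div_cancel₀ _ (Nat.cast_ne_zero.2 hn), Circle.exp_arg]

theorem rt_tendsto (n : ℕ) : Tendsto (rt n) (𝓝 1) (𝓝 1) := by
  have h1 : ContinuousAt (fun z : Circle => Complex.arg z) 1 := by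
    have h2 : ContinuousAt Complex.arg ((1 : Circle) : ℂ) := by
      apply Complex.continuousAt_arg
      simp [Complex.slitPlane]
    have h3 : Continuous (fun z : Circle => (z : ℂ)) := by fun_prop
    exact ContinuousAt.comp (f := fun z : Circle => (z : ℂ)) h2 h3.continuousAt
  have h3 : ContinuousAt (rt n) 1 := by
    unfold rt
    exact Circle.exp.continuous.continuousAt.comp (h1.div_const _)
  have h4 : rt n 1 = 1 := by
    unfold rt
    simp
  have h5 : Tendsto (rt n) (𝓝 1) (𝓝 (rt n 1)) := h3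
  rwa [h4] at h5

variable {I : Type v}

/-- the group `c` -/
def cgrp (F : Filter I) : Subgroup (ℕ → I → Circle) where
  carrier := {t | (∀ n, Tendsto (t n) F (𝓝 1)) ∧
    Tendsto (fun p : ℕ × I => t p.1 p.2) (comap Prod.fst atTop) (𝓝 1)}
  mul_mem' := by
    rintro a b ⟨ha1, ha2⟩ ⟨hb1, hb2⟩
    refine ⟨fun n => ?_, ?_⟩
    · have h := (ha1 n).mul (hb1 n)
      rw [mul_one] at h
      exact h
    · have h := ha2.mul hb2
      rw [mul_one] at h
      exact h
  one_mem' := ⟨fun n => tendsto_const_nhds, tendsto_const_nhds⟩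
  inv_mem' := by
    rintro a ⟨ha1, ha2⟩
    refine ⟨fun n => ?_, ?_⟩
    · have h := (ha1 n).inv
      rw [inv_one] at h
      exact h
    · have h := ha2.inv
      rw [inv_one] at h
      exact h

theorem cgrp_div (F : Filter I) (n : ℕ) (hn : n ≠ 0) (b : cgrp F) : ∃ c : cgrp F, c ^ n = b := by
  refine ⟨⟨fun k i => rt n (b.1 k i), fun k => (rt_tendsto n).comp (b.2.1 k),
    (rt_tendsto n).comp b.2.2⟩, ?_⟩
  apply Subtype.ext
  funext k i
  exact rt_pow hn _

/-- convergence is tested by characters -/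
theorem tendsto_of_chars {X : Type u} [CommGroup X] [TopologicalSpace X] [IsTopologicalGroup X]
    [LocallyCompactSpace X] [T2Space X] {J : Type v} {G : Filter J} {g : J → X} {K : Set X}
    (hK : IsCompact K) (hg : ∀ j, g j ∈ K)
    (h : ∀ d : X →ₜ* Circle, Tendsto (fun j => d (g j)) G (𝓝 1)) : Tendsto g G (𝓝 1) := by
  refine hK.tendsto_nhds_of_unique_mapClusterPt (Eventually.of_forall hg) ?_
  intro y _ hy
  by_contra hne
  obtain ⟨χ, hχc, hχ⟩ := Pool.Agent.R746.LCA.lca_chars y hne
  apply hχ
  have h1 := h ⟨χ, hχc⟩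
  have h2 : MapClusterPt (χ y) G (χ ∘ g) := hy.tendsto_comp (hχc.tendsto y)
  have h3 : Tendsto (χ ∘ g) G (𝓝 1) := h1
  exact tendsto_nhds_unique_of_frequently_eq tendsto_const_nhds tendsto_const_nhds
    (frequently_const.2 (by
      by_contra hne2
      obtain ⟨U, V, hU, hV, hU1, hV1, hUV⟩ := t2_separation hne2
      have h4 := (mapClusterPt_iff_frequently.1 h2) U (hU.mem_nhds hU1)
      have h5 := h3 (hV.mem_nhds hV1)
      obtain ⟨j, hj1, hj2⟩ := (h4.and_eventually h5).exists
      exact Set.disjoint_left.1 hUV hj1 hj2) : ∃ᶠ _ in (⊤ : Filter Unit), χ y = 1)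

end LiftF

open LiftF

theorem t_Lift (hCD : StmCD.{u}) : StmLift.{u, v} := by
  intro X _ _ _ _ _ I F V f hVc hV1 hVi hVm hfV hf
  have hanti : Antitone V := by
    apply antitone_nat_of_succ_le
    intro n x hx
    have := hVm n x hx 1 (hV1 (n + 1))
    rwa [mul_one] at this
  let N : Subgroup X :=
    { carrier := ⋂ n, V n
      mul_mem' := by
        intro a b ha hb
        rw [mem_iInter] at *
        intro n
        exact hVm n a (ha (n + 1)) b (hb (n + 1))
      one_mem' := by
        rw [mem_iInter]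
        exact hV1
      inv_mem' := by
        intro a ha
        rw [mem_iInter] at *
        intro n
        exact hVi n a (ha n) }
  have hNmem : ∀ x : X, x ∈ N ↔ ∀ n, x ∈ V n := fun x => mem_iInter
  have hNc : IsCompact (N : Set X) := by
    have : IsClosed (⋂ n, V n) := isClosed_iInter fun n => (hVc n).isClosed
    exact (hVc 0).of_isClosed_subset this (iInter_subset V 0)
  have : CompactSpace N := isCompact_iff_compactSpace.1 hNc
  -- the homomorphism `Φ`
  let Φ : (X →ₜ* Circle) →* (ℕ → I → Circle) :=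
    { toFun := fun d n i => d (f n i)
      map_one' := rfl
      map_mul' := fun _ _ => rfl }
  let inc : N →ₜ* X := ⟨N.subtype, continuous_subtype_val⟩
  let ρ : (X →ₜ* Circle) →* (N →ₜ* Circle) :=
    { toFun := fun d => d.comp inc
      map_one' := by ext x; rfl
      map_mul' := fun a b => by ext x; rfl }
  have hρ : ∀ (d : X →ₜ* Circle) (x : N), ρ d x = d x := fun _ _ => rfl
  have hker : ∀ d : X →ₜ* Circle, d ∈ ρ.ker ↔ ∀ x ∈ N, d x = 1 := by
    intro d
    rw [MonoidHom.mem_ker]
    constructor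
    · intro h x hx
      have := DFunLike.congr_fun h (⟨x, hx⟩ : N)
      exact this
    · intro h
      ext x
      exact congrArg _ (h x x.2)
  have hΦc : ∀ d ∈ ρ.ker, Φ d ∈ cgrp F := by
    intro d hd
    rw [hker] at hd
    refine ⟨fun n => ?_, ?_⟩
    · have h1 : Tendsto (fun x => d x) (𝓝 1) (𝓝 (d 1)) := d.continuous_toFun.tendsto 1
      rw [map_one] at h1
      exact h1.comp (hf n)
    · intro W hW
      have h1 : ∃ n, V n ⊆ {x | d x ∈ W} := by
        apply exists_subset_nhds_of_isCompact (directed_of_isDirected_le fun _ _ h => hanti h) hVc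
        intro x hx
        have h2 : Tendsto (fun x => d x) (𝓝 x) (𝓝 (d x)) := d.continuous_toFun.tendsto x
        apply h2
        rw [hd x hx]
        exact hW
      obtain ⟨n, hn⟩ := h1
      have h3 : ∀ᶠ p : ℕ × I in comap Prod.fst atTop, n ≤ p.1 :=
        tendsto_comap.eventually (eventually_ge_atTop n)
      rw [mem_map]
      filter_upwards [h3] with p hp
      exact hn (hanti hp (hfV p.1 p.2))
  -- extension
  let Φ0 : ρ.ker →* cgrp F := (Φ.comp ρ.ker.subtype).codRestrict (cgrp F) fun d => hΦc d.1 d.2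
  obtain ⟨Ψ, hΨ⟩ := extend_div ρ.ker (cgrp_div F) Φ0
  have hΨ' : ∀ d ∈ ρ.ker, ∀ n i, (Ψ d).1 n i = d (f n i) := by
    intro d hd n i
    have := hΨ ⟨d, hd⟩
    have h2 : (Ψ d).1 = Φ d := congrArg Subtype.val this
    rw [h2]
    rfl
  -- the points `y`
  have key : ∀ (n : ℕ) (i : I), ∃ x : N, ∀ d : X →ₜ* Circle,
      d x = d (f n i) * ((Ψ d).1 n i)⁻¹ := by
    intro n i
    let φ : (X →ₜ* Circle) →* Circle :=
      { toFun := fun d => d (f n i) * ((Ψ d).1 n i)⁻¹
        map_one' := by
          rw [map_one]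
          change (1 : Circle) * (1 : Circle)⁻¹ = 1
          simp
        map_mul' := by
          intro a b
          rw [map_mul]
          change a (f n i) * b (f n i) * ((Ψ a).1 n i * (Ψ b).1 n i)⁻¹ = _
          rw [mul_inv]
          exact mul_mul_mul_comm _ _ _ _ }
    have hφ : ∀ d ∈ ρ.ker, φ d = 1 := by
      intro d hd
      change d (f n i) * ((Ψ d).1 n i)⁻¹ = 1
      rw [hΨ' d hd, mul_inv_cancel]
    have hle : ρ.rangeRestrict.ker ≤ φ.ker := by
      intro d hd
      rw [MonoidHom.ker_rangeRestrict] at hd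
      exact hφ d hd
    let φ' : ρ.range →* Circle :=
      MonoidHom.liftOfRightInverse ρ.rangeRestrict _
        (Function.rightInverse_surjInv ρ.rangeRestrict_surjective) ⟨φ, hle⟩
    have hφ' : ∀ d, φ' (ρ.rangeRestrict d) = φ d := by
      intro d
      exact MonoidHom.liftOfRightInverse_comp_apply _ _ _ ⟨φ, hle⟩ d
    obtain ⟨x, hx⟩ := hCD N ρ.range φ'
    refine ⟨x, fun d => ?_⟩
    have h1 := hx (ρ.rangeRestrict d)
    rw [hφ'] at h1
    exact h1.symm
  choose y hy using key
  refine ⟨fun n i => (y n i : X), fun n i k => (hNmem _).1 (y n i).2 k, fun n => ?_, ?_⟩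
  · refine tendsto_of_chars (hVc 0) (fun i => (hNmem _).1 (y n i).2 0) fun d => ?_
    have h1 : Tendsto (fun x => d x) (𝓝 1) (𝓝 (d 1)) := d.continuous_toFun.tendsto 1
    rw [map_one] at h1
    have h2 := (h1.comp (hf n)).mul ((Ψ d).2.1 n).inv
    rw [inv_one, mul_one] at h2
    refine h2.congr fun i => ?_
    exact (hy n i d).symm
  · intro W hW
    have h1 : Tendsto (fun p : ℕ × I => f p.1 p.2 * (y p.1 p.2 : X)⁻¹) (comap Prod.fst atTop)
        (𝓝 1) := by
      refine tendsto_of_chars ((hVc 0).mul (hVc 0)) (fun p => ?_) fun d => ?_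
      · exact Set.mul_mem_mul (hanti (Nat.zero_le _) (hfV p.1 p.2))
          (hVi 0 _ ((hNmem _).1 (y p.1 p.2).2 0))
      · refine (Ψ d).2.2.congr fun p => ?_
        rw [map_mul, map_inv, hy, mul_inv, inv_inv, mul_inv_cancel_left]
    have h2 := h1 hW
    rw [mem_map, mem_comap] at h2
    obtain ⟨t, ht, hts⟩ := h2
    filter_upwards [ht] with n hn i
    exact hts (show (n, i) ∈ Prod.fst ⁻¹' t from hn)

end Pool.Agent.R657.UG
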