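import Mathlib
import Pool.Agent.R657.UG.Basic

/-! # Project UG: uniform groups of families -/

set_option autoImplicit false
set_option linter.unusedSectionVars false

namespace Pool.Agent.R657.UG

open Topology Filter Set

universe u v

/-- total boundedness in a uniform group -/
lemma tb_iff {X : Type u} [CommGroup X] [UniformSpace X] [IsUniformGroup X] {s : Set X} :
    TotallyBounded s ↔ ∀ U ∈ 𝓝 (1 : X), ∃ t : Set X, t.Finite ∧ ∀ x ∈ s, ∃ y ∈ t, x / y ∈ U := by
  have hb : (uniformity X).HasBasis (fun U : Set X => U ∈ 𝓝 (1 : X))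
      (fun U => (fun q : X × X => q.1 / q.2) ⁻¹' U) := by
    rw [uniformity_eq_comap_nhds_one_swapped]
    exact (basis_sets _).comap _
  rw [hb.totallyBounded_iff]
  refine forall₂_congr fun U _ => ?_
  constructor
  · rintro ⟨t, ht, hs⟩
    refine ⟨t, ht, fun x hx => ?_⟩
    have := hs hx
    simp only [mem_iUnion] at this
    obtain ⟨y, hy, h⟩ := this
    exact ⟨y, hy, h⟩
  · rintro ⟨t, ht, hs⟩
    refine ⟨t, ht, fun x hx => ?_⟩
    obtain ⟨y, hy, h⟩ := hs x hx
    simp only [mem_iUnion]
    exact ⟨y, hy, h⟩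

lemma tb_mul {X : Type u} [CommGroup X] [UniformSpace X] [IsUniformGroup X] {s t : Set X}
    (hs : TotallyBounded s) (ht : TotallyBounded t) :
    TotallyBounded ((fun p : X × X => p.1 * p.2) '' (s ×ˢ t)) := by
  rw [tb_iff] at *
  intro U hU
  obtain ⟨V, hV, hVU⟩ := exists_nhds_one_split hU
  obtain ⟨a, ha, ha2⟩ := hs V hV
  obtain ⟨b, hb, hb2⟩ := ht V hV
  refine ⟨(fun p : X × X => p.1 * p.2) '' (a ×ˢ b), (ha.prod hb).image _, ?_⟩
  rintro _ ⟨⟨x, y⟩, ⟨hx, hy⟩, rfl⟩
  obtain ⟨x', hx', hxV⟩ := ha2 x hx
  obtain ⟨y', hy', hyV⟩ := hb2 y hy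
  refine ⟨x' * y', ⟨(x', y'), ⟨hx', hy'⟩, rfl⟩, ?_⟩
  have := hVU _ hxV _ hyV
  rwa [div_mul_div_comm] at this

variable (X : Type u) [CommGroup X] [UniformSpace X] [IsUniformGroup X] (I : Type v)

/-- the subgroup of the families with precompact range which tend to `1` along the filter `F`, in the
group `X ^ I` with the uniform topology -/
def FamSub (F : Filter I) : Subgroup (UniformFun I X) where
  carrier := {f | TotallyBounded (range (UniformFun.toFun f)) ∧
    Tendsto (UniformFun.toFun f) F (𝓝 1)}
  mul_mem' := by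
    rintro f g ⟨hf1, hf2⟩ ⟨hg1, hg2⟩
    refine ⟨?_, ?_⟩
    · refine (tb_mul hf1 hg1).subset ?_
      rintro _ ⟨i, rfl⟩
      exact ⟨(UniformFun.toFun f i, UniformFun.toFun g i), ⟨mem_range_self i, mem_range_self i⟩, rfl⟩
    · have := hf2.mul hg2
      rw [mul_one] at this
      exact this
  one_mem' := by
    refine ⟨?_, ?_⟩
    · have : range (UniformFun.toFun (1 : UniformFun I X)) ⊆ {1} := by
        rintro _ ⟨i, rfl⟩
        rfl
      exact (finite_singleton (1 : X)).totallyBounded.subset this
    · exact tendsto_const_nhds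
  inv_mem' := by
    rintro f ⟨hf1, hf2⟩
    refine ⟨?_, ?_⟩
    · have h : TotallyBounded ((fun p : X => p⁻¹) '' (range (UniformFun.toFun f))) :=
        hf1.image uniformContinuous_inv
      refine h.subset ?_
      rintro _ ⟨i, rfl⟩
      exact ⟨UniformFun.toFun f i, mem_range_self i, rfl⟩
    · have := hf2.inv
      rw [inv_one] at this
      exact this

/-- the group of families -/
abbrev Fam (F : Filter I) : Type (max u v) := FamSub X I F

variable {X I} {F : Filter I}

/-- the underlying function of a family -/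
def fn (g : Fam X I F) : I → X := UniformFun.toFun g.1

lemma fn_tb (g : Fam X I F) : TotallyBounded (range (fn g)) := g.2.1

lemma fn_tendsto (g : Fam X I F) : Tendsto (fn g) F (𝓝 1) := g.2.2

/-- constructor -/
def mkF (f : I → X) (h1 : TotallyBounded (range f)) (h2 : Tendsto f F (𝓝 1)) : Fam X I F :=
  ⟨UniformFun.ofFun f, h1, h2⟩

@[simp] lemma fn_mkF (f : I → X) (h1 : TotallyBounded (range f)) (h2 : Tendsto f F (𝓝 1)) :
    fn (mkF f h1 h2) = f := rfl

@[simp] lemma fn_one : fn (1 : Fam X I F) = 1 := rfl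

@[simp] lemma fn_mul (f g : Fam X I F) : fn (f * g) = fn f * fn g := rfl

@[simp] lemma fn_inv (f : Fam X I F) : fn (f⁻¹) = (fn f)⁻¹ := rfl

lemma fn_mul_apply (f g : Fam X I F) (i : I) : fn (f * g) i = fn f i * fn g i := rfl

lemma fn_injective : Function.Injective (fn : Fam X I F → I → X) := by
  intro f g h
  exact Subtype.ext h

lemma fn_prod {ι : Type*} (s : Finset ι) (f : ι → Fam X I F) (i : I) :
    fn (∏ k ∈ s, f k) i = ∏ k ∈ s, fn (f k) i := by
  classical
  induction s using Finset.induction_on with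
  | empty => simp
  | insert a s ha ih => rw [Finset.prod_insert ha, Finset.prod_insert ha, fn_mul, Pi.mul_apply, ih]

/-- neighbourhoods of `1` -/
lemma mem_nhds_fam {s : Set (Fam X I F)} :
    s ∈ 𝓝 (1 : Fam X I F) ↔ ∃ U ∈ 𝓝 (1 : X), {g : Fam X I F | ∀ i, fn g i ∈ U} ⊆ s := by
  have h := (UniformFun.hasBasis_nhds_one (α := I) (G := X)).comap
    (Subtype.val : Fam X I F → UniformFun I X)
  rw [nhds_subtype_eq_comap]
  exact h.mem_iff

lemma fam_nhds {U : Set X} (hU : U ∈ 𝓝 (1 : X)) :
    {g : Fam X I F | ∀ i, fn g i ∈ U} ∈ 𝓝 (1 : Fam X I F) :=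
  mem_nhds_fam.2 ⟨U, hU, subset_rfl⟩

/-- make a continuous homomorphism -/
def mkC {A B : Type*} [Group A] [TopologicalSpace A] [IsTopologicalGroup A] [Group B]
    [TopologicalSpace B] [IsTopologicalGroup B] (φ : A →* B) (h : ∀ s ∈ 𝓝 (1 : B), φ ⁻¹' s ∈ 𝓝 (1 : A)) :
    A →ₜ* B where
  toMonoidHom := φ
  continuous_toFun := by
    have : Continuous φ := by
      apply continuous_of_continuousAt_one φ
      rw [ContinuousAt, map_one]
      exact h
    exact this

/-- coordinate evaluation -/
def evk (k : I) : Fam X I F →ₜ* X :=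
  mkC { toFun := fun g => fn g k, map_one' := rfl, map_mul' := fun _ _ => rfl }
    (fun _ hU => Filter.mem_of_superset (fam_nhds hU) fun _ hg => hg k)

@[simp] lemma evk_apply (k : I) (g : Fam X I F) : evk k g = fn g k := rfl

/-- extension by `1` -/
def ext1 (f : I → X) (o : Option I) : X := o.elim 1 f

@[simp] lemma ext1_none (f : I → X) : ext1 f none = 1 := rfl
@[simp] lemma ext1_some (f : I → X) (k : I) : ext1 f (some k) = f k := rfl

lemma ext1_mul (f g : I → X) (o : Option I) : ext1 (f * g) o = ext1 f o * ext1 g o := by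
  cases o <;> simp

lemma range_ext1_finite (f : I → X) (p : I → Option I) (hp : (range p).Finite) :
    (range fun i => ext1 f (p i)).Finite := by
  have : (range fun i => ext1 f (p i)) = ext1 f '' range p := by
    rw [← range_comp]; rfl
  rw [this]
  exact hp.image _

lemma tendsto_ext1 (f : I → X) (p : I → Option I) (hF : ∀ᶠ i in F, p i = none) :
    Tendsto (fun i => ext1 f (p i)) F (𝓝 1) := by
  apply tendsto_const_nhds.congr'
  filter_upwards [hF] with i hi
  rw [hi]; rfl

/-- replace `f` by the finitely valued family `f ∘ p` -/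
def Pp (p : I → Option I) (hp : (range p).Finite) (hF : ∀ᶠ i in F, p i = none) :
    Fam X I F →ₜ* Fam X I F :=
  mkC
  { toFun := fun g => mkF (fun i => ext1 (fn g) (p i)) (range_ext1_finite _ p hp).totallyBounded
      (tendsto_ext1 _ p hF)
    map_one' := by
      apply fn_injective
      funext i
      rw [fn_mkF]
      cases p i <;> rfl
    map_mul' := fun f g => by
      apply fn_injective
      funext i
      exact ext1_mul _ _ _ }
  (fun s hs => by
    obtain ⟨U, hU, hUs⟩ := mem_nhds_fam.1 hs
    refine Filter.mem_of_superset (fam_nhds hU) fun g hg => hUs ?_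
    intro i
    show ext1 (fn g) (p i) ∈ U
    cases p i with
    | none => exact mem_of_mem_nhds hU
    | some k => exact hg k)

@[simp] lemma fn_Pp (p : I → Option I) (hp : (range p).Finite) (hF : ∀ᶠ i in F, p i = none)
    (g : Fam X I F) (i : I) : fn (Pp p hp hF g) i = ext1 (fn g) (p i) := rfl

open Classical in
lemma ind_tb (p : I → Option I) (k : I) (x : X) :
    TotallyBounded (range fun i => if p i = some k then x else 1) := by
  apply Set.Finite.totallyBounded
  refine (Set.toFinite ({x, 1} : Set X)).subset ?_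
  rintro _ ⟨i, rfl⟩
  by_cases h : p i = some k
  · simp [h]
  · simp [h]

open Classical in
lemma ind_tendsto (p : I → Option I) (hF : ∀ᶠ i in F, p i = none) (k : I) (x : X) :
    Tendsto (fun i => if p i = some k then x else 1) F (𝓝 1) := by
  apply tendsto_const_nhds.congr'
  filter_upwards [hF] with i hi
  simp [hi]

open Classical in
/-- the family with value `x` on `p ⁻¹ (some k)` and `1` elsewhere -/
noncomputable def indH (p : I → Option I) (hF : ∀ᶠ i in F, p i = none) (k : I) : X →ₜ* Fam X I F :=
  mkC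
  { toFun := fun x => mkF (fun i => if p i = some k then x else 1) (ind_tb p k x)
      (ind_tendsto p hF k x)
    map_one' := by
      apply fn_injective
      funext i
      simp
    map_mul' := fun x y => by
      apply fn_injective
      funext i
      by_cases h : p i = some k <;> simp [h] }
  (fun s hs => by
    obtain ⟨U, hU, hUs⟩ := mem_nhds_fam.1 hs
    refine Filter.mem_of_superset hU fun x hx => hUs ?_
    intro i
    show (if p i = some k then x else 1) ∈ U
    by_cases h : p i = some k
    · rw [if_pos h]; exact hx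
    · rw [if_neg h]; exact mem_of_mem_nhds hU)

open Classical in
@[simp] lemma fn_indH (p : I → Option I) (hF : ∀ᶠ i in F, p i = none) (k : I) (x : X) (i : I) :
    fn (indH p hF k x) i = if p i = some k then x else 1 := rfl

/-- `P g` is a finite product of indicator families -/
lemma Pp_eq_prod (p : I → Option I) (hp : (range p).Finite) (hF : ∀ᶠ i in F, p i = none)
    (g : Fam X I F) : ∃ K : Finset I, Pp p hp hF g = ∏ k ∈ K, indH p hF k (fn g k) := by
  classical
  have hK : {k : I | some k ∈ range p}.Finite := hp.preimage (Option.some_injective I).injOn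
  refine ⟨hK.toFinset, ?_⟩
  apply fn_injective
  funext i
  rw [fn_prod, fn_Pp]
  simp only [fn_indH]
  cases h : p i with
  | none => simp
  | some k =>
    rw [Finset.prod_eq_single k]
    · simp
    · intro b _ hb
      rw [if_neg]
      intro h2
      exact hb (Option.some_injective I h2).symm
    · intro hk
      exfalso
      apply hk
      rw [Finite.mem_toFinset]
      exact ⟨i, h⟩

/-- simultaneous approximation of finitely many families -/
lemma exists_net (s : Finset (Fam X I F)) {U : Set X} (hU : U ∈ 𝓝 (1 : X)) :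
    ∃ q : I → I, (range q).Finite ∧ ∀ f ∈ s, ∀ i, fn f i / fn f (q i) ∈ U := by
  classical
  obtain ⟨V, hV, hVU⟩ := exists_nhds_split_inv hU
  -- V / V ⊆ U
  have h1 : ∀ f : Fam X I F, ∃ c : I → I, (range c).Finite ∧ ∀ i, fn f i / fn f (c i) ∈ V := by
    intro f
    obtain ⟨W, hW, hWV⟩ := exists_nhds_split_inv hV
    obtain ⟨t, htf, hts⟩ := tb_iff.1 (fn_tb f) W hW
    have h2 : ∀ i, ∃ y ∈ t, fn f i / y ∈ W := fun i => hts _ (mem_range_self i)
    choose y hy hyV using h2
    have hy2 : ∀ i, ∃ k, y k = y i := fun i => ⟨i, rfl⟩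
    have hyf : (range y).Finite := htf.subset (by rintro _ ⟨i, rfl⟩; exact hy i)
    refine ⟨fun i => (⟨y i, mem_range_self i⟩ : range y).2.choose, ?_, fun i => ?_⟩
    · have : Finite (range y) := hyf
      refine (Set.finite_range fun w : range y => w.2.choose).subset ?_
      rintro _ ⟨i, rfl⟩
      exact ⟨⟨y i, mem_range_self i⟩, rfl⟩
    · have h3 : y ((⟨y i, mem_range_self i⟩ : range y).2.choose) = y i :=
        (⟨y i, mem_range_self i⟩ : range y).2.choose_spec
      have h4 := hWV _ (hyV i) _ (hyV ((⟨y i, mem_range_self i⟩ : range y).2.choose))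
      rw [h3, div_div_div_cancel_right] at h4
      exact h4
  choose c hc1 hc2 using h1
  -- combined map
  let P : I → (s → I) := fun i f => c f i
  have hP : (range P).Finite := by
    refine (Set.Finite.pi' (t := fun f : s => range (c f)) fun f => hc1 f).subset ?_
    rintro _ ⟨i, rfl⟩ f
    exact ⟨i, rfl⟩
  refine ⟨fun i => (⟨P i, mem_range_self i⟩ : range P).2.choose, ?_, fun f hf i => ?_⟩
  · have : Finite (range P) := hP
    refine (Set.finite_range fun w : range P => w.2.choose).subset ?_
    rintro _ ⟨i, rfl⟩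
    exact ⟨⟨P i, mem_range_self i⟩, rfl⟩
  · have h5 : P ((⟨P i, mem_range_self i⟩ : range P).2.choose) = P i :=
      (⟨P i, mem_range_self i⟩ : range P).2.choose_spec
    have h6 : c f ((⟨P i, mem_range_self i⟩ : range P).2.choose) = c f i := congrFun h5 ⟨f, hf⟩
    have h7 := hVU _ (hc2 f i) _ (hc2 f ((⟨P i, mem_range_self i⟩ : range P).2.choose))
    rw [h6, div_div_div_cancel_right] at h7
    exact h7

/-- **Step A.** -/
theorem stepA {C : Set (Fam X I F)} (hC : IsCompact C) {U : Set X} (hU : U ∈ 𝓝 (1 : X)) :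
    ∃ p : I → Option I, (range p).Finite ∧ (∀ᶠ i in F, p i = none) ∧
      ∀ f ∈ C, ∀ i, fn f i / ext1 (fn f) (p i) ∈ U := by
  classical
  -- V * V * V ⊆ U
  obtain ⟨V1, hV1, hV1U⟩ := exists_nhds_one_split hU
  obtain ⟨V, hV, hVV⟩ := exists_nhds_split_inv hV1
  have h1V : (1 : X) ∈ V := mem_of_mem_nhds hV
  have hVV1 : V ⊆ V1 := fun x hx => by
    have := hVV x hx 1 h1V
    rwa [div_one] at this
  obtain ⟨s, hsC, hs⟩ := hC.elim_nhds_subcover
    (fun f => {g : Fam X I F | ∀ i, fn (g / f) i ∈ V ∧ fn (f / g) i ∈ V}) (by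
      intro f _
      have hc : ContinuousAt (fun g : Fam X I F => g / f) f := by fun_prop
      have hc2 : ContinuousAt (fun g : Fam X I F => f / g) f := by fun_prop
      have e1 := hc.preimage_mem_nhds (t := {g : Fam X I F | ∀ i, fn g i ∈ V}) (by
        rw [div_self']
        exact fam_nhds hV)
      have e2 := hc2.preimage_mem_nhds (t := {g : Fam X I F | ∀ i, fn g i ∈ V}) (by
        rw [div_self']
        exact fam_nhds hV)
      filter_upwards [e1, e2] with g h1 h2 i
      exact ⟨h1 i, h2 i⟩)
  obtain ⟨q, hq, hqU⟩ := exists_net s hV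
  let p : I → Option I := fun i => if ∀ f ∈ s, fn f i ∈ V then none else some (q i)
  refine ⟨p, ?_, ?_, ?_⟩
  · refine ((hq.image some).insert none).subset ?_
    rintro _ ⟨i, rfl⟩
    by_cases h : ∀ f ∈ s, fn f i ∈ V
    · left
      simp only [p, if_pos h]
    · right
      exact ⟨q i, mem_range_self i, by simp only [p, if_neg h]⟩
  · have : ∀ᶠ i in F, ∀ f ∈ s, fn f i ∈ V := by
      rw [Filter.eventually_all_finset]
      intro f _
      exact fn_tendsto f hV
    filter_upwards [this] with i hi
    simp only [p, if_pos hi]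
  · intro f hf i
    have := hs hf
    simp only [mem_iUnion] at this
    obtain ⟨f0, hf0, hff⟩ := this
    by_cases h : ∀ f ∈ s, fn f i ∈ V
    · have e : p i = none := by simp only [p, if_pos h]
      rw [e, ext1_none, div_one]
      have h1 : fn f i = fn (f / f0) i * fn f0 i := by
        rw [div_eq_mul_inv, fn_mul, fn_inv, Pi.mul_apply, Pi.inv_apply, inv_mul_cancel_right]
      rw [h1]
      exact hV1U _ (hVV1 (hff i).1) _ (hVV1 (h f0 hf0))
    · have e : p i = some (q i) := by simp only [p, if_neg h]
      rw [e, ext1_some]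
      have h1 : fn f i / fn f (q i) =
          (fn (f / f0) i) * ((fn f0 i / fn f0 (q i)) / fn (f / f0) (q i)) := by
        simp only [div_eq_mul_inv, fn_mul, fn_inv, Pi.mul_apply, Pi.inv_apply, mul_inv_rev, inv_inv]
        group
      rw [h1]
      refine hV1U _ (hVV1 (hff i).1) _ ?_
      exact hVV _ (hqU f0 hf0 i) _ (hff (q i)).1

end Pool.Agent.R657.UG
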