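import Mathlib
import Pool.Agent.R657.UG.Fam

/-! # Project UG: reflexivity of the uniform groups of families -/

set_option autoImplicit false
set_option linter.unusedSectionVars false

namespace Pool.Agent.R657.UG

open Topology Filter Set

universe u v

variable {X : Type u} [CommGroup X] [UniformSpace X] [IsUniformGroup X] [LocallyCompactSpace X]
  [T2Space X] {I : Type v} {F : Filter I}

lemma dual_div_apply {G : Type*} [CommGroup G] [TopologicalSpace G] (χ ψ : G →ₜ* Circle) (g : G) :
    (χ / ψ) g = χ g / ψ g := map_div (evC g) χ ψ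

/-- coordinate evaluation, extended by `1` -/
noncomputable def evo (o : Option I) : Fam X I F →ₜ* X :=
  match o with
  | none => 1
  | some k => evk k

lemma evo_apply (o : Option I) (g : Fam X I F) : evo o g = ext1 (fn g) o := by
  cases o <;> rfl

theorem fam_surj (hX : Reflexive X) : SurjEv (Fam X I F) := by
  classical
  intro ξ
  have hg0 : ∀ k : I, ∃ x : X, ∀ χ : X →ₜ* Circle, ξ (χ.comp (evk k)) = χ x := by
    intro k
    exact hX.surjEv (ξ.comp (ContinuousMonoidHom.compLeft Circle (evk k)))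
  choose g hg using hg0
  have hgo : ∀ (o : Option I) (χ : X →ₜ* Circle), ξ (χ.comp (evo o)) = χ (ext1 g o) := by
    intro o χ
    cases o with
    | none =>
      have : χ.comp (evo none : Fam X I F →ₜ* X) = 1 := by
        ext f
        show ((χ (1 : X) : Circle) : ℂ) = _
        rw [map_one]
        rfl
      rw [this, map_one, ext1_none, map_one]
    | some k => exact hg k χ
  -- approximation of `g`
  have happ : ∀ W ∈ 𝓝 (1 : X), ∃ p : I → Option I, (range p).Finite ∧ (∀ᶠ i in F, p i = none) ∧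
      ∀ i, g i / ext1 g (p i) ∈ W := by
    intro W hW
    obtain ⟨Q, hQ, ε, hε, hQW⟩ := hX.openB hW
    obtain ⟨C, hC, δ, hδ, hCδ⟩ := exists_of_continuous ξ hε
    obtain ⟨p, hp, hpF, hpU⟩ := stepA hC (lc_equi hQ hδ)
    refine ⟨p, hp, hpF, fun i => hQW ?_⟩
    intro χ hχ
    have h1 : nm (ξ (χ.comp (evo (some i)) / χ.comp (evo (p i)))) < ε := by
      apply hCδ
      intro f hf
      have h2 := hpU f hf i χ hχ
      have e : (χ.comp (evo (some i)) / χ.comp (evo (p i)) : Fam X I F →ₜ* Circle) f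
          = χ (fn f i / ext1 (fn f) (p i)) := by
        rw [map_div, dual_div_apply]
        show χ (evo (some i) f) / χ (evo (p i) f) = _
        rw [evo_apply, evo_apply, ext1_some]
      rw [e]
      exact h2
    rw [map_div, hgo, hgo, ext1_some, ← map_div] at h1
    exact h1.le
  have htb : TotallyBounded (range g) := by
    rw [tb_iff]
    intro U hU
    obtain ⟨p, hp, -, hpU⟩ := happ U hU
    refine ⟨_, range_ext1_finite g p hp, ?_⟩
    rintro _ ⟨i, rfl⟩
    exact ⟨_, mem_range_self i, hpU i⟩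
  have htd : Tendsto g F (𝓝 1) := by
    intro U hU
    obtain ⟨p, -, hpF, hpU⟩ := happ U hU
    rw [mem_map]
    filter_upwards [hpF] with i hi
    have := hpU i
    rwa [hi, ext1_none, div_one] at this
  let G : Fam X I F := mkF g htb htd
  refine ⟨G, fun h => ?_⟩
  -- `ξ h = h G`
  have key : ∀ ε : ℝ, 0 < ε → nm (ξ h / h G) ≤ ε + 2 * ε := by
    intro ε hε
    obtain ⟨C, hC, δ, hδ, hCδ⟩ := exists_of_continuous ξ hε
    set δ' := min δ ε with hδ'
    have hδ'pos : 0 < δ' := lt_min hδ hε
    have hU0 : {f : Fam X I F | nm (h f) ≤ δ'} ∈ 𝓝 (1 : Fam X I F) := by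
      have hc : ContinuousAt (fun f : Fam X I F => h f) 1 := h.continuous_toFun.continuousAt
      have := hc.preimage_mem_nhds (t := {z | nm z < δ'}) (by
        rw [map_one]
        exact nm_lt_mem_nhds hδ'pos)
      refine Filter.mem_of_superset this fun f hf => ?_
      exact le_of_lt (show nm (h f) < δ' from hf)
    obtain ⟨U, hU, hUs⟩ := mem_nhds_fam.1 hU0
    obtain ⟨p, hp, hpF, hpU⟩ := stepA (hC.insert G) hU
    have hclose : ∀ f ∈ insert G C, nm (h f / h (Pp p hp hpF f)) ≤ δ' := by
      intro f hf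
      rw [← map_div]
      apply hUs
      intro i
      exact hpU f hf i
    have h1 : nm (ξ (h / h.comp (Pp p hp hpF))) < ε := by
      apply hCδ
      intro f hf
      rw [dual_div_apply]
      exact (hclose f (mem_insert_of_mem _ hf)).trans (min_le_left _ _)
    -- value on `h ∘ P`
    have hK : {k : I | some k ∈ range p}.Finite := hp.preimage (Option.some_injective I).injOn
    have h2 : ξ (h.comp (Pp p hp hpF)) = h (Pp p hp hpF G) := by
      have e1 : ∀ f : Fam X I F, Pp p hp hpF f = ∏ k ∈ hK.toFinset, indH p hpF k (fn f k) := by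
        intro f
        apply fn_injective
        funext i
        rw [fn_prod, fn_Pp]
        simp only [fn_indH]
        cases h : p i with
        | none => simp
        | some k =>
          rw [Finset.prod_eq_single k]
          · simp
          · intro b _ hb
            rw [if_neg]
            intro h2
            exact hb (Option.some_injective I h2).symm
          · intro hk
            exfalso
            apply hk
            rw [Finite.mem_toFinset]
            exact ⟨i, h⟩
      have e2 : h.comp (Pp p hp hpF) =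
          ∏ k ∈ hK.toFinset, ((h.comp (indH p hpF k)).comp (evk k) : Fam X I F →ₜ* Circle) := by
        ext f
        have e3 : (∏ k ∈ hK.toFinset, ((h.comp (indH p hpF k)).comp (evk k) : Fam X I F →ₜ* Circle)) f
            = ∏ k ∈ hK.toFinset, h (indH p hpF k (fn f k)) := by
          have := map_prod (evC f) (fun k => ((h.comp (indH p hpF k)).comp (evk k) :
            Fam X I F →ₜ* Circle)) hK.toFinset
          exact this
        rw [e3]
        show ((h (Pp p hp hpF f) : Circle) : ℂ) = _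
        rw [e1 f, map_prod]
      rw [e2, map_prod, e1 G, map_prod]
      apply Finset.prod_congr rfl
      intro k _
      exact hg k (h.comp (indH p hpF k))
    have h3 : nm (h G / h (Pp p hp hpF G)) ≤ ε :=
      (hclose G (mem_insert _ _)).trans (min_le_right _ _)
    rw [map_div, h2] at h1
    have h4 : ξ h / h G = (ξ h / h (Pp p hp hpF G)) / (h G / h (Pp p hp hpF G)) := by
      rw [div_div_div_cancel_right]
    rw [h4]
    refine (nm_div_le _ _).trans ?_
    linarith
  have hz : nm (ξ h / h G) = 0 := by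
    apply le_antisymm _ (nm_nonneg _)
    by_contra hcon
    push Not at hcon
    have := key (nm (ξ h / h G) / 6) (by positivity)
    linarith
  rw [nm_eq_zero, div_eq_one] at hz
  exact hz

theorem fam_inj (hX : Reflexive X) (g : Fam X I F) (h : ∀ χ : Fam X I F →ₜ* Circle, χ g = 1) :
    g = 1 := by
  apply fn_injective
  funext k
  exact hX.inj (fn g k) fun χ => h (χ.comp (evk k))

theorem fam_open (hX : Reflexive X) (U : Set (Fam X I F)) (hU : U ∈ 𝓝 (1 : Fam X I F)) :
    ∃ Q : Set (Fam X I F →ₜ* Circle), IsCompact Q ∧ ∃ ε : ℝ, 0 < ε ∧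
      {x : Fam X I F | ∀ χ ∈ Q, nm (χ x) ≤ ε} ⊆ U := by
  obtain ⟨U0, hU0, hU0U⟩ := mem_nhds_fam.1 hU
  obtain ⟨Q', hQ', ε, hε, hQU⟩ := hX.openB hU0
  refine ⟨_, isCompact_polar (fam_nhds (lc_equi hQ' one_pos)), ε, hε, fun f hf => hU0U ?_⟩
  intro k
  apply hQU
  intro χ hχ
  exact hf (χ.comp (evk k)) fun g hg => hg k χ hχ

/-- continuity, from the lifting lemma -/
theorem fam_cont (hLift : StmLift.{u, v}) (Q : Set (Fam X I F →ₜ* Circle)) (hQ : IsCompact Q)
    (ε : ℝ) (hε : 0 < ε) : {x : Fam X I F | ∀ χ ∈ Q, nm (χ x) ≤ ε} ∈ 𝓝 (1 : Fam X I F) := by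
  classical
  by_contra hcon
  have hbad : ∀ V ∈ 𝓝 (1 : X), ∃ (f : Fam X I F) (h : Fam X I F →ₜ* Circle),
      (∀ i, fn f i ∈ V) ∧ h ∈ Q ∧ ε < nm (h f) := by
    intro V hV
    by_contra hc
    push Not at hc
    apply hcon
    refine Filter.mem_of_superset (fam_nhds hV) fun f hf χ hχ => ?_
    exact hc f χ hf hχ
  let St := {V : Set X // IsCompact V ∧ V ∈ 𝓝 (1 : X) ∧ ∀ x ∈ V, x⁻¹ ∈ V}
  have hst : ∀ V : St, ∃ (f : Fam X I F) (h : Fam X I F →ₜ* Circle),
      (∀ i, fn f i ∈ V.1) ∧ h ∈ Q ∧ ε < nm (h f) := fun V => hbad V.1 V.2.2.1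
  choose fs hs hfs using hst
  -- small compact symmetric neighbourhoods
  have hsmall : ∀ W ∈ 𝓝 (1 : X), ∃ V : St, V.1 ⊆ W := by
    intro W hW
    obtain ⟨K, ⟨hK, hKc⟩, hKW⟩ := (compact_basis_nhds (1 : X)).mem_iff.1 hW
    refine ⟨⟨K ∩ K⁻¹, ?_, ?_, ?_⟩, ?_⟩
    · exact hKc.inter_right hKc.inv.isClosed
    · refine Filter.inter_mem hK ?_
      have := inv_mem_nhds_one X hK
      exact this
    · rintro x ⟨hx, hx'⟩
      exact ⟨hx', by simpa using hx⟩
    · exact fun x hx => hKW hx.1
  have hnext : ∀ (n : ℕ) (s : St × Finset (Fam X I F →ₜ* Circle)),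
      ∃ s' : St × Finset (Fam X I F →ₜ* Circle),
        (∀ x ∈ s'.1.1, ∀ y ∈ s'.1.1, x * y ∈ s.1.1) ∧ s'.2 = insert (hs s.1) s.2 ∧
        ∀ h ∈ s'.2, ∀ f : Fam X I F, (∀ i, fn f i ∈ s'.1.1) → nm (h f) ≤ 1 / (n + 1) := by
    intro n s
    obtain ⟨W1, hW1, hW1s⟩ := exists_nhds_one_split s.1.2.2.1
    have h2 : ∀ h : Fam X I F →ₜ* Circle, ∃ U ∈ 𝓝 (1 : X), ∀ f : Fam X I F, (∀ i, fn f i ∈ U) →
        nm (h f) ≤ 1 / (n + 1) := by
      intro h
      have hpos : (0 : ℝ) < 1 / (n + 1) := by positivity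
      have hc : ContinuousAt (fun f : Fam X I F => h f) 1 := h.continuous_toFun.continuousAt
      have := hc.preimage_mem_nhds (t := {z | nm z < 1 / (n + 1)}) (by
        rw [map_one]
        exact nm_lt_mem_nhds hpos)
      obtain ⟨U, hU, hUs⟩ := mem_nhds_fam.1 this
      exact ⟨U, hU, fun f hf => le_of_lt (hUs hf)⟩
    choose U hU hUs using h2
    obtain ⟨V, hV⟩ := hsmall (W1 ∩ ⋂ h ∈ insert (hs s.1) s.2, U h) (by
      refine Filter.inter_mem hW1 ?_
      rw [Filter.biInter_finset_mem]
      exact fun h _ => hU h)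
    refine ⟨(V, insert (hs s.1) s.2), fun x hx y hy => hW1s _ (hV hx).1 _ (hV hy).1, rfl, ?_⟩
    intro h hh f hf
    apply hUs h
    intro i
    have := (hV (hf i)).2
    simp only [mem_iInter] at this
    exact this h hh
  choose nx hnx1 hnx2 hnx3 using hnext
  obtain ⟨V0, -⟩ := hsmall univ univ_mem
  let sq : ℕ → St × Finset (Fam X I F →ₜ* Circle) := fun n =>
    Nat.rec (V0, ∅) (fun n s => nx n s) n
  have hsq : ∀ n, sq (n + 1) = nx n (sq n) := fun n => rfl
  have hmem : ∀ j n, hs (sq j).1 ∈ (sq (j + 1 + n)).2 := by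
    intro j n
    induction n with
    | zero =>
      rw [Nat.add_zero, hsq, hnx2]
      exact Finset.mem_insert_self _ _
    | succ n ih =>
      rw [← Nat.add_assoc, hsq, hnx2]
      exact Finset.mem_insert_of_mem ih
  obtain ⟨y, hy1, hy2, hy3⟩ := hLift X I F (fun n => (sq n).1.1) (fun n => fn (fs (sq n).1))
    (fun n => (sq n).1.2.1) (fun n => mem_of_mem_nhds (sq n).1.2.2.1) (fun n => (sq n).1.2.2.2)
    (fun n x hx z hz => by
      have hx' : x ∈ (nx n (sq n)).1.1 := hx
      have hz' : z ∈ (nx n (sq n)).1.1 := hz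
      exact hnx1 n (sq n) x hx' z hz')
    (fun n i => (hfs (sq n).1).1 i) (fun n => fn_tendsto _)
  let Y : ℕ → Fam X I F := fun n => mkF (y n)
    ((sq 0).1.2.1.totallyBounded.subset (by
      rintro _ ⟨i, rfl⟩
      exact hy1 n i 0)) (hy2 n)
  have hvan : ∀ n, hs (sq n).1 (Y n) = 1 := by
    intro n
    rw [← nm_eq_zero]
    apply le_antisymm _ (nm_nonneg _)
    have h1 : ∀ m : ℕ, nm (hs (sq n).1 (Y n)) ≤ 1 / ((n + m : ℕ) + 1) := by
      intro m
      have h2 := hnx3 (n + m) (sq (n + m)) (hs (sq n).1)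
        (by
          have := hmem n m
          have e : n + 1 + m = (n + m) + 1 := by omega
          rw [e, hsq] at this
          exact this) (Y n) (fun i => hy1 n i (n + m + 1))
      exact_mod_cast h2
    have h3 : Tendsto (fun m : ℕ => (1 : ℝ) / ((n + m : ℕ) + 1)) atTop (𝓝 0) := by
      have := tendsto_one_div_add_atTop_nhds_zero_nat (𝕜 := ℝ)
      have h4 := this.comp (tendsto_add_atTop_nat n)
      refine h4.congr fun m => ?_
      show (1 : ℝ) / (((m + n : ℕ) : ℝ) + 1) = _
      rw [Nat.add_comm]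
    exact ge_of_tendsto' h3 h1
  have hnull : Tendsto (fun n => fs (sq n).1 / Y n) atTop (𝓝 (1 : Fam X I F)) := by
    intro s hsn
    obtain ⟨U, hU, hUs⟩ := mem_nhds_fam.1 hsn
    rw [mem_map]
    filter_upwards [hy3 U hU] with n hn
    apply hUs
    intro i
    have := hn i
    rw [← div_eq_mul_inv] at this
    exact this
  obtain ⟨n, hn⟩ := (seq_equi hQ hnull hε).exists
  have h5 := hn (hs (sq n).1) (hfs (sq n).1).2.1
  rw [map_div, hvan, div_one] at h5
  exact absurd h5 (not_le.2 (hfs (sq n).1).2.2)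

/-- **The uniform groups `G_F(X)` are reflexive.** -/
theorem fam_reflexive (hX : Reflexive X) (hLift : StmLift.{u, v}) : Reflexive (Fam X I F) :=
  reflexive_of (fam_inj hX) (fam_surj hX) (fam_cont hLift) (fam_open hX)

end Pool.Agent.R657.UG
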