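import Mathlib
import Pool.Agent.R657.UG.FamRefl

/-! # Project UG: assembly -/

set_option autoImplicit false
set_option linter.unusedSectionVars false

namespace Pool.Agent.R657.UG

open Topology Filter Set

universe u v

/-- the dual isomorphism -/
noncomputable def dualE {G : Type u} {H : Type v} [CommGroup G] [TopologicalSpace G] [CommGroup H]
    [TopologicalSpace H] (e : G ≃ₜ* H) : (H →ₜ* Circle) ≃ₜ* (G →ₜ* Circle) where
  toFun χ := χ.comp (e : G →ₜ* H)
  invFun ψ := ψ.comp (e.symm : H →ₜ* G)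
  left_inv χ := by
    ext x
    show ((χ (e (e.symm x)) : Circle) : ℂ) = _
    rw [e.apply_symm_apply]
  right_inv ψ := by
    ext x
    show ((ψ (e.symm (e x)) : Circle) : ℂ) = _
    rw [e.symm_apply_apply]
  map_mul' _ _ := rfl
  continuous_toFun := ContinuousMonoidHom.continuous_comp_left (e : G →ₜ* H)
  continuous_invFun := ContinuousMonoidHom.continuous_comp_left (e.symm : H →ₜ* G)

theorem Reflexive.congr {G : Type u} {H : Type v} [CommGroup G] [TopologicalSpace G] [CommGroup H]
    [TopologicalSpace H] (e : G ≃ₜ* H) (h : Reflexive G) : Reflexive H := by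
  obtain ⟨a, ha⟩ := h
  refine ⟨(e.symm.trans a).trans (dualE (dualE e)), fun x χ => ?_⟩
  show a (e.symm x) (χ.comp (e : G →ₜ* H)) = χ x
  rw [ha]
  show χ (e (e.symm x)) = χ x
  rw [e.apply_symm_apply]

/-! ## The three groups of the problem -/

/-- `X ^ I` -/
def FAll (X : Type u) (I : Type v) : Type (max u v) := I → X

instance (X : Type u) (I : Type v) [CommGroup X] : CommGroup (FAll X I) :=
  inferInstanceAs (CommGroup (I → X))

/-- The topology of `X ^ I` for which the sets `U ^ I`, `U` a neighbourhood of `1` in `X`, form a base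
at `1`: a set `s` is open if for every `f ∈ s` there is such a `U` with `f * U ^ I ⊆ s`. -/
instance (X : Type u) (I : Type v) [CommGroup X] [TopologicalSpace X] :
    TopologicalSpace (FAll X I) where
  IsOpen s := ∀ f ∈ s, ∃ U ∈ 𝓝 (1 : X), ∀ g : FAll X I, (∀ i, g i / f i ∈ U) → g ∈ s
  isOpen_univ := fun _ _ => ⟨univ, univ_mem, fun _ _ => mem_univ _⟩
  isOpen_inter := by
    rintro s t hs ht f ⟨hf1, hf2⟩
    obtain ⟨U, hU, h1⟩ := hs f hf1
    obtain ⟨V, hV, h2⟩ := ht f hf2
    exact ⟨U ∩ V, inter_mem hU hV, fun g hg => ⟨h1 g fun i => (hg i).1, h2 g fun i => (hg i).2⟩⟩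
  isOpen_sUnion := by
    rintro S hS f ⟨s, hs, hf⟩
    obtain ⟨U, hU, h⟩ := hS s hs f hf
    exact ⟨U, hU, fun g hg => ⟨s, hs, h g hg⟩⟩

/-- the families with precompact set of values -/
def FInf (X : Type u) (I : Type v) [CommGroup X] [TopologicalSpace X] [IsTopologicalGroup X] :
    Subgroup (FAll X I) where
  carrier := {f | ∀ U ∈ 𝓝 (1 : X), ∃ t : Set X, t.Finite ∧ ∀ i, ∃ y ∈ t, f i / y ∈ U}
  mul_mem' := by
    intro f g hf hg U hU
    obtain ⟨V, hV, hVU⟩ := exists_nhds_one_split hU
    obtain ⟨a, ha, ha2⟩ := hf V hV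
    obtain ⟨b, hb, hb2⟩ := hg V hV
    refine ⟨(fun p : X × X => p.1 * p.2) '' (a ×ˢ b), (ha.prod hb).image _, fun i => ?_⟩
    obtain ⟨x', hx', hxV⟩ := ha2 i
    obtain ⟨y', hy', hyV⟩ := hb2 i
    refine ⟨x' * y', ⟨(x', y'), ⟨hx', hy'⟩, rfl⟩, ?_⟩
    have := hVU _ hxV _ hyV
    rwa [div_mul_div_comm] at this
  one_mem' := by
    intro U hU
    refine ⟨{1}, finite_singleton _, fun i => ⟨1, rfl, ?_⟩⟩
    show (1 : X) / 1 ∈ U
    rw [div_one]
    exact mem_of_mem_nhds hU
  inv_mem' := by
    intro f hf U hU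
    obtain ⟨a, ha, ha2⟩ := hf U⁻¹ (inv_mem_nhds_one X hU)
    refine ⟨a⁻¹, ha.inv, fun i => ?_⟩
    obtain ⟨x, hx, hxU⟩ := ha2 i
    refine ⟨x⁻¹, by simpa using hx, ?_⟩
    show (f i)⁻¹ / x⁻¹ ∈ U
    have : ((f i) / x)⁻¹ ∈ U := hxU
    rwa [inv_div, div_eq_mul_inv, mul_comm, ← div_inv_eq_mul] at this

/-- the families which are outside every neighbourhood of `1` only finitely often -/
def FZero (X : Type u) (I : Type v) [CommGroup X] [TopologicalSpace X] [IsTopologicalGroup X] :
    Subgroup (FAll X I) where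
  carrier := {f | ∀ U ∈ 𝓝 (1 : X), {i | f i ∉ U}.Finite}
  mul_mem' := by
    intro f g hf hg U hU
    obtain ⟨V, hV, hVU⟩ := exists_nhds_one_split hU
    refine ((hf V hV).union (hg V hV)).subset ?_
    intro i hi
    by_contra hcon
    simp only [mem_union, mem_ofPred_eq, not_or, not_not] at hcon
    exact hi (hVU _ hcon.1 _ hcon.2)
  one_mem' := by
    intro U hU
    convert Set.finite_empty (α := I)
    ext i
    simp only [mem_ofPred_eq, mem_empty_iff_false, iff_false, not_not]
    exact mem_of_mem_nhds hU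
  inv_mem' := by
    intro f hf U hU
    refine (hf U⁻¹ (inv_mem_nhds_one X hU)).subset ?_
    intro i hi hcon
    exact hi hcon

section

variable {X : Type u} [CommGroup X] [UniformSpace X] [IsUniformGroup X] {I : Type v}

lemma mem_nhds_uf {s : Set (UniformFun I X)} {f : UniformFun I X} :
    s ∈ 𝓝 f ↔ ∃ U ∈ 𝓝 (1 : X), ∀ g : UniformFun I X,
      (∀ i, UniformFun.toFun g i / UniformFun.toFun f i ∈ U) → g ∈ s := by
  have h := (UniformFun.hasBasis_nhds_one (α := I) (G := X))
  rw [← nhds_translation_div f, (h.comap _).mem_iff]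
  rfl

/-- underlying function -/
def toAll (f : UniformFun I X) : FAll X I := UniformFun.toFun f

/-- inverse of `toAll` -/
def ofAll (f : FAll X I) : UniformFun I X := UniformFun.ofFun f

/-- identification with Mathlib's uniform function space -/
noncomputable def eAll : UniformFun I X ≃ₜ* FAll X I where
  toFun f := toAll f
  invFun f := ofAll f
  left_inv _ := rfl
  right_inv _ := rfl
  map_mul' _ _ := rfl
  continuous_toFun := by
    refine continuous_def.2 fun s hs => ?_
    rw [isOpen_iff_mem_nhds]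
    intro f hf
    obtain ⟨U, hU, h⟩ := hs _ hf
    exact mem_nhds_uf.2 ⟨U, hU, fun g hg => h _ hg⟩
  continuous_invFun := by
    refine continuous_def.2 fun s hs => ?_
    rw [isOpen_iff_mem_nhds] at hs
    intro f hf
    obtain ⟨U, hU, h⟩ := mem_nhds_uf.1 (hs _ hf)
    exact ⟨U, hU, fun g hg => h _ hg⟩

/-- restriction of an isomorphism to subgroups -/
noncomputable def eSub {G : Type u} {H : Type v} [CommGroup G] [TopologicalSpace G] [CommGroup H]
    [TopologicalSpace H] (e : G ≃ₜ* H) (A : Subgroup G) (B : Subgroup H)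
    (h : ∀ x, x ∈ A ↔ e x ∈ B) : A ≃ₜ* B where
  toFun x := ⟨e x, (h x).1 x.2⟩
  invFun y := ⟨e.symm y, (h _).2 (by rw [e.apply_symm_apply]; exact y.2)⟩
  left_inv x := Subtype.ext (e.symm_apply_apply _)
  right_inv y := Subtype.ext (e.apply_symm_apply _)
  map_mul' x y := Subtype.ext (map_mul e _ _)
  continuous_toFun := (e.continuous_toFun.comp continuous_subtype_val).subtype_mk _
  continuous_invFun := (e.continuous_invFun.comp continuous_subtype_val).subtype_mk _

lemma mem_inf_iff (f : UniformFun I X) : f ∈ FamSub X I ⊥ ↔ eAll f ∈ FInf X I := by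
  constructor
  · rintro ⟨h1, -⟩ U hU
    obtain ⟨t, ht, hts⟩ := tb_iff.1 h1 U hU
    exact ⟨t, ht, fun i => hts _ (mem_range_self i)⟩
  · intro h
    refine ⟨tb_iff.2 fun U hU => ?_, tendsto_bot⟩
    obtain ⟨t, ht, hts⟩ := h U hU
    refine ⟨t, ht, ?_⟩
    rintro _ ⟨i, rfl⟩
    exact hts i

lemma mem_zero_iff (f : UniformFun I X) : f ∈ FamSub X I cofinite ↔ eAll f ∈ FZero X I := by
  constructor
  · rintro ⟨-, h2⟩ U hU
    exact h2 hU
  · intro h
    refine ⟨tb_iff.2 fun U hU => ?_, fun U hU => h U hU⟩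
    refine ⟨insert 1 (UniformFun.toFun f '' {i | UniformFun.toFun f i ∉ U}),
      ((h U hU).image _).insert _, ?_⟩
    rintro _ ⟨i, rfl⟩
    by_cases hi : UniformFun.toFun f i ∈ U
    · exact ⟨1, mem_insert _ _, by rwa [div_one]⟩
    · refine ⟨UniformFun.toFun f i, mem_insert_of_mem _ ⟨i, hi, rfl⟩, ?_⟩
      rw [div_self']
      exact mem_of_mem_nhds hU

end

/-- every LCA group is reflexive (Pontryagin duality), from the pieces -/
theorem lca_reflexive (hLat : StmLat.{u}) (hDual : StmDualLat.{u}) (hOpen : StmOpen.{u})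
    (X : Type u) [CommGroup X] [TopologicalSpace X] [IsTopologicalGroup X] [LocallyCompactSpace X]
    [T2Space X] : Reflexive X := by
  obtain ⟨Y, hY, m, j, C, hL⟩ := hLat X
  have : LocallyCompactSpace Y := hY.locallyCompactSpace
  exact hOpen X Y hY (hDual Y m j C hL)

theorem main_aux (hLat : StmLat.{u}) (hDual : StmDualLat.{u}) (hOpen : StmOpen.{u})
    (hOpen' : StmOpen.{max u v}) (hLift : StmLift.{u, v})
    (X : Type u) [CommGroup X] [UniformSpace X] [IsUniformGroup X] [LocallyCompactSpace X]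
    [T2Space X] (I : Type v) :
    Reflexive (FZero X I) ∧ Reflexive (FInf X I) ∧ Reflexive (FAll X I) := by
  have hX : Reflexive X := lca_reflexive hLat hDual hOpen X
  have h0 : Reflexive (FamSub X I (⊥ : Filter I)) := fam_reflexive hX hLift
  refine ⟨?_, ?_, ?_⟩
  · exact (fam_reflexive (F := cofinite) hX hLift).congr (eSub eAll _ _ mem_zero_iff)
  · exact h0.congr (eSub eAll _ _ mem_inf_iff)
  · refine Reflexive.congr eAll ?_
    have hT2 : T2Space (UniformFun I X) := inferInstance
    refine hOpen' (UniformFun I X) (FamSub X I ⊥) ?_ h0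
    apply Subgroup.isOpen_of_mem_nhds (g := 1)
    obtain ⟨K, hKc, hK⟩ := exists_compact_mem_nhds (1 : X)
    rw [mem_nhds_uf]
    refine ⟨K, hK, fun g hg => ⟨?_, tendsto_bot⟩⟩
    refine hKc.totallyBounded.subset ?_
    rintro _ ⟨i, rfl⟩
    have := hg i
    rwa [UniformFun.toFun_one, Pi.one_apply, div_one] at this

/-- **Main theorem, from the pieces.** -/
theorem main (hLat : StmLat.{u}) (hDual : StmDualLat.{u}) (hOpen : StmOpen.{u})
    (hOpen' : StmOpen.{max u v}) (hLift : StmLift.{u, v})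
    (X : Type u) [CommGroup X] [TopologicalSpace X] [IsTopologicalGroup X] [LocallyCompactSpace X]
    [T2Space X] (I : Type v) :
    Reflexive (FZero X I) ∧ Reflexive (FInf X I) ∧ Reflexive (FAll X I) := by
  let _ : UniformSpace X := IsTopologicalGroup.rightUniformSpace X
  have : IsUniformGroup X := isUniformGroup_of_commGroup
  exact main_aux hLat hDual hOpen hOpen' hLift X I

end Pool.Agent.R657.UG
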